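import Pool.Agent.Lib.MP_af3016_co.F.Cliq

/-! A cycle of length four with one vertex on the first side. -/

set_option autoImplicit false
set_option linter.unusedSectionVars false

namespace Pool.Agent.Lib.MP_af3016_co

open Finset SimpleGraph

variable {V : Type} [DecidableEq V] {G : SimpleGraph V}

/-- three vertices with pairwise disjoint neighbourhoods -/
theorem l13_three {S R : Finset V} {x y z : V}
    (h : ∀ b ∈ S, G.Adj x b ∨ G.Adj y b ∨ G.Adj z b → b ∈ R)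
    (hxy : ∀ b ∈ S, G.Adj x b → ¬G.Adj y b) (hxz : ∀ b ∈ S, G.Adj x b → ¬G.Adj z b)
    (hyz : ∀ b ∈ S, G.Adj y b → ¬G.Adj z b) : dG G x S + dG G y S + dG G z S ≤ R.card := by
  obtain ⟨N1, a1, b1⟩ := exists_nbhd (G := G) x S
  obtain ⟨N2, a2, b2⟩ := exists_nbhd (G := G) y S
  obtain ⟨N3, a3, b3⟩ := exists_nbhd (G := G) z S
  rw [← a1, ← a2, ← a3, ← card_union_of_disjoint (Finset.disjoint_left.2 fun b h1 h2 =>
      hxy b ((b1 b).1 h1).1 ((b1 b).1 h1).2 ((b2 b).1 h2).2),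
    ← card_union_of_disjoint (Finset.disjoint_left.2 fun b h1 h2 => (mem_union.1 h1).elim
      (fun h1 => hxz b ((b1 b).1 h1).1 ((b1 b).1 h1).2 ((b3 b).1 h2).2)
      fun h1 => hyz b ((b2 b).1 h1).1 ((b2 b).1 h1).2 ((b3 b).1 h2).2)]
  refine card_le_card fun b hb => ?_
  rw [mem_union, mem_union, b1, b2, b3] at hb
  exact h b (by tauto) (by tauto)

/-- a cycle with one vertex in `A` and a removable triple in `B` -/
theorem l13_link {W A B : Finset V} {I J : Multiset ℕ} {α β α' β' : ℕ} (sI : Sq G W I α β)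
    (sJ : Sq G W J α' β') (hW : ∀ v, v ∈ W ↔ v ∈ A ∨ v ∈ B) (hd : Disjoint A B)
    (cA : A.card = α + β + 1) (cB : B.card = α' + β' + 3) (hA : Hap G A β)
    (hB : Hap G B (β' + 1)) {a u v u' : V} (ha : a ∈ A) (hu : u ∈ B) (hv : v ∈ B) (hu' : u' ∈ B)
    (ne : u ≠ u') (h1 : G.Adj a u) (h2 : G.Adj a u') (h3 : G.Adj v u) (h4 : G.Adj v u')
    (h : ¬∃ w ∈ B, dH G w B = β' ∧ G.Adj w u ∧ G.Adj w v ∧ G.Adj w u') :
    Til G W (4 ::ₘ (I + J)) := by
  have dj := Finset.disjoint_left.1 hd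
  obtain ⟨c1, c2⟩ := hc_quad h1 h3.symm h4 h2.symm (fun e => dj ha (e ▸ hv)) ne
  have hQ : ({u, v, u'} : Finset V) ⊆ B :=
    insert_subset hu (insert_subset hv (singleton_subset_iff.2 hu'))
  have cQ : ({u, v, u'} : Finset V).card = 3 :=
    card_eq_three.2 ⟨u, v, u', h3.ne.symm, ne, h4.ne, rfl⟩
  have t1 := sI.orc (A.erase a) (fun t ht => (hW t).2 (Or.inl (mem_of_mem_erase ht)))
    (by rw [card_erase_of_mem ha]; omega) (hA.mono (erase_subset a A))
  have t2 := sJ.orc (B \ {u, v, u'}) (fun t ht => (hW t).2 (Or.inr (mem_sdiff.1 ht).1))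
    (by rw [card_sdiff_of_subset hQ]; omega) (hB.drop hQ fun w hw _ ht => by
      by_contra g
      push Not at g
      exact h ⟨w, hw, ht, g u (by simp), g v (by simp), g u' (by simp)⟩)
  refine Til.three c1 c2 t1 t2 (hd.mono (erase_subset a A) sdiff_subset)
    (Finset.disjoint_left.2 fun t ht g => ?_) (Finset.disjoint_left.2 fun t ht g => ?_) fun t => ?_
  · rw [mem_erase] at g
    exact dj g.2 (hQ ((mem_insert.1 ht).resolve_left g.1))
  · rw [mem_sdiff] at g
    rcases mem_insert.1 ht with rfl | ht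
    · exact dj ha g.1
    · exact g.2 ht
  · rw [hW, mem_insert, mem_erase, mem_sdiff]
    have k1 : t = a → t ∈ A := fun e => e ▸ ha
    have k2 := @hQ t
    tauto

theorem l13 {W A B : Finset V} {I J : Multiset ℕ} {α β α' β' : ℕ} (sI : Sq G W I α β)
    (sJ : Sq G W J α' β') (hW : ∀ v, v ∈ W ↔ v ∈ A ∨ v ∈ B) (hd : Disjoint A B)
    (cA : A.card = α + β + 1) (cB : B.card = α' + β' + 3) (hA : Hap G A β)
    (hB : Hap G B (β' + 1)) (deg : ∀ v ∈ W, dH G v W ≤ β + β' + 1)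
    (k4 : ∀ Q, Q ⊆ B → Clq G Q → (∀ y ∈ Q, dH G y B = β') → Q.card ≤ 3) :
    Til G W (4 ::ₘ (I + J)) := by
  by_contra no
  have dj := Finset.disjoint_left.1 hd
  have eW : W = A ∪ B := by ext v; rw [hW, mem_union]
  have s1 := sI.le
  have s2 := sI.two
  have s3 := sJ.le
  have s4 := sJ.one
  have F1 : ∀ u ∈ B, α + dH G u B ≤ dG G u A + β' := fun u hu => by
    have a1 := deg u ((hW u).2 (Or.inr hu))
    rw [eW, dH_union hd] at a1
    have a2 := dG_add_dH_out (G := G) (S := A) fun e => dj e hu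
    omega
  have F2 : ∀ u ∈ B, α' + 2 ≤ dG G u B := fun u hu => by
    have a1 := hB u hu
    have a2 := dG_add_dH_in (G := G) hu
    omega
  have F3 : ∀ a ∈ A, α' + 2 + dH G a A ≤ dG G a B + β := fun a ha => by
    have a1 := deg a ((hW a).2 (Or.inl ha))
    rw [eW, dH_union hd] at a1
    have a2 := dG_add_dH_out (G := G) (dj ha)
    omega
  have NL : ∀ a ∈ A, ∀ u ∈ B, ∀ v ∈ B, ∀ u' ∈ B, u ≠ u' → G.Adj a u → G.Adj a u' → G.Adj v u →
      G.Adj v u' → ∃ w ∈ B, dH G w B = β' ∧ G.Adj w u ∧ G.Adj w v ∧ G.Adj w u' :=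
    fun a ha u hu v hv u' hu' ne h1 h2 h3 h4 => by_contra fun h =>
      no (l13_link sI sJ hW hd cA cB hA hB ha hu hv hu' ne h1 h2 h3 h4 h)
  have T3 : ∀ x ∈ B, ∀ y ∈ B, ∀ z ∈ B, G.Adj x y → G.Adj x z → G.Adj y z →
      (∀ w ∈ B, dH G w B = β' → G.Adj w x → G.Adj w y → ¬G.Adj w z) → ∀ R : Finset V,
      (∀ b ∈ A, G.Adj x b ∨ G.Adj y b ∨ G.Adj z b → b ∈ R) →
      dG G x A + dG G y A + dG G z A ≤ R.card := by
    intro x hx y hy z hz xy xz yz h R hR
    refine l13_three hR (fun b hb g1 g2 => ?_) (fun b hb g1 g2 => ?_) fun b hb g1 g2 => ?_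
    · obtain ⟨w, w1, w2, w3, w4, w5⟩ := NL b hb x hx z hz y hy xy.ne g1.symm g2.symm xz.symm yz.symm
      exact h w w1 w2 w3 w5 w4
    · obtain ⟨w, w1, w2, w3, w4, w5⟩ := NL b hb x hx y hy z hz xz.ne g1.symm g2.symm xy.symm yz
      exact h w w1 w2 w3 w4 w5
    · obtain ⟨w, w1, w2, w3, w4, w5⟩ := NL b hb y hy x hx z hz yz.ne g1.symm g2.symm xy xz
      exact h w w1 w2 w4 w3 w5
  have NT : ∀ x ∈ B, ∀ y ∈ B, ∀ z ∈ B, dH G x B = β' → dH G y B = β' → dH G z B = β' →
      G.Adj x y → G.Adj x z → ¬G.Adj y z := by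
    intro x hx y hy z hz tx ty tz xy xz yz
    have a1 := T3 x hx y hy z hz xy xz yz (fun w hw tw g1 g2 g3 => ?_) A fun b hb _ => hb
    · have a2 := F1 x hx
      have a3 := F1 y hy
      have a4 := F1 z hz
      omega
    have a2 := k4 {w, x, y, z} (insert_subset hw (insert_subset hx (insert_subset hy
      (singleton_subset_iff.2 hz)))) (fun p hp q hq ne => by
        simp only [mem_insert, mem_singleton] at hp hq
        rcases hp with rfl | rfl | rfl | rfl <;> rcases hq with rfl | rfl | rfl | rfl <;>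
          first | exact absurd rfl ne | assumption | (apply G.adj_symm; assumption))
      fun p hp => by
        simp only [mem_insert, mem_singleton] at hp
        rcases hp with rfl | rfl | rfl | rfl <;> assumption
    rw [(hc_quad g1 xy yz g3.symm g2.ne xz.ne).2] at a2
    omega
  have KEY : ∀ a ∈ A, ∀ u ∈ B, ∀ u' ∈ B, u ≠ u' → G.Adj a u → G.Adj a u' →
      dG G u A = 1 ∧ α = β ∧ ∃ w1 ∈ B, ∃ w2 ∈ B, dH G w1 B = β' ∧ dH G w2 B = β' ∧ G.Adj w2 w1 ∧
        ∀ b ∈ A, G.Adj u b ∨ G.Adj w1 b ∨ G.Adj w2 b := by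
    intro a ha u hu u' hu' ne h1 h2
    obtain ⟨v, hv, g1, g2⟩ := exists_common (G := G) (a := u) (b := u') (S := B) (by
      have := F2 u hu
      have := F2 u' hu'
      omega)
    obtain ⟨w1, b1, t1, c1, -, d1⟩ := NL a ha u hu v hv u' hu' ne h1 h2 g1.symm g2.symm
    obtain ⟨w2, b2, t2, c2, e2, -⟩ := NL a ha u hu w1 b1 u' hu' ne h1 h2 c1 d1
    have k := T3 u hu w1 b1 w2 b2 c1.symm c2.symm e2.symm
      fun w hw tw _ g3 g4 => NT w hw w1 b1 w2 b2 tw t1 t2 g3 g4 e2.symm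
    have a1 := k A fun b hb _ => hb
    have a2 := F1 w1 b1
    have a3 := F1 w2 b2
    have a4 : 0 < dG G u A := Nat.pos_of_ne_zero fun e => dG_eq_zero.1 e a ha h1.symm
    refine ⟨by omega, by omega, w1, b1, w2, b2, t1, t2, e2, fun b hb => by_contra fun g => ?_⟩
    have a5 := k (A.erase b) fun c hc g' => mem_erase.2 ⟨fun e => g (e ▸ g'), hc⟩
    have a6 := card_erase_add_one hb
    omega
  have ONE : ∀ a ∈ A, dG G a B ≤ 1 := by
    intro a ha
    by_contra g
    obtain ⟨N, n1, n2⟩ := exists_nbhd (G := G) a B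
    obtain ⟨u, hu, u', hu', ne⟩ := one_lt_card.1 (show 1 < N.card by omega)
    rw [n2] at hu hu'
    obtain ⟨k1, k2, w1, b1, w2, b2, t1, t2, e2, cov⟩ := KEY a ha u hu.1 u' hu'.1 ne hu.2 hu'.2
    have uniq : ∀ w ∈ B, dH G w B = β' → ∀ b ∈ A, G.Adj w b → ∀ z ∈ B, G.Adj b z → z = w := by
      intro w hw tw b hb g1 z hz g2
      by_contra ne'
      have a1 := (KEY b hb w hw z hz (Ne.symm ne') g1.symm g2).1
      have a2 := F1 w hw
      omega
    obtain ⟨b, hb, g1⟩ := exists_adj (G := G) (a := w1) (S := A) (by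
      have := F1 w1 b1
      omega)
    have a1 : dG G b B ≤ 1 := (dG_le (R := {w1}) fun z hz g2 =>
      mem_singleton.2 (uniq w1 b1 t1 b hb g1 z hz g2)).trans (card_singleton w1).le
    have a2 := F3 b hb
    obtain ⟨M, m1, m2⟩ := exists_non (G := G) w1 B
    obtain ⟨z, hz⟩ : M.Nonempty := card_pos.1 (by omega)
    rw [m2] at hz
    have a3 := dH_pos b1 (Ne.symm hz.2.1) fun e => hz.2.2 e.symm
    have a4 := F1 z hz.1
    obtain ⟨K, q1, q2⟩ := exists_nbhd (G := G) u A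
    have a5 : dG G z A ≤ K.card := dG_le fun c hc g2 => (q2 c).2 ⟨hc, by
      rcases cov c hc with g3 | g3 | g3
      · exact g3
      · exact absurd (uniq w1 b1 t1 c hc g3 z hz.1 g2.symm) hz.2.1
      · exact absurd (uniq w2 b2 t2 c hc g3 z hz.1 g2.symm ▸ e2.symm) hz.2.2⟩
    omega
  obtain ⟨a0, ha0⟩ : A.Nonempty := card_pos.1 (by omega)
  have b1 := F3 a0 ha0
  have b2 := ONE a0 ha0
  have b3 : ∑ u ∈ B, dG G u A ≤ A.card := by
    rw [sum_dG_comm]
    simpa using sum_le_card_nsmul A _ 1 ONE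
  obtain ⟨D, hD⟩ : ∃ D, α = β' + 1 + D := ⟨α - β' - 1, by omega⟩
  have b4 := card_nsmul_le_sum B (fun u => dG G u A) (D + 1) fun u hu => by
    have := F1 u hu
    omega
  rw [smul_eq_mul, cB] at b4
  have b5 : D = 0 := by
    by_contra g
    obtain ⟨E, rfl⟩ : ∃ E, D = E + 1 := ⟨D - 1, by omega⟩
    nlinarith [Nat.zero_le (β' * E), Nat.mul_le_mul_right (E + 1 + 1) s3]
  have b6 : ∀ u ∈ B, dH G u B = 0 := fun u hu => by
    have c1 : ∑ u ∈ B, (1 + dH G u B) ≤ ∑ u ∈ B, dG G u A := sum_le_sum fun v hv => by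
      have := F1 v hv
      omega
    rw [sum_add_distrib, ← card_eq_sum_ones] at c1
    have c2 := single_le_sum (f := fun v => dH G v B) (fun _ _ => Nat.zero_le _) hu
    omega
  have pr : Pr G B A := ⟨fun u hu v hv ne => dH_eq_zero.1 (b6 u hu) v hv ne.symm,
    fun a ha b hb ne => dH_eq_zero.1 (by
      have := F3 a ha
      have := ONE a ha
      omega) b hb ne.symm, by omega, fun u hu => exists_adj (by
      have := F1 u hu
      omega), ONE⟩
  refine no ?_
  rw [eW, union_comm]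
  refine til_prism (fun x hx => ?_) (fun x hx => ?_) hd.symm pr ?_
  · rcases Multiset.mem_cons.1 hx with rfl | hx
    · omega
    · exact (Multiset.mem_add.1 hx).elim (sI.three x) (sJ.three x)
  · rcases Multiset.mem_cons.1 hx with rfl | hx
    · rfl
    · exact (Multiset.mem_add.1 hx).elim (sI.even (by omega) x) (sJ.even (by omega) x)
  · rw [Multiset.sum_cons, Multiset.sum_add, sI.sum, sJ.sum]
    omega

end Pool.Agent.Lib.MP_af3016_co
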