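import Pool.Agent.Lib.MP_af3016_co.F.Defs

/-! Two vertices on each side: both tight sets are nonempty. -/

set_option autoImplicit false
set_option linter.unusedSectionVars false

namespace Pool.Agent.Lib.MP_af3016_co

open Finset SimpleGraph

variable {V : Type} [DecidableEq V] {G : SimpleGraph V}

theorem l22a_er0 {a b : V} (S : Finset V) (h : ¬G.Adj a b) : dG G a S ≤ dG G a (S.erase b) := by
  obtain ⟨N, h1, h2⟩ := exists_nbhd (G := G) a (S.erase b)
  rw [← h1]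
  exact dG_le fun c hc g => (h2 c).2 ⟨mem_erase.2 ⟨fun e => h (e ▸ g), hc⟩, g⟩

theorem l22a_er1 (a b : V) (S : Finset V) : dG G a S ≤ dG G a (S.erase b) + 1 := by
  obtain ⟨N, h1, h2⟩ := exists_nbhd (G := G) a (S.erase b)
  rw [← h1]
  refine le_trans (dG_le (R := insert b N) fun c hc g => ?_) (card_insert_le _ _)
  by_cases e : c = b
  · simp [e]
  · exact mem_insert_of_mem ((h2 c).2 ⟨mem_erase.2 ⟨e, hc⟩, g⟩)

/-- a pair that holds a non-neighbour of every tight vertex can be removed -/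
theorem l22a_rem {A : Finset V} {β : ℕ} (hA : Hap G A (β + 1)) {x y : V} (hx : x ∈ A) (hy : y ∈ A)
    (h : ∀ v ∈ A, v ≠ x → v ≠ y → dH G v A = β → ¬G.Adj v x ∨ ¬G.Adj v y) :
    Hap G (A \ {x, y}) β := by
  refine hA.drop (by simp [insert_subset_iff, hx, hy]) fun v hv g e => ?_
  simp only [mem_insert, mem_singleton, not_or] at g
  rcases h v hv g.1 g.2 e with k | k
  exacts [⟨x, by simp, k⟩, ⟨y, by simp, k⟩]

/-- the hypotheses, together with the failure of the conclusion -/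
structure L22aD (G : SimpleGraph V) (A B : Finset V) (α β α' β' : ℕ) : Prop where
  le : β ≤ α
  le' : β' ≤ α'
  two : 2 ≤ α
  two' : 2 ≤ α'
  hd : Disjoint A B
  cA : A.card = α + β + 2
  cB : B.card = α' + β' + 2
  hA : Hap G A (β + 1)
  hB : Hap G B (β' + 1)
  deg : ∀ v, v ∈ A ∨ v ∈ B → dH G v A + dH G v B ≤ β + β' + 1
  iA : ∀ y ∈ A, ∀ z ∈ A, dH G y A = β → dH G z A = β → ¬G.Adj y z
  iB : ∀ y ∈ B, ∀ z ∈ B, dH G y B = β' → dH G z B = β' → ¬G.Adj y z
  no : ∀ x ∈ A, ∀ x' ∈ A, ∀ u ∈ B, ∀ u' ∈ B, Lk G x x' u u' → Hap G (A \ {x, x'}) β →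
    Hap G (B \ {u, u'}) β' → False

namespace L22aD

variable {A B : Finset V} {α β α' β' : ℕ} (h : L22aD G A B α β α' β') {t t' w x u z : V}
include h

theorem symm : L22aD G B A α' β' α β :=
  ⟨h.le', h.le, h.two', h.two, h.hd.symm, h.cB, h.cA, h.hB, h.hA,
    fun v hv => by have := h.deg v hv.symm; omega, h.iB, h.iA,
    fun u hu u' hu' x hx x' hx' k g g' => h.no x hx x' hx' u hu u' hu' k.symm g' g⟩

theorem inn (hx : x ∈ A) : dG G x A + dH G x A = α + β + 1 := by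
  have := dG_add_dH_in (G := G) hx
  have := h.cA
  omega

theorem out (hx : x ∈ A) : α' + 1 + dH G x A ≤ β + dG G x B := by
  have := dG_add_dH_out (G := G) (Finset.disjoint_left.1 h.hd hx)
  have := h.deg x (.inl hx)
  have := h.cB
  omega

theorem remL (ht : t ∈ A) (et : dH G t A = β) (hx : x ∈ A) : Hap G (A \ {t, x}) β :=
  l22a_rem h.hA ht hx fun v hv _ _ e => .inl (h.iA v hv t ht e et)

theorem remR (ht : t ∈ A) (et : dH G t A = β) (hx : x ∈ A) : Hap G (A \ {x, t}) β :=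
  l22a_rem h.hA hx ht fun v hv _ _ e => .inr (h.iA v hv t ht e et)

/-- no cycle through a tight vertex on each side -/
theorem cyc (ht : t ∈ A) (et : dH G t A = β) (hw : w ∈ B) (ew : dH G w B = β') (hx : x ∈ A)
    (hu : u ∈ B) (h1 : G.Adj t x) (h2 : G.Adj x w) (h3 : G.Adj w u) (h4 : G.Adj u t) : False :=
  h.no t ht x hx u hu w hw ⟨h1.ne, h3.ne.symm, .inr ⟨h1, h2, h3, h4⟩⟩ (h.remL ht et hx)
    (h.symm.remR hw ew hu)

theorem bip (ht : t ∈ A) (et : dH G t A = β) (hw : w ∈ B) (ew : dH G w B = β') (hx : x ∈ A)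
    (hu : u ∈ B) (n1 : t ≠ x) (n2 : w ≠ u) (h1 : G.Adj t w) (h2 : G.Adj t u) (h3 : G.Adj x w)
    (h4 : G.Adj x u) : False :=
  h.no t ht x hx w hw u hu ⟨n1, n2, .inl ⟨h1, h2, h3, h4⟩⟩ (h.remL ht et hx)
    (h.symm.remL hw ew hu)

theorem com (ht : t ∈ A) (et : dH G t A = β) (hw : w ∈ B) (ew : dH G w B = β')
    (n : ¬G.Adj t w) : ∃ x ∈ A, G.Adj t x ∧ G.Adj w x := by
  have a1 := h.inn ht
  have a2 := h.symm.out hw
  have a3 := l22a_er0 (G := G) (a := w) (b := t) A fun k => n k.symm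
  have a4 := dG_erase_self (G := G) t A
  have a5 := card_erase_of_mem ht
  have := h.cA
  have := h.le
  obtain ⟨x, hx, g⟩ := exists_common (G := G) (a := t) (b := w) (S := A.erase t) (by omega)
  exact ⟨x, mem_of_mem_erase hx, g⟩

/-- tight vertices on different sides are adjacent -/
theorem tt (ht : t ∈ A) (et : dH G t A = β) (hw : w ∈ B) (ew : dH G w B = β') : G.Adj t w := by
  by_contra n
  obtain ⟨x, hx, g1, g2⟩ := h.com ht et hw ew n
  obtain ⟨u, hu, g3, g4⟩ := h.symm.com hw ew ht et fun k => n k.symm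
  exact h.cyc ht et hw ew hx hu g1 g2.symm g3 g4.symm

theorem far (ht : t ∈ A) (et : dH G t A = β) (hw : w ∈ B) (ew : dH G w B = β')
    (un : ∀ v ∈ B, dH G v B = β' → v = w) (hx : x ∈ A) (tx : G.Adj t x) (hz : z ∈ B)
    (zw : z ≠ w) : ¬G.Adj x z := by
  intro xz
  by_cases k : G.Adj z w
  · exact h.no t ht x hx w hw z hz ⟨tx.ne, zw.symm, .inr ⟨tx, xz, k, (h.tt ht et hw ew).symm⟩⟩
      (h.remL ht et hx) (h.symm.remL hw ew hz)
  have a1 := h.symm.inn hz
  have a2 := h.hB z hz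
  have a3 : dH G z B ≠ β' := fun e => zw (un z hz e)
  have a4 := l22a_er0 (G := G) B k
  have a5 := l22a_er1 (G := G) t w B
  have a6 := h.out ht
  have a7 := card_erase_of_mem hw
  have := h.cB
  have := h.le'
  obtain ⟨u, hu, g1, g2⟩ := exists_common (G := G) (a := z) (b := t) (S := B.erase w) (by omega)
  have hu' := mem_of_mem_erase hu
  exact h.no t ht x hx u hu' z hz ⟨tx.ne, g1.ne.symm, .inr ⟨tx, xz, g1, g2.symm⟩⟩
    (h.remL ht et hx) (l22a_rem h.hB hu' hz fun v hv _ _ e => .inr (by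
      rw [un v hv e]; exact fun g => k g.symm))

theorem low (ht : t ∈ A) (et : dH G t A = β) (hw : w ∈ B) (ew : dH G w B = β')
    (un : ∀ v ∈ B, dH G v B = β' → v = w) (hx : x ∈ A) (tx : G.Adj t x) :
    α' ≤ β ∧ (¬G.Adj x w → α' + 1 ≤ β) := by
  have a0 : dG G x (B.erase w) = 0 := dG_eq_zero.2 fun z hz =>
    h.far ht et hw ew un hx tx (mem_of_mem_erase hz) (ne_of_mem_erase hz)
  have a1 := h.out hx
  have a2 := l22a_er1 (G := G) x w B
  refine ⟨by omega, fun n => ?_⟩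
  have a3 := l22a_er0 (G := G) B n
  omega

theorem nb (ht : t ∈ A) : ∃ x ∈ A, G.Adj t x := by
  have := h.inn ht
  have := h.hA t ht
  exact exists_adj (by omega)

theorem both (ht : t ∈ A) (et : dH G t A = β) (hw : w ∈ B) (ew : dH G w B = β')
    (un : ∀ v ∈ B, dH G v B = β' → v = w) (un' : ∀ v ∈ A, dH G v A = β → v = t) : False := by
  obtain ⟨x, hx, tx⟩ := h.nb ht
  obtain ⟨y, hy, wy⟩ := h.symm.nb hw
  obtain ⟨a1, a2⟩ := h.low ht et hw ew un hx tx
  obtain ⟨a3, a4⟩ := h.symm.low hw ew ht et un' hy wy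
  have := h.le
  have := h.le'
  exact h.cyc ht et hw ew hx hy tx (by_contra fun n => by have := a2 n; omega) wy
    (by_contra fun n => by have := a4 n; omega)

theorem four (ht : t ∈ A) (et : dH G t A = β) (ht' : t' ∈ A) (et' : dH G t' A = β) (n : t ≠ t')
    (hw : w ∈ B) (ew : dH G w B = β') (un : ∀ v ∈ B, dH G v B = β' → v = w) (hu : u ∈ B)
    (wu : G.Adj w u) (tu : G.Adj t' u) : False := by
  have nc : ∀ x ∈ A, G.Adj t' x → ¬G.Adj x w := fun x hx g1 g2 =>
    h.cyc ht' et' hw ew hx hu g1 g2 wu tu.symm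
  have tw := h.tt ht' et' hw ew
  obtain ⟨x, hx, tx⟩ := h.nb ht'
  have a1 := (h.low ht' et' hw ew un hx tx).2 (nc x hx tx)
  have hle := h.le
  have cA := h.cA
  have a2 : ∀ y ∈ A.erase t', y ∈ A ∧ y ≠ u ∧ ¬G.Adj u y := by
    intro y hy
    obtain ⟨y1, y2⟩ := mem_erase.1 hy
    refine ⟨y2, fun e => Finset.disjoint_left.1 h.hd y2 (e ▸ hu), fun g => ?_⟩
    by_cases k1 : G.Adj y w
    · exact h.bip ht' et' hw ew y2 hu y1.symm wu.ne tw tu k1 g.symm
    by_cases k2 : G.Adj t' y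
    · exact h.far ht' et' hw ew un y2 k2 hu wu.ne.symm g.symm
    have yt : y ≠ t := fun e => k1 (e ▸ h.tt ht et hw ew)
    have b1 := h.inn ht'
    have b2 := h.symm.out hw
    have b3 := dG_erase_self (G := G) t' A
    have b4 := l22a_er0 (G := G) (A.erase t') (h.iA t' ht' t ht et' et)
    have b5 := l22a_er0 (G := G) ((A.erase t').erase t) k2
    have b6 := l22a_er1 (G := G) w t' A
    have b7 := l22a_er1 (G := G) w t (A.erase t')
    have b8 := l22a_er0 (G := G) (a := w) (b := y) ((A.erase t').erase t) fun k => k1 k.symm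
    have c1 := card_erase_of_mem ht'
    have c2 := card_erase_of_mem (mem_erase.2 ⟨n, ht⟩)
    have c3 := card_erase_of_mem (mem_erase.2 ⟨yt, hy⟩)
    have := h.two
    obtain ⟨v, hv, g1, g2⟩ := exists_common (G := G) (a := t') (b := w)
      (S := ((A.erase t').erase t).erase y) (by omega)
    exact nc v (mem_of_mem_erase (mem_of_mem_erase (mem_of_mem_erase hv))) g1 g2.symm
  have a3 := le_dH a2
  have a4 := h.deg u (.inr hu)
  have a5 := card_erase_of_mem ht'
  have := h.le'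
  omega

theorem aux (ht : t ∈ A) (et : dH G t A = β) (hw : w ∈ B) (ew : dH G w B = β')
    (un : ∀ v ∈ B, dH G v B = β' → v = w) : False := by
  by_cases un' : ∀ v ∈ A, dH G v A = β → v = t
  · exact h.both ht et hw ew un un'
  push Not at un'
  obtain ⟨t', ht', et', n⟩ := un'
  obtain ⟨M, m1, m2⟩ := exists_non (G := G) w B
  have key : ∀ s ∈ A, dH G s A = β → (∀ u ∈ B, G.Adj w u → ¬G.Adj s u) → α' ≤ dG G s M := by
    intro s hs es g
    have a1 := h.out hs
    have a2 := l22a_er1 (G := G) s w B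
    obtain ⟨N, n1, n2⟩ := exists_nbhd (G := G) s M
    have a3 : dG G s (B.erase w) ≤ N.card := dG_le fun b hb k => (n2 b).2 ⟨(m2 b).2
      ⟨mem_of_mem_erase hb, ne_of_mem_erase hb, fun k' => g b (mem_of_mem_erase hb) k' k⟩, k⟩
    omega
  have a1 := key t ht et fun u hu g1 g2 => h.four ht' et' ht et n hw ew un hu g1 g2
  have a2 := key t' ht' et' fun u hu g1 g2 => h.four ht et ht' et' n.symm hw ew un hu g1 g2
  have := h.le'
  have := h.two'
  obtain ⟨u, hu, g1, g2⟩ := exists_common (G := G) (a := t) (b := t') (S := M) (by omega)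
  obtain ⟨u1, u2, -⟩ := (m2 u).1 hu
  exact h.bip ht et hw ew ht' u1 n.symm u2.symm (h.tt ht et hw ew) g1 (h.tt ht' et' hw ew) g2

end L22aD

theorem l22a {A B : Finset V} {α β α' β' : ℕ} (hle : β ≤ α) (hle' : β' ≤ α') (h2 : 2 ≤ α)
    (h2' : 2 ≤ α') (hd : Disjoint A B) (cA : A.card = α + β + 2) (cB : B.card = α' + β' + 2)
    (hA : Hap G A (β + 1)) (hB : Hap G B (β' + 1))
    (deg : ∀ v, v ∈ A ∨ v ∈ B → dH G v A + dH G v B ≤ β + β' + 1)
    (iA : ∀ y ∈ A, ∀ z ∈ A, dH G y A = β → dH G z A = β → ¬G.Adj y z)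
    (iB : ∀ y ∈ B, ∀ z ∈ B, dH G y B = β' → dH G z B = β' → ¬G.Adj y z)
    {t w : V} (ht : t ∈ A) (et : dH G t A = β) (hw : w ∈ B) (ew : dH G w B = β') :
    ∃ x ∈ A, ∃ x' ∈ A, ∃ u ∈ B, ∃ u' ∈ B, Lk G x x' u u' ∧ Hap G (A \ {x, x'}) β ∧
      Hap G (B \ {u, u'}) β' := by
  by_contra no
  have h : L22aD G A B α β α' β' := ⟨hle, hle', h2, h2', hd, cA, cB, hA, hB, deg, iA, iB,
    fun x hx x' hx' u hu u' hu' k g g' => no ⟨x, hx, x', hx', u, hu, u', hu', k, g, g'⟩⟩
  by_cases un : ∀ v ∈ B, dH G v B = β' → v = w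
  · exact h.aux ht et hw ew un
  by_cases un' : ∀ v ∈ A, dH G v A = β → v = t
  · exact h.symm.aux hw ew ht et un'
  push Not at un un'
  obtain ⟨w', hw', ew', n⟩ := un
  obtain ⟨t', ht', et', n'⟩ := un'
  exact h.bip ht et hw ew ht' hw' n'.symm n.symm (h.tt ht et hw ew) (h.tt ht et hw' ew')
    (h.tt ht' et' hw ew) (h.tt ht' et' hw' ew')

end Pool.Agent.Lib.MP_af3016_co
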