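import Pool.Agent.Lib.MP_af3016_co.F.Defs

/-! Two vertices on each side: no cycle of length four across the cut. -/

set_option autoImplicit false
set_option linter.unusedSectionVars false

namespace Pool.Agent.Lib.MP_af3016_co

open Finset SimpleGraph

variable {V : Type} [DecidableEq V] {G : SimpleGraph V}

theorem l22b_cnt {A : Finset V} {p y : V} (h : ∀ b ∈ A, G.Adj p b → ¬G.Adj y b) :
    dG G p A ≤ dH G y A + 1 ∧ (¬G.Adj p y → dG G p A ≤ dH G y A) := by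
  obtain ⟨M, h1, h2⟩ := exists_non (G := G) y A
  rw [← h1]
  refine ⟨(dG_le (R := insert y M) fun b hb g => ?_).trans (card_insert_le _ _),
    fun k => dG_le fun b hb g => (h2 b).2 ⟨hb, fun e => k (e ▸ g), h b hb g⟩⟩
  by_cases e : b = y
  · exact mem_insert.2 (.inl e)
  · exact mem_insert_of_mem ((h2 b).2 ⟨hb, e, h b hb g⟩)

theorem l22b {A B : Finset V} {α β α' β' : ℕ} (hle : β ≤ α) (hle' : β' ≤ α') (h2 : 2 ≤ α)
    (h2' : 2 ≤ α') (hD : β' ≤ α) (hd : Disjoint A B) (cA : A.card = α + β + 2)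
    (cB : B.card = α' + β' + 2) (hA : Hap G A (β + 1)) (hB : Hap G B β')
    (deg : ∀ v, v ∈ A ∨ v ∈ B → dH G v A + dH G v B ≤ β + β' + 1)
    (no : ∀ x ∈ A, ∀ x' ∈ A, ∀ u ∈ B, ∀ u' ∈ B, ¬Lk G x x' u u') :
    Clq G B ∧ 6 ≤ B.card ∧ ∃ y ∈ A, ∃ y' ∈ A, ∃ u1 ∈ B, ∃ u2 ∈ B, ∃ u3 ∈ B, ∃ u4 ∈ B, y ≠ y' ∧
      u1 ≠ u2 ∧ u3 ≠ u4 ∧ u1 ≠ u3 ∧ u1 ≠ u4 ∧ u2 ≠ u3 ∧ u2 ≠ u4 ∧
      G.Adj y u1 ∧ G.Adj y u2 ∧ G.Adj y' u3 ∧ G.Adj y' u4 := by
  have K : ∀ x ∈ A, ∀ x' ∈ A, ∀ u ∈ B, ∀ u' ∈ B, G.Adj x u → G.Adj x u' → G.Adj x' u →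
      G.Adj x' u' → x ≠ x' → u = u' := fun x hx x' hx' u hu u' hu' a b c d e =>
    not_not.1 fun f => no x hx x' hx' u hu u' hu' ⟨e, f, .inl ⟨a, b, c, d⟩⟩
  have R : ∀ x ∈ A, ∀ x' ∈ A, ∀ u ∈ B, ∀ u' ∈ B, G.Adj x x' → G.Adj x' u' → G.Adj u' u →
      ¬G.Adj x u := fun x hx x' hx' u hu u' hu' a b c d =>
    no x hx x' hx' u hu u' hu' ⟨a.ne, c.ne', .inr ⟨a, b, c, d.symm⟩⟩
  obtain ⟨D, rfl⟩ := Nat.exists_eq_add_of_le hD
  have F1 : ∀ a ∈ A, α' + 1 + dH G a A ≤ dG G a B + β ∧ 0 < dG G a A := fun a ha => by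
    have := deg a (.inl ha)
    have := hA a ha
    have := dG_add_dH_in (G := G) ha
    have := dG_add_dH_out (G := G) (Finset.disjoint_left.1 hd ha)
    omega
  have F2 : ∀ u ∈ B, D + 1 + dH G u B ≤ dG G u A ∧ 0 < dG G u B := fun u hu => by
    have := deg u (.inr hu)
    have := hB u hu
    have := dG_add_dH_in (G := G) hu
    have := dG_add_dH_out (G := G) (Finset.disjoint_right.1 hd hu)
    omega
  have F3 : ∀ u ∈ B, ∃ a ∈ A, G.Adj u a := fun u hu => exists_adj (by have := F2 u hu; omega)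
  obtain ⟨y0, hy0, m0⟩ := exists_max_image A (dG G · B) (card_pos.1 (by omega))
  obtain ⟨us, hus, ms⟩ := exists_max_image B (dG G · A) (card_pos.1 (by omega))
  generalize eC : dG G y0 B = C at m0
  -- a vertex of largest cross degree has no neighbour with a cross neighbour
  have I : ∀ y ∈ A, dG G y B = C → ∀ y' ∈ A, G.Adj y y' → ∀ u ∈ B, ¬G.Adj y' u := by
    intro y hy e y' hy' a u hu b
    obtain ⟨u', hu', a'⟩ := exists_adj (F2 us hus).2
    have P : ∀ z ∈ A, G.Adj u' z → _ := fun z hz g => l22b_cnt (A := A) (p := us) (y := z)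
      fun b hb k l => R z hz b hb u' hu' us hus l k.symm a' g.symm
    have c1 := (l22b_cnt (A := B) (p := y) (y := u) fun c hc k l =>
      R y hy y' hy' c hc u hu a b l k).1
    have c2 := (F2 u hu).1
    have c3 := ms u hu
    obtain ⟨y1, hy1, g⟩ := F3 u' hu'
    have c4 := (P y1 hy1 g).1
    have c5 := (F1 y1 hy1).1
    have c6 := m0 y1 hy1
    have all : ∀ z ∈ A, G.Adj u' z → G.Adj us z := fun z hz k => not_not.1 fun l => by
      have := (P z hz k).2 l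
      have := (F1 z hz).1
      have := m0 z hz
      omega
    have uq : ∀ z ∈ A, G.Adj u' z → z = y1 := fun z hz k => not_not.1 fun l =>
      a'.ne (K z hz y1 hy1 us hus u' hu' (all z hz k).symm k.symm (all y1 hy1 g).symm g.symm l)
    have c7 := dG_le (R := {y1}) fun z hz k => mem_singleton.2 (uq z hz k)
    rw [card_singleton] at c7
    have c8 := (F2 u' hu').1
    obtain ⟨x, hx, k⟩ := exists_adj (F1 y1 hy1).2
    obtain ⟨w, hw, l⟩ := exists_adj (G := G) (a := x) (S := B) (by have := (F1 x hx).1; omega)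
    exact R x hx y1 hy1 w hw u' hu' k.symm g.symm (dH_eq_zero.1 (by omega) w hw fun e =>
      k.ne' (uq x hx (e ▸ l.symm))) l
  obtain ⟨E, hE⟩ : ∃ E : Finset V, ∀ a, a ∈ E ↔ a ∈ A ∧ 0 < dG G a B :=
    ⟨A.filter _, fun _ => mem_filter⟩
  have mE : ∀ a ∈ A, ∀ u ∈ B, G.Adj a u → a ∈ E := fun a ha u hu g => (hE a).2 ⟨ha,
    Nat.pos_of_ne_zero fun e => dG_eq_zero.1 e u hu g⟩
  have dE : ∀ u ∈ B, D + 1 + dH G u B ≤ dG G u E := fun u hu => by
    obtain ⟨N, n1, n2⟩ := exists_nbhd (G := G) u E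
    exact (F2 u hu).1.trans (n1 ▸ dG_le fun b hb g => (n2 b).2 ⟨mE b hb u hu g.symm, g⟩)
  have T : B.card * (D + 1) ≤ E.card * C :=
    (card_nsmul_le_sum B (dG G · E) _ fun u hu => le_of_add_le_left (dE u hu)).trans
      ((sum_dG_comm B E).trans_le (sum_le_card_nsmul E _ _ fun a ha => m0 a ((hE a).1 ha).1))
  have C1 : 0 < C := Nat.pos_of_ne_zero fun e => by
    rw [e, cB] at T
    simp at T
  have L : ∀ y ∈ A, dG G y B = C → D = 1 ∧ β = β' + 1 ∧ α' = β' ∧ E.card = C + 1 ∧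
      (∀ u ∈ B, G.Adj y u → dH G u B = 0) ∧ Ind G E := by
    intro y hy e
    have yE : y ∈ E := (hE y).2 ⟨hy, e ▸ C1⟩
    have i : ∀ a ∈ E, ¬G.Adj y a := fun a ha g => by
      obtain ⟨u, hu, k⟩ := exists_adj ((hE a).1 ha).2
      exact I y hy e a ((hE a).1 ha).1 g u hu k
    obtain ⟨x, hx, k⟩ := exists_adj (F1 y hy).2
    have c1 := (F1 x hx).1
    rw [dG_eq_zero.2 (I y hy e x hx k)] at c1
    obtain ⟨N, n1, n2⟩ := exists_nbhd (G := G) y B
    have c2 : (E.erase y).card ≤ dH G y A := le_dH fun b hb =>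
      ⟨((hE b).1 (mem_of_mem_erase hb)).1, ne_of_mem_erase hb, i b (mem_of_mem_erase hb)⟩
    have c3 := (F1 y hy).1
    have c4 := card_erase_add_one yE
    have d1 : ∀ u ∈ N, D + dH G u B ≤ dG G u (E.erase y) := fun u hu => by
      have h1 := dG_sdiff (G := G) (a := u) (singleton_subset_iff.2 yE)
      have h2 := dG_le_card (G := G) u {y}
      have h3 := dE u ((n2 u).1 hu).1
      rw [sdiff_singleton_eq_erase] at h1
      rw [card_singleton] at h2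
      omega
    have d2 : ∀ a ∈ E.erase y, dG G a N ≤ 1 := fun a ha => by
      obtain ⟨M, m1, m2⟩ := exists_nbhd (G := G) a N
      rw [← m1, card_le_one]
      intro u hu u' hu'
      rw [m2, n2] at hu hu'
      exact K a ((hE a).1 (mem_of_mem_erase ha)).1 y hy u hu.1.1 u' hu'.1.1 hu.2 hu'.2 hu.1.2 hu'.1.2
        (ne_of_mem_erase ha)
    have s1 := card_nsmul_le_sum N (dG G · (E.erase y)) D fun u hu => le_of_add_le_left (d1 u hu)
    have s2 := sum_dG_comm (G := G) N (E.erase y)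
    have s3 := sum_le_card_nsmul (E.erase y) (dG G · N) 1 d2
    rw [smul_eq_mul, n1, e] at s1
    rw [smul_eq_mul, mul_one] at s3
    obtain rfl : D = 1 := by
      by_contra hne
      obtain ⟨d, rfl⟩ : ∃ d, D = d + 2 := ⟨D - 2, by omega⟩
      obtain ⟨c, rfl⟩ : ∃ c, C = c + 1 := ⟨C - 1, by omega⟩
      obtain rfl : c = 0 := by
        by_contra hc
        obtain ⟨c, rfl⟩ : ∃ c', c = c' + 1 := ⟨c - 1, by omega⟩
        have : (c + 1 + 1) * (d + 2) = c * d + 2 * c + 2 * d + 4 := by ring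
        omega
      have : 2 * (d + 2 + 1) ≤ B.card * (d + 2 + 1) := Nat.mul_le_mul_right _ (by omega)
      omega
    have e1 := (sum_eq_sum_iff_of_le fun u hu => le_of_add_le_left (d1 u hu)).1
      (by rw [sum_const, smul_eq_mul, n1]; omega)
    have e2 := (sum_eq_sum_iff_of_le d2).1 (by rw [sum_const, smul_eq_mul]; omega)
    have z : ∀ u ∈ N, dH G u B = 0 := fun u hu => by
      have := d1 u hu
      have := e1 u hu
      omega
    refine ⟨rfl, by omega, by omega, by omega, fun u hu g => z u ((n2 u).2 ⟨hu, g⟩),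
      fun a ha a' ha' g => ?_⟩
    have p : a ∈ E.erase y := mem_erase.2 ⟨fun e => i a' ha' (e ▸ g), ha⟩
    have p' : a' ∈ E.erase y := mem_erase.2 ⟨fun e => i a ha (e ▸ g.symm), ha'⟩
    obtain ⟨u, hu, l⟩ := exists_adj (e2 a p).ge
    obtain ⟨u', hu', l'⟩ := exists_adj (e2 a' p').ge
    refine R a ((hE a).1 ha).1 a' ((hE a').1 ha').1 u ((n2 u).1 hu).1 u' ((n2 u').1 hu').1 g l'
      (dH_eq_zero.1 (z u' hu') u ((n2 u).1 hu).1 ?_) l
    rintro rfl
    have := le_dG (G := G) (a := u) (S := E.erase y) (R := {a, a'})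
      (forall_mem_insert _ _ _ |>.2 ⟨⟨p, l.symm⟩, fun _ h => mem_singleton.1 h ▸ ⟨p', l'.symm⟩⟩)
    rw [card_pair g.ne, ← e1 u hu] at this
    omega
  obtain ⟨rfl, e1, e2, e3, -, i⟩ := L y0 hy0 eC
  have all : ∀ y ∈ E, dG G y B = C := fun y hy => by
    have c1 : (E.erase y).card ≤ dH G y A := le_dH fun b hb => ⟨((hE b).1 (mem_of_mem_erase hb)).1,
      ne_of_mem_erase hb, i y hy b (mem_of_mem_erase hb)⟩
    have := card_erase_add_one hy
    have := (F1 y ((hE y).1 hy).1).1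
    have := m0 y ((hE y).1 hy).1
    omega
  refine ⟨fun u hu => ?_, by omega, ?_⟩
  · obtain ⟨a, ha, g⟩ := F3 u hu
    exact fun b hb e => dH_eq_zero.1 ((L a ha (all a (mE a ha u hu g.symm))).2.2.2.2.1 u hu g.symm)
      b hb e.symm
  have C3 : 3 ≤ C := by
    by_contra hc
    have : E.card * C ≤ 3 * 2 := Nat.mul_le_mul (by omega) (by omega)
    omega
  obtain ⟨y, hy, y', hy', e⟩ := one_lt_card.1 (show 1 < E.card by omega)
  obtain ⟨N, n1, n2⟩ := exists_nbhd (G := G) y B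
  obtain ⟨M, m1, m2⟩ := exists_nbhd (G := G) y' B
  have c1 : (M ∩ N).card ≤ 1 := card_le_one.2 fun u hu u' hu' => by
    rw [mem_inter, m2, n2] at hu hu'
    exact K y ((hE y).1 hy).1 y' ((hE y').1 hy').1 u hu.1.1 u' hu'.1.1 hu.2.2 hu'.2.2 hu.1.2 hu'.1.2 e
  have c2 := card_sdiff_add_card_inter M N
  rw [all y hy] at n1
  rw [all y' hy'] at m1
  obtain ⟨u1, g1, u2, g2, k1⟩ := one_lt_card.1 (show 1 < N.card by omega)
  obtain ⟨u3, g3, u4, g4, k2⟩ := one_lt_card.1 (show 1 < (M \ N).card by omega)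
  rw [mem_sdiff, m2] at g3 g4
  exact ⟨y, ((hE y).1 hy).1, y', ((hE y').1 hy').1, u1, ((n2 _).1 g1).1, u2, ((n2 _).1 g2).1, u3,
    g3.1.1, u4, g4.1.1, e, k1, k2, fun e => g3.2 (e ▸ g1), fun e => g4.2 (e ▸ g1),
    fun e => g3.2 (e ▸ g2), fun e => g4.2 (e ▸ g2), ((n2 _).1 g1).2, ((n2 _).1 g2).2, g3.1.2, g4.1.2⟩

end Pool.Agent.Lib.MP_af3016_co
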