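import Pool.Agent.Lib.MP_af3016_co.F.Cliq
import Pool.Agent.Lib.MP_af3016_co.F.L22a
import Pool.Agent.Lib.MP_af3016_co.F.L22b

/-! A cycle of length four with two vertices on each side. -/

set_option autoImplicit false
set_option linter.unusedSectionVars false

namespace Pool.Agent.Lib.MP_af3016_co

open Finset SimpleGraph

variable {V : Type} [DecidableEq V] {G : SimpleGraph V}

theorem l22_link {W A B : Finset V} {I J : Multiset ℕ} {α β α' β' : ℕ} (sI : Sq G W I α β)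
    (sJ : Sq G W J α' β') (hW : ∀ v, v ∈ W ↔ v ∈ A ∨ v ∈ B) (hd : Disjoint A B)
    (cA : A.card = α + β + 2) (cB : B.card = α' + β' + 2) {x x' u u' : V} (hx : x ∈ A)
    (hx' : x' ∈ A) (hu : u ∈ B) (hu' : u' ∈ B) (h : Lk G x x' u u') (h1 : Hap G (A \ {x, x'}) β)
    (h2 : Hap G (B \ {u, u'}) β') : Til G W (4 ::ₘ (I + J)) := by
  have hAB := Finset.disjoint_left.1 hd
  have s1 : ({x, x'} : Finset V) ⊆ A := insert_subset hx (singleton_subset_iff.2 hx')
  have s2 : ({u, u'} : Finset V) ⊆ B := insert_subset hu (singleton_subset_iff.2 hu')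
  have c1 := card_sdiff_add_card_eq_card s1
  have c2 := card_sdiff_add_card_eq_card s2
  rw [card_pair h.1] at c1
  rw [card_pair h.2.1] at c2
  have t1 := sI.orc _ (fun v hv => (hW v).2 (Or.inl (mem_sdiff.1 hv).1)) (by omega) h1
  have t2 := sJ.orc _ (fun v hv => (hW v).2 (Or.inr (mem_sdiff.1 hv).1)) (by omega) h2
  obtain ⟨X, k1, k2, k3⟩ : ∃ X, HC G X ∧ X.card = 4 ∧
      ∀ v, v ∈ X ↔ v = x ∨ v = x' ∨ v = u ∨ v = u' := by
    rcases h.2.2 with g | g
    · obtain ⟨k1, k2⟩ := hc_quad g.1 g.2.2.1.symm g.2.2.2 g.2.1.symm h.1 h.2.1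
      exact ⟨_, k1, k2, fun v => by simp only [mem_insert, mem_singleton]; tauto⟩
    · obtain ⟨k1, k2⟩ := hc_quad g.1 g.2.1 g.2.2.1 g.2.2.2 (fun e => hAB hx (e ▸ hu'))
        fun e => hAB hx' (e ▸ hu)
      exact ⟨_, k1, k2, fun v => by simp only [mem_insert, mem_singleton]; tauto⟩
  refine Til.three k1 k2 t1 t2 (hd.mono sdiff_subset sdiff_subset) ?_ ?_ fun v => ?_
  · rw [Finset.disjoint_left]
    intro v hv hv'
    simp only [mem_sdiff, mem_insert, mem_singleton, not_or] at hv'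
    rcases (k3 v).1 hv with rfl | rfl | rfl | rfl
    exacts [hv'.2.1 rfl, hv'.2.2 rfl, hAB hv'.1 hu, hAB hv'.1 hu']
  · rw [Finset.disjoint_left]
    intro v hv hv'
    simp only [mem_sdiff, mem_insert, mem_singleton, not_or] at hv'
    rcases (k3 v).1 hv with rfl | rfl | rfl | rfl
    exacts [hAB hx hv'.1, hAB hx' hv'.1, hv'.2.1 rfl, hv'.2.2 rfl]
  · rw [hW, k3]
    simp only [mem_sdiff, mem_insert, mem_singleton]
    constructor
    · tauto
    · rintro ((rfl | rfl | rfl | rfl) | g | g)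
      exacts [Or.inl hx, Or.inl hx', Or.inr hu, Or.inr hu', Or.inl g.1, Or.inr g.1]

/-- the second side has no tight vertex -/
theorem l22_free {W A B : Finset V} {I J : Multiset ℕ} {α β α' β' : ℕ} (sI : Sq G W I α β)
    (sJ : Sq G W J α' β') (hW : ∀ v, v ∈ W ↔ v ∈ A ∨ v ∈ B) (hd : Disjoint A B)
    (cA : A.card = α + β + 2) (cB : B.card = α' + β' + 2) (hA : Hap G A (β + 1))
    (hB : Hap G B β') (deg : ∀ v, v ∈ A ∨ v ∈ B → dH G v A + dH G v B ≤ β + β' + 1)
    (iA : ∀ y ∈ A, ∀ z ∈ A, dH G y A = β → dH G z A = β → ¬G.Adj y z)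
    (hD : (∃ t ∈ A, dH G t A = β) ∨ β' ≤ β) : Til G W (4 ::ₘ (I + J)) := by
  by_contra hn
  have hAB := Finset.disjoint_left.1 hd
  have le1 := sI.le
  have le2 := sJ.le
  have cross : ∀ t ∈ A, dH G t A = β → ∀ x ∈ A, G.Adj t x → ∀ u ∈ B, ¬G.Adj x u := by
    intro t ht et x hx htx u hu hxu
    have g1 := dG_add_dH_out (G := G) (hAB ht)
    have g2 := dG_add_dH_in (G := G) hu
    have g3 := deg t (Or.inl ht)
    have g4 := hB u hu
    obtain ⟨u', hu', k1, k2⟩ := exists_common (G := G) (a := t) (b := u) (S := B) (by omega)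
    refine hn (l22_link sI sJ hW hd cA cB ht hx hu' hu
      ⟨htx.ne, k2.ne.symm, Or.inr ⟨htx, hxu, k2, k1.symm⟩⟩ ?_ (hB.mono sdiff_subset))
    exact hA.drop (insert_subset ht (singleton_subset_iff.2 hx)) fun v hv _ ev =>
      ⟨t, mem_insert_self _ _, iA v hv t ht ev et⟩
  have rem : ∀ x ∈ A, ∀ x' ∈ A, ∀ u ∈ B, G.Adj x u → Hap G (A \ {x, x'}) β := by
    intro x hx x' hx' u hu hxu
    exact hA.drop (insert_subset hx (singleton_subset_iff.2 hx')) fun v hv _ ev =>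
      ⟨x, mem_insert_self _ _, fun g => cross v hv ev x hx g u hu hxu⟩
  have hD' : β' ≤ α := by
    rcases hD with ⟨t, ht, et⟩ | g
    · have g1 := dG_add_dH_in (G := G) ht
      obtain ⟨x, hx, htx⟩ := exists_adj (G := G) (a := t) (S := A) (by omega)
      have g2 := dG_eq_zero.2 (cross t ht et x hx htx)
      have g3 := dG_add_dH_out (G := G) (hAB hx)
      have g4 := deg x (Or.inl hx)
      omega
    · omega
  obtain ⟨hK, h6, y, hy, y', hy', u1, m1, u2, m2, u3, m3, u4, m4, n0, n12, n34, n13, n14, n23, n24,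
    a1, a2, a3, a4⟩ := l22b le1 le2 sI.two sJ.two hD' hd cA cB hA hB deg
      fun x hx x' hx' u hu u' hu' g => hn (l22_link sI sJ hW hd cA cB hx hx' hu hu' g
        (rem x hx x' hx' u hu (g.2.2.elim (fun k => k.1) fun k => k.2.2.2.symm))
        (hB.mono sdiff_subset))
  obtain ⟨v, hv, hv'⟩ : ∃ v ∈ B, v ∉ ({u1, u2, u3, u4} : Finset V) :=
    exists_mem_notMem_of_card_lt_card (lt_of_le_of_lt card_le_four (by omega))
  simp only [mem_insert, mem_singleton, not_or] at hv'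
  obtain ⟨k1, k2⟩ := hc_quad a1 (hK u1 m1 v hv (Ne.symm hv'.1)) (hK v hv u2 m2 hv'.2.1) a2.symm
    (fun e => hAB hy (e ▸ hv)) n12
  have s1 : ({y, y'} : Finset V) ⊆ A := insert_subset hy (singleton_subset_iff.2 hy')
  have s2 : ({u1, v, u2} : Finset V) ⊆ B :=
    insert_subset m1 (insert_subset hv (singleton_subset_iff.2 m2))
  have c1 := card_sdiff_add_card_eq_card s1
  have c2 := card_sdiff_add_card_eq_card s2
  rw [card_pair n0] at c1
  rw [card_eq_three.2 ⟨u1, v, u2, Ne.symm hv'.1, n12, hv'.2.1, rfl⟩] at c2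
  have t1 := sI.orc _ (fun v hv => (hW v).2 (Or.inl (mem_sdiff.1 hv).1)) (by omega)
    (rem y hy y' hy' u1 m1 a1)
  have t2 : Til G (insert y' (B \ {u1, v, u2})) J :=
    til_clq_ear sJ.three (hK.mono fun z hz => (mem_sdiff.1 hz).1)
      (fun g => hAB hy' (mem_sdiff.1 g).1)
      (mem_sdiff.2 ⟨m3, by simp [n13.symm, n23.symm, Ne.symm hv'.2.2.1]⟩)
      (mem_sdiff.2 ⟨m4, by simp [n14.symm, n24.symm, Ne.symm hv'.2.2.2]⟩) n34 a3 a4
      (by rw [sJ.sum]; omega)
  refine hn (Til.three k1 k2 t1 t2 ?_ ?_ ?_ fun z => ?_)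
  · rw [Finset.disjoint_left]
    intro z hz hz'
    simp only [mem_sdiff, mem_insert, mem_singleton, not_or] at hz hz'
    rcases hz' with rfl | g
    exacts [hz.2.2 rfl, hAB hz.1 g.1]
  · rw [Finset.disjoint_left]
    intro z hz hz'
    simp only [mem_sdiff, mem_insert, mem_singleton, not_or] at hz hz'
    rcases hz with rfl | rfl | rfl | rfl
    exacts [hz'.2.1 rfl, hAB hz'.1 m1, hAB hz'.1 hv, hAB hz'.1 m2]
  · rw [Finset.disjoint_left]
    intro z hz hz'
    simp only [mem_sdiff, mem_insert, mem_singleton, not_or] at hz hz'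
    rcases hz' with rfl | g
    · rcases hz with rfl | rfl | rfl | rfl
      exacts [n0 rfl, hAB hy' m1, hAB hy' hv, hAB hy' m2]
    · rcases hz with rfl | rfl | rfl | rfl
      exacts [hAB hy g.1, g.2.1 rfl, g.2.2.1 rfl, g.2.2.2 rfl]
  · rw [hW]
    simp only [mem_sdiff, mem_insert, mem_singleton]
    constructor
    · tauto
    · rintro ((rfl | rfl | rfl | rfl) | g | rfl | g)
      exacts [Or.inl hy, Or.inr m1, Or.inr hv, Or.inr m2, Or.inl g.1, Or.inl hy', Or.inr g.1]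

theorem l22 {W A B : Finset V} {I J : Multiset ℕ} {α β α' β' : ℕ} (sI : Sq G W I α β)
    (sJ : Sq G W J α' β') (hW : ∀ v, v ∈ W ↔ v ∈ A ∨ v ∈ B) (hd : Disjoint A B)
    (cA : A.card = α + β + 2) (cB : B.card = α' + β' + 2) (hA : Hap G A (β + 1))
    (hB : Hap G B (β' + 1)) (deg : ∀ v ∈ W, dH G v W ≤ β + β' + 1)
    (iA : ∀ y ∈ A, ∀ z ∈ A, dH G y A = β → dH G z A = β → ¬G.Adj y z)
    (iB : ∀ y ∈ B, ∀ z ∈ B, dH G y B = β' → dH G z B = β' → ¬G.Adj y z) :
    Til G W (4 ::ₘ (I + J)) := by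
  have eW : W = A ∪ B := by
    ext v
    rw [hW, mem_union]
  have deg' : ∀ v, v ∈ A ∨ v ∈ B → dH G v A + dH G v B ≤ β + β' + 1 := by
    intro v hv
    rw [← dH_union hd, ← eW]
    exact deg v ((hW v).2 hv)
  have fA : (¬∃ t ∈ A, dH G t A = β) → Hap G A β := fun g v hv => by
    have := hA v hv
    have : dH G v A ≠ β := fun e => g ⟨v, hv, e⟩
    omega
  have fB : (¬∃ t ∈ B, dH G t B = β') → Hap G B β' := fun g v hv => by
    have := hB v hv
    have : dH G v B ≠ β' := fun e => g ⟨v, hv, e⟩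
    omega
  have mir : Hap G A β → (∃ t ∈ B, dH G t B = β') ∨ β ≤ β' → Til G W (4 ::ₘ (I + J)) := by
    intro g1 g2
    rw [add_comm I J]
    exact l22_free sJ sI (fun v => (hW v).trans or_comm) hd.symm cB cA hB g1
      (fun v hv => by have := deg' v hv.symm; omega) iB g2
  by_cases g1 : ∃ t ∈ A, dH G t A = β <;> by_cases g2 : ∃ t ∈ B, dH G t B = β'
  · obtain ⟨t, ht, et⟩ := g1
    obtain ⟨w, hw, ew⟩ := g2
    obtain ⟨x, hx, x', hx', u, hu, u', hu', k1, k2, k3⟩ :=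
      l22a sI.le sJ.le sI.two sJ.two hd cA cB hA hB deg' iA iB ht et hw ew
    exact l22_link sI sJ hW hd cA cB hx hx' hu hu' k1 k2 k3
  · exact l22_free sI sJ hW hd cA cB hA (fB g2) deg' iA (Or.inl g1)
  · exact mir (fA g1) (Or.inl g2)
  · rcases le_total β' β with g | g
    · exact l22_free sI sJ hW hd cA cB hA (fB g2) deg' iA (Or.inr g)
    · exact mir (fA g1) (Or.inr g)

end Pool.Agent.Lib.MP_af3016_co
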