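import Pool.Agent.Lib.MP_af3016_co.F.Defs

/-! Tilings of cliques and prisms. -/

set_option autoImplicit false
set_option linter.unusedSectionVars false

namespace Pool.Agent.Lib.MP_af3016_co

open Finset SimpleGraph

variable {V : Type} [DecidableEq V] {G : SimpleGraph V}

theorem til_clq {L : Multiset ℕ} (h3 : ∀ x ∈ L, 3 ≤ x) {K : Finset V} (hK : Clq G K)
    (hs : L.sum = K.card) : Til G K L := by
  induction L using Multiset.induction_on generalizing K with
  | empty =>
    rw [card_eq_zero.1 hs.symm]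
    exact Til.nil
  | cons m M ih =>
    rw [Multiset.sum_cons] at hs
    obtain ⟨X, hX, hc⟩ := exists_subset_card_eq (s := K) (n := m) (by omega)
    exact (ih (fun x hx => h3 x (Multiset.mem_cons_of_mem hx))
      (hK.mono fun _ h => sdiff_subset h) (by rw [card_sdiff_of_subset hX]; omega)).add
      ((hK.mono fun _ h => hX h).hc (hc ▸ h3 m (Multiset.mem_cons_self _ _))) hc disjoint_sdiff
      (union_sdiff_of_subset hX).symm

/-- a clique and one more vertex with two neighbours -/
theorem til_clq_ear {L : Multiset ℕ} (h3 : ∀ x ∈ L, 3 ≤ x) {K : Finset V} {y p q : V}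
    (hK : Clq G K) (hy : y ∉ K) (hp : p ∈ K) (hq : q ∈ K) (hpq : p ≠ q) (h1 : G.Adj y p)
    (h2 : G.Adj y q) (hs : L.sum = K.card + 1) : Til G (insert y K) L := by
  induction L using Multiset.induction_on with
  | empty => simp at hs
  | cons m M _ =>
    rw [Multiset.sum_cons] at hs
    have m3 := h3 m (Multiset.mem_cons_self _ _)
    obtain ⟨X, h4, hX, hc⟩ := exists_subsuperset_card_eq (s := {p, q}) (t := K) (n := m - 1)
      (insert_subset hp (singleton_subset_iff.2 hq)) (by rw [card_pair hpq]; omega) (by omega)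
    have yX : y ∉ X := fun h => hy (hX h)
    refine (til_clq (K := K \ X) (fun x hx => h3 x (Multiset.mem_cons_of_mem hx))
      (hK.mono fun _ h => sdiff_subset h) (by rw [card_sdiff_of_subset hX]; omega)).add
      ((HP.clique _ X p q rfl (hK.mono fun _ h => hX h) (h4 (by simp)) (h4 (by simp)) hpq).close
        hpq yX h1 h2) (by rw [card_insert_of_notMem yX]; omega)
      (disjoint_insert_left.2 ⟨fun h => hy (sdiff_subset h), disjoint_sdiff⟩) ?_
    rw [insert_union, union_sdiff_of_subset hX]

theorem cliq_prism {L : Multiset ℕ} (h3 : ∀ x ∈ L, 3 ≤ x) (he : ∀ x ∈ L, x % 2 = 0)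
    {R P : Finset V} (hd : Disjoint R P) (hR : Clq G R) (hP : Clq G P) (f : V → V)
    (hf : ∀ g ∈ R, f g ∈ P ∧ G.Adj g (f g)) (hi : Set.InjOn f R) {X : Finset V} (hX : X ⊆ R)
    (hs : L.sum = 2 * X.card) : Til G (X ∪ X.image f) L := by
  have im : ∀ {Y : Finset V}, Y ⊆ R → Y.image f ⊆ P := fun h =>
    image_subset_iff.2 fun g hg => (hf g (h hg)).1
  induction L using Multiset.induction_on generalizing X with
  | empty =>
    rw [card_eq_zero.1 (show X.card = 0 by rw [Multiset.sum_zero] at hs; omega)]
    exact Til.nil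
  | cons m M ih =>
    rw [Multiset.sum_cons] at hs
    have m3 := h3 m (Multiset.mem_cons_self _ _)
    have m2 := he m (Multiset.mem_cons_self _ _)
    obtain ⟨Y, hY, hc⟩ := exists_subset_card_eq (s := X) (n := m / 2) (by omega)
    have YR := hY.trans hX
    have ZR : X \ Y ⊆ R := sdiff_subset.trans hX
    have d1 : Disjoint Y (Y.image f) := hd.mono YR (im YR)
    have c1 : (Y ∪ Y.image f).card = m := by
      rw [card_union_of_disjoint d1, card_image_of_injOn (hi.mono YR)]
      omega
    obtain ⟨a, ha, b, hb, hab⟩ := one_lt_card.1 (show 1 < Y.card by omega)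
    refine (ih (fun x hx => h3 x (Multiset.mem_cons_of_mem hx))
      (fun x hx => he x (Multiset.mem_cons_of_mem hx)) ZR
      (by rw [card_sdiff_of_subset hY]; omega)).add
      (((HP.clique _ Y a b rfl (hR.mono fun _ h => YR h) ha hb hab).join
        (HP.clique _ (Y.image f) (f b) (f a) rfl (hP.mono fun _ h => im YR h)
          (mem_image_of_mem f hb) (mem_image_of_mem f ha) fun e => hab (hi (YR hb) (YR ha) e).symm)
        (Finset.disjoint_left.1 d1) (hf b (YR hb)).2 fun _ => mem_union).cycle
        (hf a (YR ha)).2.symm (by omega)) c1 ?_ ?_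
    · refine disjoint_union_left.2 ⟨disjoint_union_right.2 ⟨disjoint_sdiff, hd.mono YR (im ZR)⟩,
        disjoint_union_right.2 ⟨hd.symm.mono (im YR) ZR, Finset.disjoint_left.2 fun v h1 h2 => ?_⟩⟩
      obtain ⟨g, hg, rfl⟩ := mem_image.1 h1
      obtain ⟨g', hg', e⟩ := mem_image.1 h2
      exact (mem_sdiff.1 hg').2 (hi (ZR hg') (YR hg) e ▸ hg)
    · rw [union_union_union_comm, ← image_union, union_sdiff_of_subset hY]

theorem til_prism {L : Multiset ℕ} (h3 : ∀ x ∈ L, 3 ≤ x) (he : ∀ x ∈ L, x % 2 = 0)
    {R P : Finset V} (hd : Disjoint R P) (h : Pr G R P) (hs : L.sum = R.card + P.card) :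
    Til G (R ∪ P) L := by
  choose! f f1 f2 using h.ex
  have hi : Set.InjOn f R := fun g hg g' hg' e => by
    by_contra ne
    have := le_dG (G := G) (a := f g) (S := R) (R := {g, g'}) fun b hb => by
      rcases mem_insert.1 hb with rfl | hb
      · exact ⟨hg, (f2 _ hg).symm⟩
      · rw [mem_singleton.1 hb]
        exact ⟨hg', e ▸ (f2 _ hg').symm⟩
    have := h.one _ (f1 g hg)
    rw [card_pair ne] at *
    omega
  have e : R.image f = P := eq_of_subset_of_card_le (image_subset_iff.2 f1)
    (by rw [card_image_of_injOn hi, h.card])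
  rw [← e]
  exact cliq_prism h3 he hd h.cR h.cP f (fun g hg => ⟨f1 g hg, f2 g hg⟩) hi subset_rfl
    (by rw [hs, ← h.card, two_mul])

theorem cliq_tri {X : Finset V} (h : HC G X) (h3 : X.card = 3) : Clq G X := by
  intro a ha b hb hab
  obtain ⟨c, p, h1, h2, h4, h5⟩ := h.del ha
  have e : ({c, p} : Finset V) = X.erase a := eq_of_subset_of_card_le
    (insert_subset h5.left (singleton_subset_iff.2 h5.right))
    (by rw [card_pair h1, card_erase_of_mem ha, h3])
  rcases mem_insert.1 (e ▸ mem_erase.2 ⟨hab.symm, hb⟩ : b ∈ ({c, p} : Finset V)) with rfl | hb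
  · exact h2
  · exact mem_singleton.1 hb ▸ h4

/-- triangles contain at most one member of an independent set each -/
theorem Til.ind_le {S Q : Finset V} {k : ℕ} (h : Til G S (Multiset.replicate k 3)) (hQ : Ind G Q) :
    (Q ∩ S).card ≤ k := by
  induction k generalizing S with
  | zero =>
    have := h.card
    rw [Multiset.replicate_zero, Multiset.sum_zero, card_eq_zero] at this
    simp [this]
  | succ k ih =>
    obtain ⟨X, R, h1, h2, -, rfl, h4⟩ := h.split 3 _ (Multiset.replicate_succ 3 k)
    have a : (Q ∩ X).card ≤ 1 := card_le_one.2 fun x hx y hy => by_contra fun ne =>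
      hQ x (mem_inter.1 hx).1 y (mem_inter.1 hy).1
        (cliq_tri h1 h2 x (mem_inter.1 hx).2 y (mem_inter.1 hy).2 ne)
    have b := ih h4
    have c := card_union_le (Q ∩ X) (Q ∩ R)
    rw [inter_union_distrib_left]
    omega

end Pool.Agent.Lib.MP_af3016_co
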