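import Pool.Agent.Lib.MP_af3016_co.F.WA
import Pool.Agent.Lib.MP_af3016_co.F.Cliq

/-! The middle case of a triangle crossing: the middle set is complete to one side. -/

set_option autoImplicit false
set_option linter.unusedSectionVars false

namespace Pool.Agent.Lib.MP_af3016_co

open Finset SimpleGraph

variable {V : Type} [DecidableEq V] {G : SimpleGraph V}

variable {W A B T : Finset V} {α β s α' β' s' : ℕ}

theorem wc_adj (h : Wd G W A B T α β s α' β' s') (hA : A.card = α + 1) {t x : V} (ht : t ∈ T)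
    (hx : x ∈ A) : G.Adj t x := by
  obtain ⟨N, h1, h2⟩ := exists_nbhd (G := G) t A
  have e : N = A := eq_of_subset_of_card_le (fun b hb => ((h2 b).1 hb).1)
    (by rw [h1, h.tA t ht, hA])
  exact ((h2 x).1 (e ▸ hx)).2

theorem special0 (h : Wd G W A B T α β s α' β' s') (f : Wf G A B T s s') (hle' : β' ≤ α')
    (he : α = β) (h2 : 2 ≤ α) (hA : A.card = α + 1) {I : Multiset ℕ} (orc : Orc G W (α + β) β I)
    {T' : Finset V} (hT : T' ⊆ T) (hc : T'.card = s + 1) {u : V} (hu : u ∈ B)
    (huT : ∀ t ∈ T', G.Adj u t) : Til G (insert u (A ∪ T')) (3 ::ₘ I) := by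
  have _ := f
  have cA := h.cA
  have dAB := Finset.disjoint_left.1 h.dAB
  have dAT := Finset.disjoint_left.1 h.dAT
  have dBT := Finset.disjoint_left.1 h.dBT
  obtain ⟨x, hx⟩ : A.Nonempty := card_pos.1 (by omega)
  obtain ⟨t, ht⟩ : T'.Nonempty := card_pos.1 (by omega)
  have k1 := h.ha hle' (empty_subset T) (by simp) x hx
  rw [union_empty] at k1
  have k2 := dG_add_dH_in (G := G) hx
  obtain ⟨x', hx', xx⟩ := exists_adj (G := G) (a := x) (S := A) (by omega)
  obtain ⟨c1, c2⟩ := hc_tri (wc_adj h hA (hT ht) hx) xx (wc_adj h hA (hT ht) hx').symm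
  have sub : ({x, x'} : Finset V) ⊆ A := insert_subset hx (singleton_subset_iff.2 hx')
  have n1 : (A \ {x, x'}).card + 2 = A.card := by
    rw [← card_pair xx.ne, card_sdiff_add_card_eq_card sub]
  have n2 := card_erase_add_one ht
  have uA : u ∉ A := fun e => dAB e hu
  have uT : u ∉ T' := fun e => dBT hu (hT e)
  refine (orc (insert u (A \ {x, x'} ∪ T'.erase t)) (fun v hv => ?_) ?_ fun y hy => ?_).add c1 c2
    (Finset.disjoint_left.2 fun v hv hv' => ?_) ?_
  · simp only [mem_insert, mem_union, mem_sdiff, mem_erase] at hv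
    rcases hv with rfl | hv | hv
    exacts [(h.mem _).2 (.inr (.inr hu)), (h.mem _).2 (.inl hv.1),
      (h.mem _).2 (.inr (.inl (hT hv.2)))]
  · rw [card_insert_of_notMem (by simp [uA, uT]), card_union_of_disjoint
      (h.dAT.mono sdiff_subset ((erase_subset _ _).trans hT))]
    omega
  · rcases mem_insert.1 hy with rfl | hy
    · refine (dH_le (R := A \ {x, x'}) fun b hb g1 g2 => ?_).trans_lt (by omega)
      exact (mem_union.1 ((mem_insert.1 hb).resolve_left g1)).resolve_right fun e =>
        g2 (huT b (mem_of_mem_erase e))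
    rcases mem_union.1 hy with hy | hy
    · have n3 := card_erase_add_one hy
      have n4 := card_insert_le u ((A \ {x, x'}).erase y)
      refine (dH_le (R := insert u ((A \ {x, x'}).erase y)) fun b hb g1 g2 => ?_).trans_lt
        (by omega)
      refine mem_insert.2 ((mem_insert.1 hb).imp_right fun e => mem_erase.2 ⟨g1, ?_⟩)
      exact (mem_union.1 e).resolve_right fun e =>
        g2 (wc_adj h hA (hT (mem_of_mem_erase e)) (sdiff_subset hy)).symm
    · have n3 := card_erase_add_one hy
      have yT := mem_of_mem_erase hy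
      refine (dH_le (R := (T'.erase t).erase y) fun b hb g1 g2 => mem_erase.2 ⟨g1, ?_⟩).trans_lt
        (by omega)
      rcases mem_insert.1 hb with rfl | hb
      · exact absurd (huT y yT).symm g2
      · exact (mem_union.1 hb).resolve_left fun e => g2 (wc_adj h hA (hT yT) (sdiff_subset e))
  · simp only [mem_insert, mem_union, mem_sdiff, mem_erase, mem_singleton] at hv hv'
    rcases hv with rfl | rfl | rfl <;> rcases hv' with e | e | e
    exacts [uT (e ▸ ht), dAT e.1 (hT ht), e.1 rfl, uA (e ▸ hx), e.2 (.inl rfl), dAT hx (hT e.2),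
      uA (e ▸ hx'), e.2 (.inr rfl), dAT hx' (hT e.2)]
  · ext v
    simp only [mem_insert, mem_union, mem_sdiff, mem_erase, mem_singleton]
    constructor
    · tauto
    · rintro ((rfl | rfl | rfl) | e) <;> tauto

theorem special1 (h : Wd G W A B T α β s α' β' s') (hle' : β' ≤ α') (hA : A.card = α + 1)
    {a r : ℕ} (h6 : 6 ≤ a) (eβ : β = a / 2 + r)
    (orc : Orc G W (α + β + 1) β ((a - 2) ::ₘ Multiset.replicate (r + 1) 3))
    {T' : Finset V} (hT : T' ⊆ T) (hc : T'.card = s + 1) {u : V} (hu : u ∈ B)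
    (huT : ∀ t ∈ T', G.Adj u t) :
    Til G (insert u (A ∪ T')) (3 ::ₘ a ::ₘ Multiset.replicate r 3) := by
  have cA := h.cA
  have dAB := Finset.disjoint_left.1 h.dAB
  have dAT := Finset.disjoint_left.1 h.dAT
  have dBT := Finset.disjoint_left.1 h.dBT
  obtain ⟨t', ht'⟩ : T'.Nonempty := card_pos.1 (by omega)
  have n1 := card_erase_add_one ht'
  have sT : T'.erase t' ⊆ T := (erase_subset _ _).trans hT
  obtain ⟨X, R, h1, h2, h3, h4, h5⟩ := (orc (A ∪ T'.erase t')
    (union_subset (fun v hv => (h.mem v).2 (.inl hv)) fun v hv => (h.mem v).2 (.inr (.inl (sT hv))))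
    (by rw [card_union_of_disjoint (h.dAT.mono_right sT)]; omega) fun y hy => by
      rcases mem_union.1 hy with hy | hy
      · exact h.ha hle' sT (by omega) y hy
      · have := h.ht sT y hy
        omega).split _ _ rfl
  have k1 := h5.ind_le (Q := T'.erase t') fun b hb c hc => h.ind b (sT hb) c (sT hc)
  obtain ⟨t, ht, tR⟩ : ∃ t ∈ T'.erase t', t ∉ R := by
    by_contra! e
    rw [inter_eq_left.2 e] at k1
    omega
  have tX : t ∈ X := (mem_union.1 (h4 ▸ mem_union_right A ht)).resolve_right tR
  obtain ⟨p, k2, k3⟩ := h1.open tX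
  have pA : p ∈ A := (mem_union.1 (h4 ▸ mem_union_left R k2.right : p ∈ A ∪ T'.erase t')).resolve_right
    fun e => h.ind p (sT e) t (sT ht) k3
  have u0 : u ∉ X ∪ R := h4 ▸ fun e => (mem_union.1 e).elim (fun e => dAB e hu)
    fun e => dBT hu (sT e)
  have t0 : t' ∉ X ∪ R := h4 ▸ fun e => (mem_union.1 e).elim (fun e => dAT e (hT ht'))
    (notMem_erase _ _)
  have uX : u ∉ X := fun e => u0 (mem_union_left _ e)
  have tu : t' ∉ insert u X := fun e => (mem_insert.1 e).elim (huT t' ht').ne'
    fun e => t0 (mem_union_left _ e)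
  have n2 : (insert t' (insert u X)).card = a := by
    rw [card_insert_of_notMem tu, card_insert_of_notMem uX]
    omega
  rw [Multiset.cons_swap, ← Multiset.replicate_succ]
  refine h5.add (((k2.cons (huT t (mem_of_mem_erase ht)) uX).cons (huT t' ht').symm tu).cycle
    (wc_adj h hA (hT ht') pA).symm (by omega)) n2 (disjoint_insert_left.2
      ⟨fun e => t0 (mem_union_right _ e), disjoint_insert_left.2
        ⟨fun e => u0 (mem_union_right _ e), h3⟩⟩) ?_
  rw [insert_union, insert_union, ← h4, insert_comm, ← union_insert t', insert_erase ht']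

end Pool.Agent.Lib.MP_af3016_co
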