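import Pool.Agent.Lib.MP_af3016_co.F.WB
import Pool.Agent.Lib.MP_af3016_co.F.WC

/-! The middle case of a triangle crossing. -/

set_option autoImplicit false
set_option linter.unusedSectionVars false

namespace Pool.Agent.Lib.MP_af3016_co

open Finset SimpleGraph

variable {V : Type} [DecidableEq V] {G : SimpleGraph V}

section
variable {W A B T : Finset V} {I J : Multiset ℕ} {α β s α' β' s' : ℕ}

theorem wcase_deg (h : Wd G W A B T α β s α' β' s') {v : V} (hv : v ∈ A ∨ v ∈ T ∨ v ∈ B) :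
    dH G v A + dH G v T + dH G v B ≤ β + β' := by
  have e : W = A ∪ T ∪ B := by
    ext y
    rw [h.mem, mem_union, mem_union, or_assoc]
  have := h.deg v ((h.mem v).2 hv)
  rwa [e, dH_union (disjoint_union_left.2 ⟨h.dAB, h.dBT.symm⟩), dH_union h.dAT] at this

theorem wcase_ex (h : Wd G W A B T α β s α' β' s') : ∃ u ∈ B, Tn G T u := by
  obtain ⟨t, ht⟩ : T.Nonempty := card_pos.1 (by have := h.cT; omega)
  obtain ⟨u, hu, k⟩ := exists_adj (G := G) (a := t) (S := B) (by have := h.tB t ht; omega)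
  exact ⟨u, hu, t, ht, k⟩

theorem wcase_card (h : Wd G W A B T α β s α' β' s') : α + 1 ≤ A.card := by
  obtain ⟨t, ht⟩ : T.Nonempty := card_pos.1 (by have := h.cT; omega)
  exact h.tA t ht ▸ dG_le_card t A

theorem wcase_low (h : Wd G W A B T α β s α' β' s') {u : V} (hu : u ∈ B) :
    α + 2 + dH G u T ≤ s + 1 + dG G u A + β' := by
  have a := wcase_deg h (Or.inr (Or.inr hu))
  have b := dG_add_dH_out (G := G) (Finset.disjoint_right.1 h.dAB hu)
  have := h.cA
  omega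

theorem wcase_out (h : Wd G W A B T α β s α' β' s') {p : V} (hp : p ∈ A) (k : ¬Tn G T p) :
    α' + 2 + s + dH G p A ≤ dG G p B + β := by
  have a := wcase_deg h (Or.inl hp)
  have b := dG_add_dH_out (G := G) (Finset.disjoint_left.1 h.dAB hp)
  have c : dH G p T = T.card := dH_eq_card fun t ht =>
    ⟨fun e => Finset.disjoint_left.1 h.dAT hp (e ▸ ht), fun g => k ⟨t, ht, g.symm⟩⟩
  have := h.cB
  have := h.cT
  omega

theorem wcase_nb (f : Wf G A B T s s') {u p : V} (hu : u ∈ B) (k : Tn G T u) (hp : p ∈ A)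
    (g : G.Adj u p) : dG G u A ≤ dH G p A + 1 := by
  obtain ⟨N, h1, h2⟩ := exists_nbhd (G := G) u A
  have a : (N.erase p).card ≤ dH G p A := le_dH fun b hb =>
    have q := (h2 b).1 (mem_of_mem_erase hb)
    ⟨q.1, ne_of_mem_erase hb, f.iA u hu k p hp b q.1 g q.2⟩
  have := pred_card_le_card_erase (s := N) (a := p)
  omega

theorem wcase_up (h : Wd G W A B T α β s α' β' s') (f : Wf G A B T s s') {u : V} (hu : u ∈ B)
    (k : Tn G T u) : s + 1 + dG G u A ≤ β ∨ s + 1 + dG G u A = β + 1 ∧ A.card = α + 1 := by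
  have a := wcase_card h
  have b := h.cA
  by_cases c : dG G u A = 0
  · omega
  · obtain ⟨p, hp, g⟩ := exists_adj (Nat.pos_of_ne_zero c)
    have := wcase_nb f hu k hp g
    have := h.pA p hp fun t ht q => f.xy p hp u hu ⟨t, ht, q⟩ k g.symm
    omega

theorem wcase_sub (f : Wf G A B T s s') {u : V} (hu : u ∈ B) (k : Tn G T u) :
    ∃ T', T' ⊆ T ∧ T'.card = s + 1 ∧ ∀ t ∈ T', G.Adj u t := by
  obtain ⟨N, h1, h2⟩ := exists_nbhd (G := G) u T
  obtain ⟨T', g1, g2⟩ := exists_subset_card_eq (s := N) (h1 ▸ f.muB u hu k)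
  exact ⟨T', fun t ht => ((h2 t).1 (g1 ht)).1, g2, fun t ht => ((h2 t).1 (g1 ht)).2⟩

/-- The moves of one side. -/
theorem wcase_side (sI : Sd G W I α β) (sJ : Sd G W J α' β') (h : Wd G W A B T α β s α' β' s')
    (f : Wf G A B T s s') (hn : ¬Til G W (3 ::ₘ (I + J))) : ∃ ρ N : ℕ, ρ + β ≤ α ∧
      (N = 2 ∧ ρ = 0 ∨ N = ρ + 3 ∧ (ρ + β = α → ρ + 3 ≤ β)) ∧
      ((∀ u ∈ B, Tn G T u → s + 1 + dG G u A < N) ∨
        ∃ x ∈ A, Tn G T x ∧ α' < s' + 1 + dG G x B + ρ) ∧ (ρ + β = α → A.card ≠ α + 1) := by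
  obtain ⟨u0, hu0, k0⟩ := wcase_ex h
  obtain ⟨T0, a1, a2, a3⟩ := wcase_sub f hu0 k0
  rcases sI.alt with ⟨I0, rfl, h2, orc⟩ | ⟨a, r, rfl, h3, h4, eα, eβ, orc⟩
  · refine ⟨0, 2, by have := sI.le; omega, Or.inl ⟨rfl, rfl⟩, ?_, fun e hA => hn
      (h.finish sI.le sJ a1 a2 (Or.inl hu0) (special0 h f sJ.le (by omega) sI.two hA sI.orc a1 a2
        hu0 a3))⟩
    by_contra! q
    obtain ⟨⟨u, hu, k, g⟩, q⟩ := q
    obtain ⟨T', b1, b2, b3⟩ := wcase_sub f hu k
    exact hn (h.finish sI.le sJ b1 b2 (Or.inl hu)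
      (moveA4 h f sI.le sJ.le h2 orc b1 b2 hu b3 g q))
  · refine ⟨r, r + 3, by omega, Or.inr ⟨rfl, by omega⟩, ?_, fun e hA => hn
      (h.finish sI.le sJ a1 a2 (Or.inl hu0) (special1 h sJ.le hA (by omega) eβ
        (orc (by omega) (by omega)) a1 a2 hu0 a3))⟩
    by_contra! q
    obtain ⟨⟨u, hu, k, g⟩, q⟩ := q
    obtain ⟨T', b1, b2, b3⟩ := wcase_sub f hu k
    exact hn (h.finish sI.le sJ b1 b2 (Or.inl hu) (moveA3 h f sJ.le h3 eα eβ b1 b2 hu b3 g q))

/-- The double counting in the extremal case. -/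
theorem wcase_count (h : Wd G W A B T α β s α' β' s') (f : Wf G A B T s s') {ρ ρ' : ℕ}
    (e' : ρ' + β = α') (h3 : ρ + 3 ≤ β)
    (hY : ∀ u ∈ B, Tn G T u → s + dG G u A = ρ + 1 ∧ dH G u T = 0)
    (hX : ∀ x ∈ A, Tn G T x → dH G x T = 0) : False := by
  classical
  obtain ⟨t, ht⟩ : T.Nonempty := card_pos.1 (by have := h.cT; omega)
  obtain ⟨u0, hu0, k0⟩ := wcase_ex h
  obtain ⟨D, hD⟩ : ∃ D, s + D = ρ + 1 := ⟨_, (hY u0 hu0 k0).1⟩
  have c1 : (B.filter (Tn G T)).card ≤ α' + 1 := h.tB t ht ▸ le_dG fun u hu =>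
    have q := mem_filter.1 hu
    ⟨q.1, (dH_eq_zero.1 (hY u q.1 q.2).2 t ht fun e =>
      Finset.disjoint_left.1 h.dBT q.1 (e ▸ ht)).symm⟩
  have c2 : (A.filter (Tn G T)).card ≤ α + 1 := h.tA t ht ▸ le_dG fun u hu =>
    have q := mem_filter.1 hu
    ⟨q.1, (dH_eq_zero.1 (hX u q.1 q.2) t ht fun e =>
      Finset.disjoint_left.1 h.dAT q.1 (e ▸ ht)).symm⟩
  have c3 := card_filter_add_card_filter_not (s := A) (Tn G T)
  have c4 := sum_dG_comm (G := G) (A.filter fun x => ¬Tn G T x) (B.filter (Tn G T))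
  have c5 := card_nsmul_le_sum (A.filter fun x => ¬Tn G T x)
    (fun p => dG G p (B.filter (Tn G T))) (ρ + ρ' + 2) fun p hp => by
      have q := mem_filter.1 hp
      have g : ∀ u ∈ B, G.Adj p u → Tn G T u := fun u hu g => by
        by_contra c
        exact f.pp p q.1 u hu q.2 c g
      have a := wcase_out h q.1 q.2
      obtain ⟨u, hu, k⟩ := exists_adj (G := G) (a := p) (S := B) (by omega)
      have b := wcase_nb f hu (g u hu k) q.1 k.symm
      have b' := (hY u hu (g u hu k)).1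
      obtain ⟨N, h1, h2⟩ := exists_nbhd (G := G) p B
      have : N.card ≤ dG G p (B.filter (Tn G T)) := le_dG fun y hy =>
        have r := (h2 y).1 hy
        ⟨mem_filter.2 ⟨r.1, g y r.1 r.2⟩, r.2⟩
      omega
  have c6 := sum_le_card_nsmul (B.filter (Tn G T))
    (fun u => dG G u (A.filter fun x => ¬Tn G T x)) D fun u hu => by
      have q := mem_filter.1 hu
      have := (hY u q.1 q.2).1
      have := dG_mono (G := G) (a := u) (filter_subset (fun x => ¬Tn G T x) A)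
      omega
  rw [c4] at c5
  have c7 := c5.trans c6
  have := h.cA
  rw [smul_eq_mul, smul_eq_mul] at c7
  have c8 : (D + 2 + (β - ρ - 3)) * (D + (s + ρ' + 1)) ≤ (D + (s + ρ' + 1) + 2 + (β - ρ - 3)) * D :=
    (Nat.mul_le_mul (by omega) (by omega)).trans (c7.trans (Nat.mul_le_mul_right D (by omega)))
  nlinarith [Nat.zero_le ((β - ρ - 3) * (s + ρ' + 1))]

end

theorem wcase {W A B T : Finset V} {I J : Multiset ℕ} {α β s α' β' s' : ℕ} (sI : Sd G W I α β)
    (sJ : Sd G W J α' β') (h : Wd G W A B T α β s α' β' s') : Til G W (3 ::ₘ (I + J)) := by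
  by_contra hn
  have f := (wfacts sI sJ h).resolve_left hn
  obtain ⟨ρ, N, a1, a2, a3, a4⟩ := wcase_side sI sJ h f hn
  obtain ⟨ρ', N', b1, b2, b3, b4⟩ := wcase_side sJ sI h.symm f.symm (by rwa [add_comm])
  obtain ⟨u0, hu0, k0⟩ := wcase_ex h
  obtain ⟨x0, hx0, g0⟩ := wcase_ex h.symm
  have l1 := wcase_low h hu0
  have l2 := wcase_low h.symm hx0
  have m1 := wcase_up h f hu0 k0
  have m2 := wcase_up h.symm f.symm hx0 g0
  rcases a3 with a3 | ⟨x, hx, g, a3⟩ <;> rcases b3 with b3 | ⟨u, hu, k, b3⟩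
  · have n1 := a3 u0 hu0 k0
    have n2 := b3 x0 hx0 g0
    refine wcase_count h f (ρ := ρ) (ρ' := ρ') (by omega) (by omega) (fun u hu k => ?_)
      fun x hx g => ?_
    · have := wcase_low h hu
      have := a3 u hu k
      omega
    · have := wcase_low h.symm hx
      have := b3 x hx g
      omega
  · have := a3 u hu k
    omega
  · have := b3 x hx g
    omega
  · have := wcase_up h f hu k
    have := wcase_up h.symm f.symm hx g
    omega

end Pool.Agent.Lib.MP_af3016_co
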