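import Pool.Agent.Lib.MP_af3016_co.F.Defs

/-! The middle case of a triangle crossing: the set of middle vertices. -/

set_option autoImplicit false
set_option linter.unusedSectionVars false

namespace Pool.Agent.Lib.MP_af3016_co

open Finset SimpleGraph

variable {V : Type} [DecidableEq V] {G : SimpleGraph V}

/-- the hypotheses of the middle case -/
structure WsetH (G : SimpleGraph V) (W A B : Finset V) (w : V) (I J : Multiset ℕ)
    (α β α' β' : ℕ) : Prop where
  sI : Sd G W I α β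
  sJ : Sd G W J α' β'
  hW : ∀ v, v ∈ W ↔ v ∈ A ∨ v = w ∨ v ∈ B
  hd : Disjoint A B
  wA : w ∉ A
  wB : w ∉ B
  cA : A.card = α + β + 1
  cB : B.card = α' + β' + 1
  hA : Hap G (insert w A) (β + 1)
  hB : Hap G (insert w B) (β' + 1)
  eA : dH G w A = β
  eB : dH G w B = β'
  iA : ∀ y ∈ insert w A, ∀ z ∈ insert w A, dH G y (insert w A) = β → dH G z (insert w A) = β →
    ¬G.Adj y z
  iB : ∀ y ∈ insert w B, ∀ z ∈ insert w B, dH G y (insert w B) = β' →
    dH G z (insert w B) = β' → ¬G.Adj y z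
  oA : ∀ y ∈ A, dH G y (insert w A) = β → dH G y B = β'
  oB : ∀ y ∈ B, dH G y (insert w B) = β' → dH G y A = β
  no : ¬Til G W (3 ::ₘ (I + J))

namespace WsetH

variable {W A B T : Finset V} {w : V} {I J : Multiset ℕ} {α β α' β' : ℕ}
  (h : WsetH G W A B w I J α β α' β')
include h

theorem symm : WsetH G W B A w J I α' β' α β :=
  ⟨h.sJ, h.sI, fun v => by rw [h.hW]; tauto, h.hd.symm, h.wB, h.wA, h.cB, h.cA, h.hB, h.hA, h.eB,
    h.eA, h.iB, h.iA, h.oB, h.oA, by rw [add_comm]; exact h.no⟩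

theorem tw : dH G w (insert w A) = β := (dH_insert_self w A).trans h.eA

/-- no triangle with a tight vertex, a second vertex on its side and a vertex of the other side -/
theorem tri {t x u : V} (ht : t ∈ insert w A) (e : dH G t (insert w A) = β) (hx : x ∈ A)
    (hu : u ∈ B) (a : G.Adj t x) (b : G.Adj t u) : ¬G.Adj x u := fun c => by
  have d := Finset.disjoint_left.1 h.hd
  have wA := h.wA
  have wB := h.wB
  have h1 : Hap G ((insert w A \ {t}).erase x) β := (h.hA.drop (singleton_subset_iff.2 ht)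
    fun v hv _ k => ⟨t, mem_singleton_self t, h.iA v hv t ht k e⟩).mono (erase_subset _ _)
  have h2 : Hap G (B.erase u) β' := (h.hB.drop (singleton_subset_iff.2 (mem_insert_self w B))
    fun v hv _ k => ⟨w, mem_singleton_self w, h.iB v hv w (mem_insert_self _ _) k h.symm.tw⟩).mono
      fun v hv => by grind
  have c1 : ((insert w A \ {t}).erase x).card = α + β := by
    rw [card_erase_of_mem (by simp [hx, a.ne.symm]), sdiff_singleton_eq_erase, card_erase_of_mem ht,
      card_insert_of_notMem wA, h.cA]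
    omega
  refine h.no (Til.three (hc_tri a c b.symm).1 (hc_tri a c b.symm).2
    (h.sI.orc _ (fun v hv => (h.hW v).2 (by grind)) c1 h1)
    (h.sJ.orc _ (fun v hv => (h.hW v).2 (by grind)) (by rw [card_erase_of_mem hu, h.cB]; omega) h2)
    ?_ ?_ ?_ fun v => ?_)
  · rw [Finset.disjoint_left]; grind
  · rw [Finset.disjoint_left]; grind
  · rw [Finset.disjoint_left]; grind
  · rw [h.hW]; grind

theorem degA {t : V} (ht : t ∈ insert w A ∧ dH G t (insert w A) = β ∨
    t ∈ insert w B ∧ dH G t (insert w B) = β') : dG G t A = α + 1 := by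
  have c := h.cA
  have hw := dG_add_dH_out (G := G) h.wA
  have e := h.eA
  rcases ht with ⟨a, b⟩ | ⟨a, b⟩ <;> rcases mem_insert.1 a with rfl | k
  · omega
  · have := dG_add_dH_in (G := G) k
    rw [dH_insert_non h.wA (fun e => h.wA (e ▸ k)) (h.iA t a w (mem_insert_self _ _) b h.tw)] at b
    omega
  · omega
  · have := dG_add_dH_out (G := G) (Finset.disjoint_right.1 h.hd k)
    have := h.oB t k b
    omega

theorem cross {y z : V} (hy : y ∈ insert w A) (e : dH G y (insert w A) = β) (hz : z ∈ insert w B)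
    (e' : dH G z (insert w B) = β') : ¬G.Adj y z := fun a => by
  rcases mem_insert.1 hy with rfl | k
  · exact h.iB _ (mem_insert_self _ _) z hz h.symm.tw e' a
  rcases mem_insert.1 hz with rfl | k'
  · exact h.iA y hy _ (mem_insert_self _ _) e h.tw a
  obtain ⟨c, hc, c1, c2⟩ := exists_common (G := G) (a := y) (b := z) (S := A) (by
    rw [h.degA (.inl ⟨hy, e⟩), h.degA (.inr ⟨hz, e'⟩), h.cA]
    have := h.sI.le
    omega)
  exact h.tri hy e hc k' c1 a c2.symm

theorem side (hT : ∀ t, t ∈ T ↔ t ∈ insert w A ∧ dH G t (insert w A) = β ∨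
    t ∈ insert w B ∧ dH G t (insert w B) = β') (i : Ind G T) :
    (A \ T).card + (A ∩ T).card = α + β + 1 ∧ (∀ t ∈ T, dG G t (A \ T) = α + 1) ∧
      ∀ x ∈ A \ T, (∀ t ∈ T, ¬G.Adj t x) → dH G x (A \ T) + (A ∩ T).card + 2 ≤ β := by
  refine ⟨by rw [card_sdiff_add_card_inter, h.cA], fun t ht => ?_, fun x hx k => ?_⟩
  · have := dG_sdiff (G := G) (a := t) (inter_subset_left (s₁ := A) (s₂ := T))
    rwa [sdiff_inter_self_left, dG_eq_zero.2 fun b hb => i t ht b (mem_inter.1 hb).2, add_zero,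
      h.degA ((hT t).1 ht)] at this
  · obtain ⟨a, b⟩ := mem_sdiff.1 hx
    have := dH_sdiff (G := G) (a := x) (inter_subset_left (s₁ := A) (s₂ := T))
    rw [sdiff_inter_self_left, dH_eq_card (a := x) (S := A ∩ T) fun t ht =>
      ⟨fun e => b (e ▸ (mem_inter.1 ht).2), fun e => k t (mem_inter.1 ht).2 e.symm⟩] at this
    have h1 := h.hA x (mem_insert_of_mem a)
    have h2 : dH G x (insert w A) ≠ β := fun e => b ((hT x).2 (.inl ⟨mem_insert_of_mem a, e⟩))
    rw [dH_insert_non h.wA (fun e => h.wA (e ▸ a)) fun e =>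
      k w ((hT w).2 (.inl ⟨mem_insert_self _ _, h.tw⟩)) e.symm] at h1 h2
    omega

end WsetH

theorem wsetup {W A B : Finset V} {w : V} {I J : Multiset ℕ} {α β α' β' : ℕ} (sI : Sd G W I α β)
    (sJ : Sd G W J α' β') (hW : ∀ v, v ∈ W ↔ v ∈ A ∨ v = w ∨ v ∈ B) (hd : Disjoint A B)
    (wA : w ∉ A) (wB : w ∉ B) (cA : A.card = α + β + 1) (cB : B.card = α' + β' + 1)
    (deg : ∀ v ∈ W, dH G v W ≤ β + β')
    (hA : Hap G (insert w A) (β + 1)) (hB : Hap G (insert w B) (β' + 1))
    (eA : dH G w A = β) (eB : dH G w B = β')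
    (iA : ∀ y ∈ insert w A, ∀ z ∈ insert w A, dH G y (insert w A) = β → dH G z (insert w A) = β →
      ¬G.Adj y z)
    (iB : ∀ y ∈ insert w B, ∀ z ∈ insert w B, dH G y (insert w B) = β' →
      dH G z (insert w B) = β' → ¬G.Adj y z)
    (oA : ∀ y ∈ A, dH G y (insert w A) = β → dH G y B = β')
    (oB : ∀ y ∈ B, dH G y (insert w B) = β' → dH G y A = β) :
    Til G W (3 ::ₘ (I + J)) ∨ ∃ A0 B0 T s s', Wd G W A0 B0 T α β s α' β' s' := by
  refine or_iff_not_imp_left.2 fun no => ?_
  have h : WsetH G W A B w I J α β α' β' := ⟨sI, sJ, hW, hd, wA, wB, cA, cB, hA, hB, eA, eB, iA, iB,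
    oA, oB, no⟩
  obtain ⟨T, hT⟩ : ∃ T : Finset V, ∀ t, t ∈ T ↔ t ∈ insert w A ∧ dH G t (insert w A) = β ∨
      t ∈ insert w B ∧ dH G t (insert w B) = β' :=
    ⟨(insert w A).filter (dH G · (insert w A) = β) ∪ (insert w B).filter (dH G · (insert w B) = β'),
      fun t => by rw [mem_union, mem_filter, mem_filter]⟩
  have i : Ind G T := fun y hy z hz => by
    rcases (hT y).1 hy with a | a <;> rcases (hT z).1 hz with b | b
    exacts [iA y a.1 z b.1 a.2 b.2, h.cross a.1 a.2 b.1 b.2,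
      fun e => h.cross b.1 b.2 a.1 a.2 e.symm, iB y a.1 z b.1 a.2 b.2]
  have wT : w ∈ T := (hT w).2 (.inl ⟨mem_insert_self _ _, h.tw⟩)
  have sub : ∀ t ∈ T, t = w ∨ t ∈ A ∨ t ∈ B := fun t ht => by
    rcases (hT t).1 ht with a | a <;> rcases mem_insert.1 a.1 with b | b <;> tauto
  obtain ⟨a1, a2, a3⟩ := h.side hT i
  obtain ⟨b1, b2, b3⟩ := h.symm.side (fun t => (hT t).trans or_comm) i
  refine ⟨A \ T, B \ T, T, _, _, fun v => by rw [hW]; grind, hd.mono sdiff_subset sdiff_subset,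
    sdiff_disjoint, sdiff_disjoint, a1, b1, ?_, deg, i, a2, b2, fun t ht x hx u hu c d => ?_, a3, b3⟩
  · rw [← card_union_of_disjoint (hd.mono inter_subset_left inter_subset_left),
      ← card_insert_of_notMem (a := w) (by simp [wA, wB])]
    congr 1
    ext t
    grind
  · rcases (hT t).1 ht with a | a
    · exact h.tri a.1 a.2 (sdiff_subset hx) (sdiff_subset hu) c d
    · exact fun e => h.symm.tri a.1 a.2 (sdiff_subset hu) (sdiff_subset hx) d c e.symm

end Pool.Agent.Lib.MP_af3016_co
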