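import Pool.Agent.Lib.MP_af3016_co.F.Case0
import Pool.Agent.Lib.MP_af3016_co.F.WSet
import Pool.Agent.Lib.MP_af3016_co.F.WCase
import Pool.Agent.Lib.MP_af3016_co.F.L13
import Pool.Agent.Lib.MP_af3016_co.F.L22

/-! The potential and the two crossings. -/

set_option autoImplicit false
set_option linter.unusedSectionVars false

namespace Pool.Agent.Lib.MP_af3016_co

open Finset SimpleGraph

variable {V : Type} [DecidableEq V] {G : SimpleGraph V}

/-- the potential of a bipartition of `W` -/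
noncomputable def Pf (G : SimpleGraph V) (W : Finset V) (β β' : ℕ) (S : Finset V) : ℤ :=
  Ps G S β + Ps G (W \ S) β'

theorem exists_isMin (G : SimpleGraph V) (W : Finset V) (β β' : ℕ) : ∃ S, IsMin G W β β' S := by
  obtain ⟨S, h1, h2⟩ := exists_min_image W.powerset (Pf G W β β') ⟨∅, empty_mem_powerset W⟩
  exact ⟨S, mem_powerset.1 h1, fun R hR => h2 R (mem_powerset.2 hR)⟩

theorem pf_mirror {W S : Finset V} (β β' : ℕ) (h : S ⊆ W) :
    Pf G W β' β (W \ S) = Pf G W β β' S := by
  unfold Pf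
  rw [Finset.sdiff_sdiff_eq_self h, add_comm]

theorem IsMin.le {W S R : Finset V} {β β' : ℕ} (h : IsMin G W β β' S) (hR : R ⊆ W) :
    Pf G W β β' S ≤ Pf G W β β' R := h.2 R hR

theorem IsMin.of_le {W S R : Finset V} {β β' : ℕ} (h : IsMin G W β β' S) (hR : R ⊆ W)
    (hle : Pf G W β β' R ≤ Pf G W β β' S) : IsMin G W β β' R :=
  ⟨hR, fun Q hQ => hle.trans (h.le hQ)⟩

theorem IsMin.mirror {W S : Finset V} {β β' : ℕ} (h : IsMin G W β β' S) :
    IsMin G W β' β (W \ S) := by
  refine ⟨sdiff_subset, fun R hR => ?_⟩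
  have h1 := h.le (sdiff_subset : W \ R ⊆ W)
  rw [← pf_mirror β β' h.1, pf_mirror β' β hR] at h1
  exact h1

theorem pf_shift {W S : Finset V} (β β' : ℕ) (h : S ⊆ W) :
    Pf G W (β + 1) β' S = Pf G W β (β' + 1) S + 2 * W.card - 4 * S.card := by
  unfold Pf Ps
  have := card_sdiff_add_card_eq_card h
  have h2 : ((W \ S).card : ℤ) = W.card - S.card := by omega
  rw [h2]
  push_cast
  ring

theorem pf_erase {W S : Finset V} (β β' : ℕ) (h : S ⊆ W) {v : V} (hv : v ∈ S) :
    Pf G W β β' (S.erase v) =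
      Pf G W β β' S - 2 * dH G v S + 2 * dH G v (W \ S) + 2 * β - 2 * β' := by
  unfold Pf Ps
  have e : W \ S.erase v = insert v (W \ S) := by
    ext x
    simp only [mem_sdiff, mem_erase, mem_insert]
    constructor
    · intro g
      by_cases hx : x = v
      · exact Or.inl hx
      · exact Or.inr ⟨g.1, fun g' => g.2 ⟨hx, g'⟩⟩
    · rintro (rfl | g)
      · exact ⟨h hv, fun g => g.1 rfl⟩
      · exact ⟨g.1, fun g' => g.2 g'.2⟩
  have hv' : v ∉ W \ S := fun g => (mem_sdiff.1 g).2 hv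
  rw [e, eH_insert hv', eH_erase (G := G) hv, card_insert_of_notMem hv', ← card_erase_add_one hv]
  push_cast
  ring

/-- moving a clique of unhappy vertices -/
theorem pf_clq {W S : Finset V} {β β' : ℕ} (hW : Hap G W (β + β')) (h : S ⊆ W) (Q : Finset V) :
    Q ⊆ S → Clq G Q → (∀ y ∈ Q, β ≤ dH G y S) →
      Pf G W β β' (S \ Q) + 2 * Q.card ≤ Pf G W β β' S := by
  induction Q using Finset.induction_on with
  | empty => intro _ _ _; simp
  | insert v Q hv ih =>
    intro h1 h2 h3
    have hQ : Q ⊆ S := (subset_insert v Q).trans h1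
    have hvS : v ∈ S := h1 (mem_insert_self v Q)
    have g1 := ih hQ (h2.mono fun x hx => mem_insert_of_mem hx) fun y hy =>
      h3 y (mem_insert_of_mem hy)
    have g2 := pf_erase (G := G) β β' (sdiff_subset.trans h : S \ Q ⊆ W) (mem_sdiff.2 ⟨hvS, hv⟩)
    have g3 := dH_sdiff (G := G) (a := v) hQ
    have g4 : dH G v Q = 0 := dH_eq_zero.2 fun b hb hbv =>
      h2 v (mem_insert_self v Q) b (mem_insert_of_mem hb) hbv.symm
    have g5 := dH_sdiff (G := G) (a := v) (sdiff_subset.trans h : S \ Q ⊆ W)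
    have g6 := hW v (h hvS)
    have g7 := h3 v (mem_insert_self v Q)
    rw [sdiff_insert, card_insert_of_notMem hv]
    push_cast
    omega

theorem IsMin.hap1 {W S : Finset V} {β β' : ℕ} (h : IsMin G W β β' S) (hW : Hap G W (β + β')) :
    Hap G S β := by
  intro v hv
  by_contra hn
  have g1 := pf_clq hW h.1 {v} (singleton_subset_iff.2 hv)
    (fun a ha b hb hab => absurd ((mem_singleton.1 ha).trans (mem_singleton.1 hb).symm) hab)
    fun y hy => by rw [mem_singleton.1 hy]; omega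
  have g2 := h.le (sdiff_subset.trans h.1 : S \ {v} ⊆ W)
  rw [card_singleton] at g1
  omega

theorem IsMin.hap {W S : Finset V} {β β' : ℕ} (h : IsMin G W β β' S) (hW : Hap G W (β + β')) :
    Hap G S β ∧ Hap G (W \ S) β' :=
  ⟨h.hap1 hW, h.mirror.hap1 (by rw [add_comm]; exact hW)⟩

theorem clq_pair {y z : V} (h : G.Adj y z) : Clq G {y, z} := by
  intro a ha b hb hab
  simp only [mem_insert, mem_singleton] at ha hb
  rcases ha with rfl | rfl <;> rcases hb with rfl | rfl
  exacts [absurd rfl hab, h, h.symm, absurd rfl hab]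

/-- a set whose potential exceeds the minimum by one step -/
theorem pf_near {W S M : Finset V} {β β' : ℕ} (hW : Hap G W (β + (β' + 1)))
    (hM : IsMin G W β (β' + 1) M) (h : S ⊆ W)
    (he : Pf G W β (β' + 1) S ≤ Pf G W β (β' + 1) M + 2) :
    (∀ y ∈ S, ∀ z ∈ S, dH G y S = β → dH G z S = β → ¬G.Adj y z) ∧
      ∀ y ∈ S, dH G y S = β → dH G y (W \ S) = β' := by
  refine ⟨fun y hy z hz e1 e2 hyz => ?_, fun y hy e => ?_⟩
  · have g1 := pf_clq hW h {y, z} (insert_subset hy (singleton_subset_iff.2 hz)) (clq_pair hyz)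
      fun x hx => by
        simp only [mem_insert, mem_singleton] at hx
        rcases hx with rfl | rfl <;> omega
    have g2 := hM.le (sdiff_subset.trans h : S \ {y, z} ⊆ W)
    rw [card_pair hyz.ne] at g1
    omega
  · have g1 := pf_erase (G := G) β (β' + 1) h hy
    have g2 := hM.le ((erase_subset y S).trans h)
    have g3 := dH_sdiff (G := G) (a := y) h
    have g4 := hW y (h hy)
    push_cast at g1
    omega

theorem mem_split {W S : Finset V} (h : S ⊆ W) (v : V) : v ∈ W ↔ v ∈ S ∨ v ∈ W \ S := by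
  rw [mem_sdiff]
  have := @h v
  tauto

theorem cross3_hap {W S : Finset V} {I J : Multiset ℕ} {α β α' β' : ℕ} (sI : Sd G W I α β)
    (sJ : Sd G W J α' β') (cW : W.card = α + β + α' + β' + 3) (hW : Hap G W (β + β' + 1))
    (h : S ⊆ W) (c0 : α + β < S.card) (c1 : S.card < α + β + 3) (h1 : Hap G S β)
    (h2 : Hap G (W \ S) β') : Til G W (3 ::ₘ (I + J)) := by
  have hc := card_sdiff_add_card_eq_card h
  by_cases e : S.card = α + β + 1
  · exact case0 sI sJ (mem_split h) disjoint_sdiff e (by omega) h1 h2 fun v hv =>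
      Nat.lt_succ_iff.1 (hW v hv)
  · rw [add_comm I J]
    exact case0 sJ sI (fun v => (mem_split h v).trans or_comm) sdiff_disjoint (by omega) (by omega)
      h2 h1 fun v hv => by have := hW v hv; omega

theorem cross3 {W S0 : Finset V} {I J : Multiset ℕ} {α β α' β' : ℕ} (sI : Sd G W I α β)
    (sJ : Sd G W J α' β') (cW : W.card = α + β + α' + β' + 3) (hW : Hap G W (β + β' + 1))
    (h0 : IsMin G W β (β' + 1) S0) (c0 : α + β < S0.card)
    (h1 : ∀ S, IsMin G W (β + 1) β' S → S.card < α + β + 3) : Til G W (3 ::ₘ (I + J)) := by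
  obtain ⟨S1, m1⟩ := exists_isMin G W (β + 1) β'
  have c1 := h1 S1 m1
  have hW0 : Hap G W (β + (β' + 1)) := hW
  have hW1 : Hap G W (β + 1 + β') := by rw [add_right_comm]; exact hW
  have hW2 : Hap G W (β' + (β + 1)) := by rw [add_comm]; exact hW1
  have s0 := pf_shift (G := G) β β' h0.1
  have s1 := pf_shift (G := G) β β' m1.1
  have l0 := h0.le m1.1
  have l1 := m1.le h0.1
  by_cases a0 : Hap G (W \ S0) β'
  · exact cross3_hap sI sJ cW hW h0.1 c0 (by omega) (h0.hap1 hW0) a0
  by_cases a1 : Hap G S1 β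
  · exact cross3_hap sI sJ cW hW m1.1 (by omega) c1 a1 (m1.hap hW1).2
  unfold Hap at a0 a1
  push Not at a0 a1
  obtain ⟨w, hw, ew⟩ := a0
  obtain ⟨y, hy, ey⟩ := a1
  have hwS : w ∉ S0 := (mem_sdiff.1 hw).2
  have hwW : w ∈ W := (mem_sdiff.1 hw).1
  have hA : insert w S0 ⊆ W := insert_subset hwW h0.1
  have eB : W \ insert w S0 = (W \ S0).erase w := sdiff_insert W S0 w
  have g1 := pf_erase (G := G) β (β' + 1) m1.1 hy
  have g2 := h0.le ((erase_subset y S1).trans m1.1)
  have g3 := dH_sdiff (G := G) (a := y) m1.1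
  have g4 := hW y (m1.1 hy)
  have k1 := pf_erase (G := G) (β + 1) β' hA (mem_insert_self w S0)
  have k0 := pf_erase (G := G) β (β' + 1) hA (mem_insert_self w S0)
  rw [erase_insert hwS, dH_insert_self, eB, dH_erase_self] at k1 k0
  have k2 := m1.le hA
  have k3 := dH_sdiff (G := G) (a := w) h0.1
  have k4 := hW w hwW
  push_cast at g1 k1 k0
  have m2 : IsMin G W (β + 1) β' (insert w S0) := m1.of_le hA (by omega)
  have nA := pf_near hW0 h0 hA (by omega)
  have nB := pf_near hW2 m2.mirror (sdiff_subset : W \ S0 ⊆ W) (by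
    rw [pf_mirror _ _ h0.1, pf_mirror _ _ hA]
    omega)
  have hc := card_sdiff_add_card_eq_card h0.1
  have hc' := card_erase_add_one hw
  rw [eB] at nA
  rw [Finset.sdiff_sdiff_eq_self h0.1] at nB
  have eI : insert w ((W \ S0).erase w) = W \ S0 := insert_erase hw
  rcases wsetup (A := S0) (B := (W \ S0).erase w) (w := w) sI sJ
    (fun v => by
      rw [mem_split h0.1 v, ← eI, mem_insert, erase_insert (notMem_erase w _)])
    (disjoint_sdiff.mono_right (erase_subset _ _)) hwS (notMem_erase w _) (by omega) (by omega)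
    (fun v hv => Nat.lt_succ_iff.1 (hW v hv)) (m2.hap1 hW1) (by rw [eI]; exact (h0.hap hW0).2)
    (by omega) (by rw [dH_erase_self]; omega) nA.1 (by rw [eI]; exact nB.1)
    (fun v hv => nA.2 v (mem_insert_of_mem hv))
    (by rw [eI]; exact fun v hv => nB.2 v (mem_of_mem_erase hv)) with g | ⟨A0, B0, T, s, s', g⟩
  · exact g
  · exact wcase sI sJ g

theorem cross4 {W S0 : Finset V} {I J : Multiset ℕ} {α β α' β' : ℕ} (sI : Sq G W I α β)
    (sJ : Sq G W J α' β') (cW : W.card = α + β + α' + β' + 4) (hW : Hap G W (β + β' + 2))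
    (h0 : IsMin G W β (β' + 2) S0) (c0 : α + β < S0.card)
    (h1 : ∀ S, IsMin G W (β + 2) β' S → S.card < α + β + 4) : Til G W (4 ::ₘ (I + J)) := by
  classical
  obtain ⟨S2, m2⟩ := exists_isMin G W (β + 2) β'
  obtain ⟨S, m1, hm⟩ : ∃ S, IsMin G W (β + 1) (β' + 1) S ∧
      ∀ R, IsMin G W (β + 1) (β' + 1) R → S.card ≤ R.card := by
    obtain ⟨S1, m1⟩ := exists_isMin G W (β + 1) (β' + 1)
    obtain ⟨S, k1, k2⟩ := exists_min_image (W.powerset.filter (IsMin G W (β + 1) (β' + 1))) card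
      ⟨S1, mem_filter.2 ⟨mem_powerset.2 m1.1, m1⟩⟩
    exact ⟨S, (mem_filter.1 k1).2, fun R hR => k2 R (mem_filter.2 ⟨mem_powerset.2 hR.1, hR⟩)⟩
  have c2 := h1 S2 m2
  have hW0 : Hap G W (β + (β' + 2)) := hW
  have hW1 : Hap G W (β + 1 + (β' + 1)) := by
    rw [show β + 1 + (β' + 1) = β + β' + 2 by omega]; exact hW
  have hW2 : Hap G W (β + 2 + β') := by rw [add_right_comm]; exact hW
  have hW3 : Hap G W (β' + (β + 2)) := by rw [add_comm]; exact hW2
  have s0 := pf_shift (G := G) β (β' + 1) h0.1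
  have s1 := pf_shift (G := G) β (β' + 1) m1.1
  have s2 := pf_shift (G := G) (β + 1) β' m1.1
  have s3 := pf_shift (G := G) (β + 1) β' m2.1
  have l0 := h0.le m1.1
  have l1 := m1.le h0.1
  have l2 := m1.le m2.1
  have l3 := m2.le m1.1
  have l4 : S0.card < S.card → Pf G W (β + 1) (β' + 1) S < Pf G W (β + 1) (β' + 1) S0 := by
    intro g
    by_contra g'
    exact absurd (hm S0 (m1.of_le h0.1 (by omega))) (by omega)
  rw [show β' + 1 + 1 = β' + 2 from rfl] at s0 s1
  rw [show β + 1 + 1 = β + 2 from rfl] at s2 s3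
  have hc := card_sdiff_add_card_eq_card m1.1
  obtain ⟨hA, hB⟩ := m1.hap hW1
  have deg : ∀ v ∈ W, dH G v W ≤ β + β' + 1 := fun v hv => Nat.lt_succ_iff.1 (hW v hv)
  have qA : ∀ Q, Q ⊆ S → Clq G Q → (∀ y ∈ Q, dH G y S = β) →
      Pf G W β (β' + 2) S0 + 2 * Q.card ≤ Pf G W β (β' + 2) S := by
    intro Q k1 k2 k3
    have g1 := pf_clq hW0 m1.1 Q k1 k2 fun y hy => (k3 y hy).ge
    have g2 := h0.le (sdiff_subset.trans m1.1 : S \ Q ⊆ W)
    omega
  have qB : ∀ Q, Q ⊆ W \ S → Clq G Q → (∀ y ∈ Q, dH G y (W \ S) = β') →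
      Pf G W (β + 2) β' S ≤ Pf G W (β + 2) β' S2 + 2 * Q.card → S.card + Q.card < α + β + 4 := by
    intro Q k1 k2 k3 k4
    have g1 := pf_clq hW3 (sdiff_subset : W \ S ⊆ W) Q k1 k2 fun y hy => (k3 y hy).ge
    have g0 : (W \ S) \ Q ⊆ W := sdiff_subset.trans sdiff_subset
    rw [pf_mirror _ _ m1.1, ← pf_mirror _ _ g0] at g1
    have g2 := h1 _ (m2.of_le (sdiff_subset : W \ ((W \ S) \ Q) ⊆ W) (by omega))
    have g3 := card_sdiff_add_card_eq_card g0
    have g4 := card_sdiff_add_card_eq_card k1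
    omega
  by_cases p1 : S.card = α + β + 1
  · refine l13 sI sJ (mem_split m1.1) disjoint_sdiff p1 (by omega)
      ((h0.of_le m1.1 (by omega)).hap1 hW0) hB deg fun Q k1 k2 k3 => ?_
    by_contra k4
    have := qB Q k1 k2 k3 (by omega)
    omega
  by_cases p2 : S.card = α + β + 2
  · refine l22 sI sJ (mem_split m1.1) disjoint_sdiff p2 (by omega) hA hB deg
      (fun y hy z hz e1 e2 hyz => ?_) fun y hy z hz e1 e2 hyz => ?_
    · have := qA {y, z} (insert_subset hy (singleton_subset_iff.2 hz)) (clq_pair hyz) fun x hx => by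
        simp only [mem_insert, mem_singleton] at hx
        rcases hx with rfl | rfl <;> assumption
      rw [card_pair hyz.ne] at this
      omega
    · have := qB {y, z} (insert_subset hy (singleton_subset_iff.2 hz)) (clq_pair hyz) fun x hx => by
        simp only [mem_insert, mem_singleton] at hx
        rcases hx with rfl | rfl <;> assumption
      rw [card_pair hyz.ne] at this
      omega
  · rw [add_comm I J]
    refine l13 sJ sI (fun v => (mem_split m1.1 v).trans or_comm) sdiff_disjoint (by omega)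
      (by omega) ((m2.of_le m1.1 (by omega)).hap hW2).2 hA
      (fun v hv => by have := deg v hv; omega) fun Q k1 k2 k3 => ?_
    have := qA Q k1 k2 k3
    omega

end Pool.Agent.Lib.MP_af3016_co
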