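import Pool.Agent.Lib.MP_af3016_co.F.Tools

/-! A traceable set around a small happy set. -/

set_option autoImplicit false
set_option linter.unusedSectionVars false

namespace Pool.Agent.Lib.MP_af3016_co

open Finset SimpleGraph

variable {V : Type} [DecidableEq V] {G : SimpleGraph V}

/-- the graph in which the members of `U` are adjacent to everything -/
def kl1Uni (G : SimpleGraph V) (U : Finset V) : SimpleGraph V where
  Adj x y := x ≠ y ∧ (G.Adj x y ∨ x ∈ U ∨ y ∈ U)
  symm := ⟨fun _ _ h => ⟨h.1.symm, h.2.elim (fun g => Or.inl g.symm) fun g => Or.inr g.symm⟩⟩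
  loopless := ⟨fun _ h => h.1 rfl⟩

theorem kl1_deg {H : SimpleGraph V} (h : G ≤ H) (a : V) (S : Finset V) : dG G a S ≤ dG H a S := by
  obtain ⟨N, h1, h2⟩ := exists_nbhd (G := G) a S
  rw [← h1]
  exact le_dG fun b hb => ⟨((h2 b).1 hb).1, h ((h2 b).1 hb).2⟩

theorem kl1_drop {U Y : Finset V} {u p q : V} (h : HP (kl1Uni G U) p q Y) (hu : u ∉ Y) :
    HP (kl1Uni G (U.erase u)) p q Y :=
  h.congr fun x hx y hy g => ⟨g.1, g.2.imp id (Or.imp
    (fun e => mem_erase.2 ⟨fun c => hu (c ▸ hx), e⟩) fun e => mem_erase.2 ⟨fun c => hu (c ▸ hy), e⟩)⟩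

/-- a traceable proper subset grows by one vertex -/
theorem kl1_ext {W X : Finset V} (hd : ∀ v ∈ W, W.card ≤ 2 * dG G v W) (hX : X ⊆ W)
    (hlt : X.card < W.card) {x y : V} (h : HP G x y X) :
    ∃ u ∈ W, u ∉ X ∧ ∃ p q, HP G p q (insert u X) := by
  have out : ∀ {x y : V}, HP G x y X → 0 < dG G x (W \ X) →
      ∃ u ∈ W, u ∉ X ∧ ∃ p q, HP G p q (insert u X) := fun {_ y} h g => by
    obtain ⟨u, hu, g⟩ := exists_adj g
    rw [mem_sdiff] at hu
    exact ⟨u, hu.1, hu.2, u, y, h.cons g.symm hu.2⟩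
  by_cases g1 : 0 < dG G x (W \ X)
  · exact out h g1
  by_cases g2 : 0 < dG G y (W \ X)
  · exact out h.symm g2
  have a1 := dG_sdiff (G := G) (a := x) hX
  have a2 := dG_sdiff (G := G) (a := y) hX
  have a3 := hd x (hX h.left)
  have a4 := hd y (hX h.right)
  have a5 := dG_add_dH_in (G := G) h.left
  have hc : HC G X := ore h (by omega) (by omega)
  have a6 := card_sdiff_add_card_eq_card hX
  obtain ⟨u, hu⟩ : (W \ X).Nonempty := card_pos.1 (by omega)
  have a7 := dG_add_dH_in (G := G) hu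
  rw [mem_sdiff] at hu
  have a8 := dG_sdiff (G := G) (a := u) hX
  have a9 := hd u hu.1
  obtain ⟨t, ht, g⟩ := exists_adj (G := G) (a := u) (S := X) (by omega)
  obtain ⟨p, hp, -⟩ := hc.open ht
  exact ⟨u, hu.1, hu.2, u, p, hp.cons g hu.2⟩

/-- two paths whose ends have large degrees -/
theorem kl1_trace {X X1 X2 : Finset V} {a x y b : V} (h1 : HP G a x X1) (h2 : HP G y b X2)
    (hd : ∀ t ∈ X1, t ∉ X2) (hX : ∀ t, t ∈ X ↔ t ∈ X1 ∨ t ∈ X2)
    (h : X.card ≤ dG G x X + dG G y X) : ∃ p q, HP G p q X := by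
  by_cases g : G.Adj x y
  · exact ⟨a, b, h1.join h2 hd g hX⟩
  have hx : x ∈ X := (hX x).2 (Or.inl h1.right)
  have hy : y ∈ X := (hX y).2 (Or.inr h2.left)
  have ha : a ∈ X := (hX a).2 (Or.inl h1.left)
  have xy : x ≠ y := fun e => hd x h1.right (e ▸ h2.left)
  have ba : b ≠ a := fun e => hd a h1.left (e ▸ h2.right)
  have a1 := dG_add_dH_in (G := G) hx
  have a2 := dG_add_dH_in (G := G) hy
  have a3 := dH_pos hy xy.symm g
  have a4 := dH_pos hx xy fun e => g e.symm
  have a5 := kl1_deg (G := G) (H := G ⊔ edge b a) le_sup_left x X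
  have a6 := kl1_deg (G := G) (H := G ⊔ edge b a) le_sup_left y X
  have p1 : HP (G ⊔ edge b a) y x X := (h2.mono le_sup_left).join (h1.mono le_sup_left)
    (fun t ht ht' => hd t ht' ht) (Or.inr ((edge_adj b a b a).2 ⟨Or.inl ⟨rfl, rfl⟩, ba⟩))
    fun t => by rw [hX, or_comm]
  obtain ⟨c, p, cp, g1, g2, g3⟩ := (ore p1 (by omega) (by omega)).del ha
  have g4 : HP G c p (X.erase a) := g3.congr fun s hs t ht e => e.resolve_right fun e => by
    rcases ((edge_adj b a s t).1 e).1 with e | e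
    · exact (mem_erase.1 ht).1 e.2
    · exact (mem_erase.1 hs).1 e.1
  have key : ∀ s, s ≠ b → (G ⊔ edge b a).Adj a s → G.Adj a s := fun s hs e =>
    e.resolve_right fun e => by
      rcases ((edge_adj b a a s).1 e).1 with e | e
      · exact ba e.1.symm
      · exact hs e.2
  by_cases hc : c = b
  · have := g4.symm.cons (key p (fun e => cp (hc.trans e.symm)) g2) (notMem_erase a X)
    rw [insert_erase ha] at this
    exact ⟨a, c, this⟩
  · have := g4.cons (key c hc g1) (notMem_erase a X)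
    rw [insert_erase ha] at this
    exact ⟨a, p, this⟩

/-- a proper subset covered by two paths lies in a traceable set with one more vertex -/
theorem kl1_two {W X X1 X2 : Finset V} (hd : ∀ v ∈ W, W.card ≤ 2 * dG G v W) (hW : X ⊆ W)
    (hlt : X.card < W.card) {a x y b : V} (h1 : HP G a x X1) (h2 : HP G y b X2)
    (hD : ∀ t ∈ X1, t ∉ X2) (hX : ∀ t, t ∈ X ↔ t ∈ X1 ∨ t ∈ X2) :
    ∃ u ∈ W, u ∉ X ∧ ∃ p q, HP G p q (insert u X) := by
  by_cases h : X.card ≤ dG G x X + dG G y X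
  · obtain ⟨p, q, g⟩ := kl1_trace h1 h2 hD hX h
    exact kl1_ext hd hW hlt g
  have a1 := dG_sdiff (G := G) (a := x) hW
  have a2 := dG_sdiff (G := G) (a := y) hW
  have a3 := hd x (hW ((hX x).2 (Or.inl h1.right)))
  have a4 := hd y (hW ((hX y).2 (Or.inr h2.left)))
  have a6 := card_sdiff_add_card_eq_card hW
  obtain ⟨u, hu, g1, g2⟩ := exists_common (G := G) (a := x) (b := y) (S := W \ X) (by omega)
  rw [mem_sdiff] at hu
  have u1 := not_or.1 ((hX u).not.1 hu.2)
  refine ⟨u, hu.1, hu.2, a, b, h1.join (h2.cons g2.symm u1.2) (fun t ht g => ?_) g1 fun t => ?_⟩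
  · rcases mem_insert.1 g with rfl | g
    · exact u1.1 ht
    · exact hD t ht g
  · rw [mem_insert, mem_insert, hX]
    tauto

theorem kl1_ind {W : Finset V} (hd : ∀ v ∈ W, W.card ≤ 2 * dG G v W) (n : ℕ) :
    ∀ (U Z : Finset V) (x y : V), U.card = n → U ⊆ Z → Z ⊆ W → 2 ≤ Z.card →
      HP (kl1Uni G U) x y Z →
      ∃ S' p q, Z \ U ⊆ S' ∧ S' ⊆ W ∧ S'.card = Z.card ∧ HP G p q S' := by
  induction n with
  | zero =>
    intro U Z x y h1 _ h3 _ h5
    rw [card_eq_zero] at h1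
    subst h1
    exact ⟨Z, x, y, sdiff_subset, h3, rfl, h5.congr fun s _ t _ g => g.2.resolve_right (by simp)⟩
  | succ n ih =>
    intro U Z x y h1 h2 h3 h4 h5
    obtain ⟨u, hu⟩ : U.Nonempty := card_pos.1 (by omega)
    have hd' : ∀ v ∈ W, W.card ≤ 2 * dG (kl1Uni G (U.erase u)) v W := fun v hv =>
      (hd v hv).trans (Nat.mul_le_mul_left 2 (kl1_deg (H := kl1Uni G (U.erase u))
        (fun _ _ g => ⟨g.ne, Or.inl g⟩) v W))
    have c1 := card_erase_add_one (h2 hu)
    have c2 := card_le_card h3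
    have hW : Z.erase u ⊆ W := (erase_subset u Z).trans h3
    have hend : ∀ {y}, HP (kl1Uni G U) u y Z → ∃ w ∈ W, w ∉ Z.erase u ∧
        ∃ p q, HP (kl1Uni G (U.erase u)) p q (insert w (Z.erase u)) := fun {y} h => by
      obtain ⟨c, -, g⟩ := h.tail (h.ne h4)
      exact kl1_ext hd' hW (by omega) (kl1_drop g (notMem_erase u Z))
    have key : ∃ w ∈ W, w ∉ Z.erase u ∧
        ∃ p q, HP (kl1Uni G (U.erase u)) p q (insert w (Z.erase u)) := by
      by_cases hx : x = u
      · exact hend (hx ▸ h5)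
      by_cases hy : y = u
      · exact hend (hy ▸ h5.symm)
      obtain ⟨c', c, X1, X2, g1, g2, -, g4, g5, rfl, g7⟩ :=
        h5.split (fun t => t = u) hx ⟨u, h2 hu, rfl⟩
      obtain ⟨e, -, g3⟩ := g2.tail (Ne.symm hy)
      refine kl1_two hd' hW (by omega) (kl1_drop g1 fun g => g7 _ g rfl)
        (kl1_drop g3 (notMem_erase _ _)) (fun t ht g => g4 t ht (mem_of_mem_erase g)) fun t => ?_
      rw [mem_erase, mem_erase, g5]
      have := g7 t
      tauto
    obtain ⟨w, w1, w2, p, q, g⟩ := key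
    have c3 := card_insert_of_notMem w2
    obtain ⟨S', p', q', k1, k2, k3, k4⟩ := ih (U.erase u) _ p q
      (by rw [card_erase_of_mem hu]; omega) ((erase_subset_erase u h2).trans (subset_insert _ _))
      (insert_subset w1 hW) (by omega) g
    refine ⟨S', p', q', fun t ht => k1 ?_, k2, by omega, k4⟩
    rw [mem_sdiff] at ht ⊢
    exact ⟨mem_insert_of_mem (mem_erase.2 ⟨fun e => ht.2 (e ▸ hu), ht.1⟩),
      fun e => ht.2 (mem_of_mem_erase e)⟩

/-- a small happy set lies in a traceable set with one vertex less than the cycle length -/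
theorem kl1 {W S : Finset V} {a : ℕ} (hS : S ⊆ W) (h3 : 3 ≤ a) (ha : a ≤ W.card)
    (hlt : S.card < a) (hap : Hap G S (a / 2)) (hd : ∀ v ∈ W, W.card ≤ 2 * dG G v W) :
    ∃ S' x y, S ⊆ S' ∧ S' ⊆ W ∧ S'.card + 1 = a ∧ HP G x y S' := by
  have c1 := card_sdiff_add_card_eq_card hS
  obtain ⟨U, hU, c2⟩ := exists_subset_card_eq (s := W \ S) (n := a - S.card) (by omega)
  have hD : Disjoint S U := Finset.disjoint_left.2 fun t ht g => (mem_sdiff.1 (hU g)).2 ht
  have c3 : (S ∪ U).card = a := by rw [card_union_of_disjoint hD]; omega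
  have hc : HC (kl1Uni G U) (S ∪ U) := by
    refine dirac (by omega) fun v hv => ?_
    rw [c3]
    rcases mem_union.1 hv with hv | hv
    · obtain ⟨N, g1, g2⟩ := exists_non (G := G) v S
      refine lt_of_le_of_lt (dH_le (R := N) fun b hb e g => (g2 b).2 ⟨?_, e, fun k => ?_⟩)
        (g1 ▸ hap v hv)
      · exact (mem_union.1 hb).resolve_right fun k => g ⟨e.symm, Or.inr (Or.inr k)⟩
      · exact g ⟨e.symm, Or.inl k⟩
    · rw [(dH_eq_zero (G := kl1Uni G U)).2 fun b _ e => ⟨e.symm, Or.inr (Or.inl hv)⟩]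
      omega
  obtain ⟨u, hu⟩ : U.Nonempty := card_pos.1 (by omega)
  have hu' : u ∈ S ∪ U := mem_union_right S hu
  obtain ⟨c, p, -, -, -, g⟩ := hc.del hu'
  have c4 := card_erase_add_one hu'
  obtain ⟨S', x, y, k1, k2, k3, k4⟩ := kl1_ind hd _ (U.erase u) _ c p rfl
    (erase_subset_erase u subset_union_right)
    ((erase_subset _ _).trans (union_subset hS (hU.trans sdiff_subset))) (by omega)
    (kl1_drop g (notMem_erase _ _))
  refine ⟨S', x, y, fun t ht => k1 ?_, k2, by omega, k4⟩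
  have := Finset.disjoint_left.1 hD ht
  exact mem_sdiff.2 ⟨mem_erase.2 ⟨fun e => this (e ▸ hu), mem_union_left U ht⟩,
    fun e => this (mem_of_mem_erase e)⟩

end Pool.Agent.Lib.MP_af3016_co
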