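import Pool.Agent.Lib.MP_af3016_co.F.Tools

/-! Closing a traceable set to a cycle by one more vertex. -/

set_option autoImplicit false
set_option linter.unusedSectionVars false

namespace Pool.Agent.Lib.MP_af3016_co

open Finset SimpleGraph

variable {V : Type} [DecidableEq V] {G : SimpleGraph V}

/-- `G` together with all pairs inside `K` -/
def kl2_plus (G : SimpleGraph V) (K : Finset V) : SimpleGraph V where
  Adj a b := a ≠ b ∧ (G.Adj a b ∨ (a ∈ K ∧ b ∈ K))
  symm := ⟨fun _ _ h => ⟨h.1.symm, h.2.imp G.adj_symm And.symm⟩⟩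
  loopless := ⟨fun _ h => h.1 rfl⟩

theorem kl2_le (K : Finset V) : G ≤ kl2_plus G K := fun _ _ h => ⟨h.ne, Or.inl h⟩

theorem kl2_sum {A : Finset V} {f : V → ℕ} {x : V} (hx : x ∈ A) {m : ℕ}
    (h : ∀ z ∈ A, z ≠ x → m ≤ f z) : f x + (A.card - 1) * m ≤ ∑ z ∈ A, f z := by
  rw [← add_sum_erase A f hx, ← card_erase_of_mem hx]
  exact Nat.add_le_add_left (card_nsmul_le_sum _ f m fun z hz =>
    h z (mem_of_mem_erase hz) (ne_of_mem_erase hz)) _

theorem kl2_via {K : Finset V} {x p q a b : V} (hK : Clq G K) (hx : x ∉ K) (hp : p ∈ K)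
    (hq : q ∈ K) (ha : a ∈ K) (hb : b ∈ K) (hpq : p ≠ q) (xa : G.Adj x a) (xb : G.Adj x b)
    (ab : a ≠ b) (aq : a ≠ q) (bp : b ≠ p) (bq : b ≠ q) : HP G p q (insert x K) := by
  have h1 : HP G p a {p, a} := by
    by_cases e : p = a
    · subst e; simpa using HP.single (G := G) p
    · exact (HP.single a).cons (hK p hp a ha e) (by simpa using e)
  have h2 : HP G b q (K \ {p, a}) := HP.clique _ _ b q rfl
    (fun s hs t ht => hK s (mem_sdiff.1 hs).1 t (mem_sdiff.1 ht).1)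
    (by simp [hb, bp, ab.symm]) (by simp [hq, hpq.symm, aq.symm]) bq
  refine h1.join (h2.cons xb fun h => hx (mem_sdiff.1 h).1) (fun t ht h => ?_) xa.symm fun t => ?_
  · rcases mem_insert.1 h with rfl | h
    · simp only [mem_insert, mem_singleton] at ht
      rcases ht with rfl | rfl <;> contradiction
    · exact (mem_sdiff.1 h).2 ht
  · simp only [mem_insert, mem_singleton, mem_sdiff]
    constructor
    · tauto
    · rintro ((rfl | rfl) | h | h) <;> tauto

/-- spanning paths of a clique with one more vertex -/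
theorem kl2_path {K : Finset V} {x p q c c' : V} (hK : Clq G K) (hx : x ∉ K)
    (hp : p ∈ insert x K) (hq : q ∈ insert x K) (hpq : p ≠ q) (hc : c ∈ K) (hc' : c' ∈ K)
    (cc : c ≠ c') (xc : G.Adj x c) (xc' : G.Adj x c') : HP G p q (insert x K) ∨
      (3 ≤ K.card ∧ G.Adj x p ∧ G.Adj x q ∧ ∀ t ∈ K, G.Adj x t → t = p ∨ t = q) := by
  have oth : ∀ t, ∃ a ∈ K, G.Adj x a ∧ a ≠ t := fun t => by
    by_cases e : c = t
    · exact ⟨c', hc', xc', fun d => cc (e.trans d.symm)⟩
    · exact ⟨c, hc, xc, e⟩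
  have en : ∀ q ∈ K, HP G x q (insert x K) := fun q hq => by
    obtain ⟨a, h1, h2, h3⟩ := oth q
    exact (HP.clique _ K a q rfl hK h1 hq h3).cons h2 hx
  by_cases e1 : p = x
  · exact Or.inl (e1 ▸ en q ((mem_insert.1 hq).resolve_left fun e => hpq (e1.trans e.symm)))
  replace hp := (mem_insert.1 hp).resolve_left e1
  by_cases e2 : q = x
  · exact Or.inl (e2 ▸ (en p hp).symm)
  replace hq := (mem_insert.1 hq).resolve_left e2
  by_cases h : ∀ t ∈ K, G.Adj x t → t = p ∨ t = q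
  · have xp : G.Adj x p ∧ G.Adj x q := by
      rcases h c hc xc with rfl | rfl <;> rcases h c' hc' xc' with rfl | rfl <;> tauto
    by_cases h3 : 3 ≤ K.card
    · exact Or.inr ⟨h3, xp.1, xp.2, h⟩
    have e : {p, q} = K := eq_of_subset_of_card_le (by simp [insert_subset_iff, hp, hq])
      (by rw [card_pair hpq]; omega)
    subst e
    left
    rw [insert_comm]
    exact ((HP.single q).cons xp.2 (by simp [xp.2.ne])).cons xp.1.symm
      (by simp [hpq, xp.1.ne.symm])
  · push Not at h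
    obtain ⟨b, h1, h2, h3, h4⟩ := h
    obtain ⟨a, g1, g2, g3⟩ := oth b
    by_cases e : a = q
    · exact Or.inl (kl2_via hK hx hq hp g1 h1 hpq.symm g2 h2 g3 (e ▸ hpq.symm) h4 h3).symm
    · exact Or.inl (kl2_via hK hx hp hq g1 h1 hpq g2 h2 g3 e h3 h4)

theorem kl2 {W S : Finset V} {x y : V} {o : ℕ} (hS : S ⊆ W) (hp : HP G x y S) (h2 : 2 ≤ S.card)
    (h4 : S.card + 4 ≤ W.card) (ho : 1 ≤ o ∨ S.card % 2 = 1)
    (hd : ∀ v ∈ W, W.card + o ≤ 2 * dG G v W) :
    (∃ u ∈ W, u ∉ S ∧ HC G (insert u S)) ∨ (o = 0 ∧ Pr G S (W \ S)) := by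
  classical
  refine or_iff_not_imp_left.2 fun hn => ?_
  obtain ⟨R, hR⟩ : ∃ R, R = W \ S := ⟨_, rfl⟩
  rw [← hR]
  have mR : ∀ u, u ∈ R ↔ u ∈ W ∧ u ∉ S := fun u => hR ▸ mem_sdiff
  have cR : R.card + S.card = W.card := hR ▸ card_sdiff_add_card_eq_card hS
  have dg : ∀ v ∈ W, R.card + S.card + o ≤ 2 * (dG G v R + dG G v S) := fun v hv => by
    rw [cR, hR, dG_sdiff hS]; exact hd v hv
  have dS := fun v (hv : v ∈ S) => dg v (hS hv)
  have dR := fun v (hv : v ∈ R) => dg v ((mR v).1 hv).1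
  obtain ⟨K, hK⟩ : ∃ K, K = S.filter fun v => S.card < 2 * dG G v S := ⟨_, rfl⟩
  have mK : ∀ v, v ∈ K ↔ v ∈ S ∧ S.card < 2 * dG G v S := fun v => hK ▸ mem_filter
  have cK : Clq (kl2_plus G K) K := fun a ha b hb h => ⟨h, Or.inr ⟨ha, hb⟩⟩
  have F2 : ∀ a b, HP (kl2_plus G K) a b S → ∀ u ∈ R, G.Adj a u → G.Adj b u → False := by
    intro a b h u hu h1 h3
    have hu' := (mR u).1 hu
    refine hn ⟨u, hu'.1, hu'.2, closure (h.close (h.ne h2) hu'.2 (kl2_le K h1.symm)
      (kl2_le K h3.symm)) fun s _ t _ g1 g2 => ?_⟩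
    obtain ⟨g3, g4⟩ := g1.2.resolve_left g2
    have a1 := dG_mono (G := G) (a := s) (subset_insert u S)
    have a2 := dG_mono (G := G) (a := t) (subset_insert u S)
    have a3 := ((mK s).1 g3).2
    have a4 := ((mK t).1 g4).2
    rw [card_insert_of_notMem hu'.2]
    omega
  have F1 : ∀ a b, HP (kl2_plus G K) a b S → dG G a R + dG G b R ≤ R.card := fun a b h =>
    not_lt.1 fun g => by
      obtain ⟨u, g1, g2, g3⟩ := exists_common g
      exact F2 a b h u g1 g2 g3
  have F3 : ∀ a b, HP (kl2_plus G K) a b S → a ∈ K ∨ b ∈ K := fun a b h => by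
    have a1 := F1 a b h
    have a2 := dS a h.left
    have a3 := dS b h.right
    rw [mK, mK]
    by_contra g
    simp only [h.left, h.right, true_and, not_or] at g
    omega
  have hx := dS x hp.left
  have hy := dS y hp.right
  have hxy := F1 x y (hp.mono (kl2_le K))
  have h3 : 3 ≤ S.card := by
    have a1 := dG_add_dH_in (G := G) hp.left
    have a2 := dG_add_dH_in (G := G) hp.right
    omega
  have hc : HC G S := ore hp h3 (by omega)
  have one : ∀ a ∈ S, ∀ b ∈ S, a ∉ K → b ∉ K → a = b := by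
    intro a ha b hb g1 g2
    by_contra g3
    obtain ⟨p, p1, p2⟩ := hc.open ha
    obtain ⟨c', c, X1, X2, k1, k2, k3, k4, k5, rfl, -⟩ := p1.split (fun s => s = b) g3 ⟨b, hb, rfl⟩
    have pK := (F3 a p (p1.mono (kl2_le K))).resolve_left g1
    have cK' := (F3 c c' ((k2.join k1 (fun s hs hs' => k4 s hs' hs) p2
      fun s => by rw [k5]; tauto).mono (kl2_le K))).resolve_left g2
    exact (F3 a c ((k1.mono (kl2_le K)).join (k2.symm.mono (kl2_le K)) k4
      (cK c' cK' p pK fun e => k4 c' k1.right (e ▸ k2.right)) k5)).elim g1 g2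
  have sm : ∀ Z : Finset V, (∀ u ∈ R, dG G u Z ≤ 1) → ∑ z ∈ Z, dG G z R ≤ R.card := fun Z h => by
    rw [sum_dG_comm]
    simpa using sum_le_card_nsmul R _ 1 h
  have two : ∀ (u : V) (Z : Finset V), (∀ p ∈ Z, ∀ q ∈ Z, G.Adj u p → G.Adj u q → p = q) →
      dG G u Z ≤ 1 := fun u Z h => by
    obtain ⟨N, g1, g2⟩ := exists_nbhd (G := G) u Z
    rw [← g1]
    exact card_le_one.2 fun p hp q hq => h p ((g2 p).1 hp).1 q ((g2 q).1 hq).1 ((g2 p).1 hp).2
      ((g2 q).1 hq).2
  have key : ∀ u ∈ R, dG G u S ≤ 1 := by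
    intro u0 hu0
    refine two u0 S fun p0 hp0 q0 hq0 up uq => not_not.1 fun pq => ?_
    by_cases hl : ∀ v ∈ S, v ∈ K
    · exact F2 p0 q0 (HP.clique _ S p0 q0 rfl (fun a ha b hb => cK a (hl a ha) b (hl b hb))
        hp0 hq0 pq) u0 hu0 up.symm uq.symm
    push Not at hl
    obtain ⟨z, z1, z2⟩ := hl
    have zK : ∀ v ∈ S, v ≠ z → v ∈ K := fun v hv e => not_not.1 fun g => e (one v hv z z1 g z2)
    have eS : insert z K = S := by
      ext v
      rw [mem_insert]
      exact ⟨fun h => h.elim (fun e => e ▸ z1) fun h => ((mK v).1 h).1,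
        fun h => or_iff_not_imp_left.2 (zK v h)⟩
    obtain ⟨c, c', cc, zc, zc', hcc⟩ := hc.del z1
    have ex : ∀ u ∈ R, ∀ p ∈ S, ∀ q ∈ S, G.Adj u p → G.Adj u q → p ≠ q →
        4 ≤ S.card ∧ G.Adj z p ∧ G.Adj z q ∧ ∀ t ∈ S, G.Adj z t → t = p ∨ t = q := by
      intro u hu p hp q hq g1 g2 g3
      rcases kl2_path cK z2 (eS.symm ▸ hp) (eS.symm ▸ hq) g3
        (zK c (mem_of_mem_erase hcc.left) zc.ne.symm)
        (zK c' (mem_of_mem_erase hcc.right) zc'.ne.symm) cc (kl2_le K zc) (kl2_le K zc') with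
        h | ⟨k1, k2, k3, k4⟩
      · exact (F2 p q (eS ▸ h) u hu g1.symm g2.symm).elim
      · refine ⟨?_, k2.2.resolve_right fun d => z2 d.1, k3.2.resolve_right fun d => z2 d.1,
          fun t ht d => k4 t (zK t ht d.ne.symm) (kl2_le K d)⟩
        rw [← eS, card_insert_of_notMem z2]
        omega
    obtain ⟨n4, zp, zq, zt⟩ := ex u0 hu0 p0 hp0 q0 hq0 up uq pq
    have dz : dG G z S ≤ 2 := (dG_le (R := {p0, q0}) fun t ht d => by
      simpa using zt t ht d).trans card_le_two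
    obtain ⟨Z, hZ⟩ : ∃ Z, Z = S \ {p0, q0} := ⟨_, rfl⟩
    have mZ : ∀ v ∈ Z, v ∈ S ∧ ¬G.Adj z v := fun v hv => by
      rw [hZ, mem_sdiff] at hv
      exact ⟨hv.1, fun d => hv.2 (by simpa using zt v hv.1 d)⟩
    have cZ : Z.card + 2 = S.card := by
      rw [hZ, ← card_pair pq]
      exact card_sdiff_add_card_eq_card (by simp [insert_subset_iff, hp0, hq0])
    have zZ : z ∈ Z := by simp [hZ, z1, zp.ne, zq.ne]
    have dZ : ∀ v ∈ Z, v ≠ z → dG G v S + 2 ≤ S.card := fun v hv e => by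
      have a1 := dG_add_dH_in (G := G) (mZ v hv).1
      have a2 := dH_pos z1 e.symm fun d => (mZ v hv).2 d.symm
      omega
    have n5 : 5 ≤ S.card := by
      obtain ⟨v, v1, v2⟩ := exists_mem_ne (show 1 < Z.card by omega) z
      have a1 := dZ v v1 v2
      have a2 := ((mK v).1 (zK v (mZ v v1).1 v2)).2
      omega
    have a1 := sm Z fun u hu => two u Z fun p hp q hq g1 g2 => not_not.1 fun g3 =>
      (mZ p hp).2 (ex u hu p (mZ p hp).1 q (mZ q hq).1 g1 g2 g3).2.1
    have a2 := dS z z1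
    obtain ⟨u, hu, zu⟩ := exists_adj (show 0 < dG G z R by omega)
    have a3 : dG G u S ≤ 1 := two u S fun p hp q hq g1 g2 => by
      have e : ∀ p ∈ S, G.Adj u p → p = z := fun p hp g => not_not.1 fun d =>
        G.irrefl (ex u hu p hp z z1 g zu.symm d).2.2.1
      rw [e p hp g1, e q hq g2]
    have a4 := dR u hu
    have a5 := dG_add_dH_in (G := G) hu
    obtain ⟨g, hg⟩ : ∃ g, R.card = S.card + g := ⟨R.card - S.card, by omega⟩
    have a6 := kl2_sum (f := fun v => 2 * dG G v R) (m := g + 4) zZ fun v v1 v2 => by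
      have b1 := dZ v v1 v2
      have b2 := dS v (mZ v v1).1
      omega
    rw [← mul_sum] at a6
    have a7 := Nat.mul_le_mul_right (g + 4) (show 2 ≤ Z.card - 1 by omega)
    omega
  have a1 := sm S key
  obtain ⟨u, hu⟩ := card_pos.1 (show 0 < R.card by omega)
  have a2 := dR u hu
  have a3 := dG_add_dH_in (G := G) hu
  have a4 := key u hu
  obtain ⟨g, hg⟩ : ∃ g, R.card = S.card + g := ⟨R.card - S.card, by omega⟩
  have a5 := card_nsmul_le_sum S (fun v => 2 * dG G v R) (g + o + 2) fun v hv => by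
    have b1 := dG_add_dH_in (G := G) hv
    have b2 := dS v hv
    omega
  rw [← mul_sum, smul_eq_mul, mul_add] at a5
  have a6 := Nat.mul_le_mul_right (g + o) h3
  have a7 : ∀ v ∈ S, 1 ≤ dG G v R := fun v hv => by
    have b1 := dG_add_dH_in (G := G) hv
    have b2 := dS v hv
    omega
  refine ⟨by omega, fun a ha b hb e => dH_eq_zero.1 ?_ b hb e.symm,
    fun a ha b hb e => dH_eq_zero.1 ?_ b hb e.symm, by omega,
    fun v hv => exists_adj (a7 v hv), key⟩
  · have b1 := dG_add_dH_in (G := G) ha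
    have b2 := dS a ha
    have b3 := kl2_sum (f := fun v => dG G v R) ha fun v hv _ => a7 v hv
    omega
  · have b1 := dG_add_dH_in (G := G) ha
    have b2 := dR a ha
    have b3 := key a ha
    omega

end Pool.Agent.Lib.MP_af3016_co
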