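import Pool.Agent.Lib.MP_af3016_co.F.Pot
import Pool.Agent.Lib.MP_af3016_co.F.KL2
import Pool.Agent.Lib.MP_af3016_co.F.KL1

/-! The induction. -/

set_option autoImplicit false
set_option linter.unusedSectionVars false

namespace Pool.Agent.Lib.MP_af3016_co

open Finset SimpleGraph

variable {V : Type} [DecidableEq V] {G : SimpleGraph V}

theorem bS_cons (a : ℕ) (L : Multiset ℕ) : bS (a ::ₘ L) = a / 2 + bS L := by simp [bS]

theorem aS_cons (a : ℕ) (L : Multiset ℕ) : aS (a ::ₘ L) = (a + 1) / 2 + aS L := by simp [aS]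

theorem bS_add (L M : Multiset ℕ) : bS (L + M) = bS L + bS M := by simp [bS]

theorem bS_zero : bS 0 = 0 := by simp [bS]

theorem bS_rep (r : ℕ) : bS (Multiset.replicate r 3) = r := by simp [bS]

theorem aS_rep (r : ℕ) : aS (Multiset.replicate r 3) = 2 * r := by simp [aS, mul_comm]

theorem aS_bS (L : Multiset ℕ) : aS L + bS L = L.sum ∧ bS L ≤ aS L ∧
    (aS L = bS L → ∀ x ∈ L, x % 2 = 0) := by
  induction L using Multiset.induction_on with
  | empty => simp [aS, bS]
  | cons a L ih =>
    rw [aS_cons, bS_cons, Multiset.sum_cons]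
    refine ⟨by omega, by omega, fun e x hx => ?_⟩
    rcases Multiset.mem_cons.1 hx with rfl | hx
    · omega
    · exact ih.2.2 (by omega) x hx

theorem Cls.mono {L M : Multiset ℕ} (h : Cls L) (hM : M ≤ L) : Cls M :=
  ⟨fun x hx => h.1 x (Multiset.mem_of_le hM hx),
    (Multiset.card_le_card (Multiset.filter_le_filter _ hM)).trans h.2⟩

/-- one arbitrary length, all others equal to three or four -/
def Sm (I : Multiset ℕ) : Prop := ∃ a K, I = a ::ₘ K ∧ 3 ≤ a ∧ ∀ x ∈ K, x = 3 ∨ x = 4

theorem Sm.cls {I : Multiset ℕ} (h : Sm I) : Cls I := by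
  obtain ⟨a, K, rfl, h1, h2⟩ := h
  refine ⟨fun x hx => ?_, ?_⟩
  · rcases Multiset.mem_cons.1 hx with rfl | hx
    · exact h1
    · have := h2 x hx
      omega
  · have : K.filter (fun x => 5 ≤ x) = 0 :=
      Multiset.filter_eq_nil.2 fun x hx => by have := h2 x hx; omega
    rw [Multiset.filter_cons, this]
    split_ifs <;> simp

theorem Sm.add {I M : Multiset ℕ} (h : Sm I) (hM : ∀ x ∈ M, x = 3 ∨ x = 4) : Sm (M + I) := by
  obtain ⟨a, K, rfl, h1, h2⟩ := h
  refine ⟨a, M + K, Multiset.add_cons _ _ _, h1, fun x hx => ?_⟩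
  rcases Multiset.mem_add.1 hx with hx | hx
  exacts [hM x hx, h2 x hx]

theorem Sm.two {I : Multiset ℕ} (h : Sm I) : 2 ≤ aS I ∧ 1 ≤ bS I := by
  obtain ⟨a, K, rfl, h1, -⟩ := h
  rw [aS_cons, bS_cons]
  omega

theorem Cls.split {L : Multiset ℕ} (h : Cls L) (h2 : 2 ≤ L.card) :
    ∃ a c M, L = a ::ₘ c ::ₘ M ∧ ∀ x ∈ M, x = 3 ∨ x = 4 := by
  obtain ⟨P, k1, k2, k3⟩ : ∃ P, L.filter (fun x => 5 ≤ x) ≤ P ∧ P ≤ L ∧ P.card = 2 := by
    have key : ∀ (d : ℕ) (Q : Multiset ℕ), Q ≤ L → Q.card + d = 2 →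
        ∃ P, Q ≤ P ∧ P ≤ L ∧ P.card = 2 := by
      intro d
      induction d with
      | zero => exact fun Q g1 g2 => ⟨Q, le_rfl, g1, g2⟩
      | succ d ih =>
        intro Q g1 g2
        obtain ⟨x, hx⟩ := Multiset.lt_iff_cons_le.1
          (lt_of_le_of_ne g1 fun e => by rw [e] at g2; omega)
        obtain ⟨P, k1, k2⟩ := ih (x ::ₘ Q) hx (by rw [Multiset.card_cons]; omega)
        exact ⟨P, (Multiset.le_cons_self Q x).trans k1, k2⟩
    exact key (2 - (L.filter fun x => 5 ≤ x).card) _ (Multiset.filter_le _ _) (by have := h.2; omega)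
  obtain ⟨a, c, rfl⟩ := Multiset.card_eq_two.1 k3
  obtain ⟨M, rfl⟩ := Multiset.le_iff_exists_add.1 k2
  refine ⟨a, c, M, by simp [Multiset.insert_eq_cons], fun x hx => ?_⟩
  have g1 := h.1 x (Multiset.mem_add.2 (Or.inr hx))
  have g2 : ¬5 ≤ x := by
    intro g
    have g3 := Multiset.count_le_of_le x k1
    rw [Multiset.count_filter_of_pos g, Multiset.count_add] at g3
    have := Multiset.count_pos.2 hx
    omega
  omega

/-- the induction hypothesis -/
def Ih (G : SimpleGraph V) (n : ℕ) : Prop :=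
  ∀ (X : Finset V) (L : Multiset ℕ), X.card < n → Cls L → L.sum = X.card → Hap G X (bS L) →
    Til G X L

theorem Ih.orc {W : Finset V} (ih : Ih G W.card) {L : Multiset ℕ} (h : Cls L) {n β : ℕ}
    (h1 : L.sum = n) (h2 : bS L = β) (h3 : n < W.card) : Orc G W n β L :=
  fun X _ g1 g2 => ih X L (by omega) h (by omega) (h2 ▸ g2)

theorem Ih.sq {W : Finset V} (ih : Ih G W.card) {I : Multiset ℕ} (h : Sm I) (h1 : I.sum < W.card) :
    Sq G W I (aS I) (bS I) :=
  ⟨(aS_bS I).2.1, h.two.1, h.two.2, ih.orc h.cls (aS_bS I).1.symm rfl ((aS_bS I).1 ▸ h1),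
    (aS_bS I).1.symm, h.cls.1, (aS_bS I).2.2⟩

theorem Ih.sd {W : Finset V} (ih : Ih G W.card) {I : Multiset ℕ} (h : Sm I)
    (h1 : I.sum + 1 < W.card) : Sd G W I (aS I) (bS I) := by
  have e := (aS_bS I).1
  refine ⟨(aS_bS I).2.1, h.two.1, h.two.2, ih.orc h.cls e.symm rfl (by omega), ?_⟩
  by_cases h4 : 4 ∈ I
  · obtain ⟨I0, rfl⟩ := Multiset.exists_cons_of_mem h4
    refine Or.inl ⟨I0, rfl, by rw [bS_cons]; omega, ih.orc ⟨fun x hx => ?_, ?_⟩ ?_ ?_ (by omega)⟩
    · rcases Multiset.mem_cons.1 hx with rfl | hx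
      exacts [le_rfl, h.cls.1 x (Multiset.mem_cons_of_mem hx)]
    · have := h.cls.2
      rw [Multiset.filter_cons_of_neg _ (by omega)] at this ⊢
      exact this
    · rw [e, Multiset.sum_cons, Multiset.sum_cons]
      omega
    · rw [bS_cons, bS_cons]
      omega
  · obtain ⟨a, K, rfl, h3, hK⟩ := h
    have eK : K = Multiset.replicate K.card 3 := Multiset.eq_replicate_card.2 fun x hx =>
      (hK x hx).resolve_right fun g => h4 (Multiset.mem_cons_of_mem (g ▸ hx))
    generalize K.card = r at eK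
    subst eK
    refine Or.inr ⟨a, r, rfl, h3, fun g => h4 (g ▸ Multiset.mem_cons_self _ _),
      by rw [aS_cons, aS_rep], by rw [bS_cons, bS_rep], fun h6 he => ih.orc (Sm.cls ⟨_, _, rfl,
        by omega, fun x hx => Or.inl (Multiset.eq_of_mem_replicate hx)⟩) ?_ ?_ (by omega)⟩
    · rw [e, Multiset.sum_cons, Multiset.sum_cons, Multiset.sum_replicate, Multiset.sum_replicate,
        smul_eq_mul, smul_eq_mul]
      omega
    · rw [bS_cons, bS_cons, bS_rep, bS_rep]
      omega

/-- a minimiser of the exact size -/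
theorem Ih.exact {W S : Finset V} (ih : Ih G W.card) {I J : Multiset ℕ} (hI : Sm I) (hJ : Cls J)
    (hs : I.sum + J.sum = W.card) (hJ0 : 0 < J.sum) (hW : Hap G W (bS I + bS J))
    (h : IsMin G W (bS I) (bS J) S) (hc : S.card = I.sum) : Til G W (I + J) := by
  have c := card_sdiff_add_card_eq_card h.1
  have := (aS_bS I).1
  have := hI.two
  obtain ⟨g1, g2⟩ := h.hap hW
  have := (ih S I (by omega) hI.cls hc.symm g1).union (ih (W \ S) J (by omega) hJ (by omega) g2)
    disjoint_sdiff
  rwa [union_sdiff_of_subset h.1] at this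

/-- a minimiser that is too small for a single cycle -/
theorem Ih.kl {W S : Finset V} (ih : Ih G W.card) {a : ℕ} {M : Multiset ℕ} (hL : Cls (a ::ₘ M))
    (hM : 3 ≤ M.sum) (hs : a + M.sum = W.card) (hW : Hap G W (a / 2 + bS M))
    (h : IsMin G W (a / 2) (bS M) S) (hc : S.card < a) : Til G W (a ::ₘ M) := by
  have h3 := hL.1 a (Multiset.mem_cons_self _ _)
  obtain ⟨e1, e2, e3⟩ := aS_bS (a ::ₘ M)
  have e4 := bS_cons a M
  rw [Multiset.sum_cons] at e1
  obtain ⟨o, ho⟩ := Nat.exists_eq_add_of_le e2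
  have hd : ∀ v ∈ W, W.card + o ≤ 2 * dG G v W := fun v hv => by
    have := dG_add_dH_in (G := G) hv
    have := hW v hv
    omega
  obtain ⟨g1, g2⟩ := h.hap hW
  obtain ⟨S', x, y, k1, k2, k3, k4⟩ := kl1 h.1 h3 (by omega) hc g1 fun v hv => by
    have := hd v hv
    omega
  rcases kl2 k2 k4 (by omega) (by omega) (by
    by_cases g : o = 0
    · have := e3 (by omega) a (Multiset.mem_cons_self _ _)
      omega
    · omega) hd with ⟨u, hu, hu', k5⟩ | ⟨k5, k6⟩
  · have s1 : insert u S' ⊆ W := insert_subset hu k2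
    have c1 := card_sdiff_add_card_eq_card s1
    have c2 := card_insert_of_notMem hu'
    exact (ih (W \ insert u S') M (by omega) (hL.mono (Multiset.le_cons_self _ _)) (by omega)
      (g2.mono (sdiff_subset_sdiff subset_rfl (k1.trans (subset_insert _ _))))).add k5 (by omega)
      disjoint_sdiff (union_sdiff_of_subset s1).symm
  · have c1 := card_sdiff_add_card_eq_card k2
    have := til_prism hL.1 (e3 (by omega)) disjoint_sdiff k6 (by rw [Multiset.sum_cons]; omega)
    rwa [union_sdiff_of_subset k2] at this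

/-- moving the short cycles one by one from the second side to the first -/
theorem Ih.walk {W : Finset V} (ih : Ih G W.card) {J : Multiset ℕ} (hJ : Sm J) (M : Multiset ℕ) :
    (∀ x ∈ M, x = 3 ∨ x = 4) → ∀ I, Sm I → I.sum + (M + J).sum = W.card →
      Hap G W (bS I + bS (M + J)) → (∃ S, IsMin G W (bS I) (bS (M + J)) S ∧ I.sum < S.card) →
      Til G W (I + (M + J)) ∨ ∃ S, IsMin G W (bS (M + I)) (bS J) S ∧ (M + I).sum < S.card := by
  induction M using Multiset.induction_on with
  | empty =>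
    intro _ I _ _ _ h
    rw [zero_add] at h
    rw [zero_add I]
    exact Or.inr h
  | cons m M hM =>
    intro h34 I hI hs hW ⟨S0, h0, c0⟩
    have hm := h34 m (Multiset.mem_cons_self _ _)
    have h34' : ∀ x ∈ M, x = 3 ∨ x = 4 := fun x hx => h34 x (Multiset.mem_cons_of_mem hx)
    have hI' : Sm (m ::ₘ I) := by
      have := hI.add (M := {m}) fun x hx => by rw [Multiset.mem_singleton.1 hx]; exact hm
      rwa [Multiset.singleton_add] at this
    have hJ' := hJ.add h34'
    have eL : I + (m ::ₘ M + J) = m ::ₘ (I + (M + J)) := by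
      rw [Multiset.cons_add, Multiset.add_cons]
    rw [Multiset.cons_add] at hs hW h0
    rw [Multiset.sum_cons] at hs
    rw [bS_cons] at hW h0
    have hs' : (m ::ₘ I).sum + (M + J).sum = W.card := by rw [Multiset.sum_cons]; omega
    have hW' : Hap G W (bS (m ::ₘ I) + bS (M + J)) := by
      rw [bS_cons, add_comm (m / 2), add_assoc]
      exact hW
    have a1 := (aS_bS I).1
    have a2 := (aS_bS (M + J)).1
    have a3 := hI.two
    have a4 := hJ'.two
    by_cases big : ∃ S, IsMin G W (bS (m ::ₘ I)) (bS (M + J)) S ∧ (m ::ₘ I).sum < S.card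
    · have := hM h34' _ hI' hs' hW' big
      rw [Multiset.cons_add, Multiset.add_cons] at this
      rw [eL, Multiset.cons_add m M I]
      exact this
    by_cases ex : ∃ S, IsMin G W (bS (m ::ₘ I)) (bS (M + J)) S ∧ S.card = (m ::ₘ I).sum
    · obtain ⟨S, g1, g2⟩ := ex
      rw [eL, ← Multiset.cons_add]
      exact Or.inl (ih.exact hI' hJ'.cls hs' (by omega) hW' g1 g2)
    have sm : ∀ S, IsMin G W (bS I + m / 2) (bS (M + J)) S → S.card < m + I.sum := by
      intro S g
      rw [add_comm, ← bS_cons] at g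
      rw [← Multiset.sum_cons]
      exact lt_of_le_of_ne (not_lt.1 fun g' => big ⟨S, g, g'⟩) fun g' => ex ⟨S, g, g'⟩
    rw [eL]
    left
    rcases hm with rfl | rfl
    · exact cross3 (ih.sd hI (by omega)) (ih.sd hJ' (by omega)) (by omega)
        (by rw [add_assoc, add_comm _ 1]; exact hW) (by rw [add_comm]; exact h0) (by omega)
        fun S g => by have := sm S g; omega
    · exact cross4 (ih.sq hI (by omega)) (ih.sq hJ' (by omega)) (by omega)
        (by rw [add_assoc, add_comm _ 2]; exact hW) (by rw [add_comm]; exact h0) (by omega)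
        fun S g => by have := sm S g; omega

theorem ezF (n : ℕ) : ∀ (W : Finset V) (L : Multiset ℕ), W.card = n → Cls L → L.sum = W.card →
    Hap G W (bS L) → Til G W L := by
  induction n using Nat.strong_induction_on with
  | _ n ihn =>
  intro W L hn hL hs hW
  have ih : Ih G W.card := fun X K g1 g2 g3 g4 => ihn X.card (hn ▸ g1) X K rfl g2 g3 g4
  by_cases h0 : L.card = 0
  · rw [Multiset.card_eq_zero.1 h0] at hs ⊢
    rw [card_eq_zero.1 (show W.card = 0 by simpa using hs.symm)]
    exact Til.nil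
  by_cases h1 : L.card = 1
  · obtain ⟨a, rfl⟩ := Multiset.card_eq_one.1 h1
    rw [Multiset.sum_singleton] at hs
    subst hs
    refine Til.one (dirac (hL.1 _ (Multiset.mem_singleton_self _)) ?_)
    simpa [bS] using hW
  obtain ⟨a, c, M, rfl, hM⟩ := hL.split (by omega)
  have ha := hL.1 a (Multiset.mem_cons_self _ _)
  have hc := hL.1 c (Multiset.mem_cons_of_mem (Multiset.mem_cons_self _ _))
  have sa : Sm {a} := ⟨a, 0, rfl, ha, by simp⟩
  have sc : Sm {c} := ⟨c, 0, rfl, hc, by simp⟩
  have ea : ∀ x : ℕ, M + {x} = x ::ₘ M := fun x => by rw [add_comm, Multiset.singleton_add]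
  have eb : ∀ x : ℕ, bS {x} = x / 2 := fun x => by simp [bS]
  rw [Multiset.sum_cons, Multiset.sum_cons] at hs
  rw [bS_cons] at hW
  obtain ⟨S0, m0⟩ := exists_isMin G W (a / 2) (bS (c ::ₘ M))
  have hs1 : a + (c ::ₘ M).sum = W.card := by rw [Multiset.sum_cons]; exact hs
  rcases lt_trichotomy S0.card a with g | g | g
  · exact ih.kl hL (by rw [Multiset.sum_cons]; omega) hs1 hW m0 g
  · rw [← Multiset.singleton_add]
    exact ih.exact sa (hL.mono (Multiset.le_cons_self _ _)) hs1
      (by rw [Multiset.sum_cons]; omega) (by rw [eb]; exact hW) (by rw [eb]; exact m0) g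
  rcases ih.walk sc M hM {a} sa (by rw [ea]; exact hs1) (by rw [ea, eb]; exact hW)
    ⟨S0, by rw [ea, eb]; exact m0, g⟩ with k | ⟨S, k1, k2⟩
  · rwa [ea, Multiset.singleton_add] at k
  · rw [ea, eb] at k1
    rw [ea, Multiset.sum_cons] at k2
    have c1 := card_sdiff_add_card_eq_card k1.1
    rw [Multiset.cons_swap] at hL ⊢
    refine ih.kl hL (by rw [Multiset.sum_cons]; omega) (by rw [Multiset.sum_cons]; omega) ?_
      k1.mirror (by omega)
    rw [bS_cons] at hW ⊢
    rw [add_left_comm]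
    exact hW

/-- from a tiling to a family of cycles -/
theorem Til.family {ι : Type} [DecidableEq ι] (n : ι → ℕ) (s : Finset ι) : ∀ S : Finset V,
    Til G S (s.val.map n) → ∃ F : ι → Finset V, (∀ i ∈ s, HC G (F i) ∧ (F i).card = n i ∧ F i ⊆ S) ∧
      ∀ i ∈ s, ∀ j ∈ s, i ≠ j → Disjoint (F i) (F j) := by
  induction s using Finset.induction_on with
  | empty => exact fun _ _ => ⟨fun _ => ∅, by simp, by simp⟩
  | insert i s hi ih =>
    intro S h
    obtain ⟨X, R, h1, h2, h3, rfl, h5⟩ := h.split (n i) (s.val.map n) (by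
      rw [insert_val_of_notMem hi, Multiset.map_cons])
    obtain ⟨F, g1, g2⟩ := ih R h5
    have ne : ∀ j ∈ s, j ≠ i := fun j hj e => hi (e ▸ hj)
    refine ⟨Function.update F i X, fun j hj => ?_, fun j hj l hl hjl => ?_⟩
    · rcases mem_insert.1 hj with rfl | hj
      · rw [Function.update_self]
        exact ⟨h1, h2, subset_union_left⟩
      · rw [Function.update_of_ne (ne j hj)]
        exact ⟨(g1 j hj).1, (g1 j hj).2.1, (g1 j hj).2.2.trans subset_union_right⟩
    · rcases mem_insert.1 hj with e | hj' <;> rcases mem_insert.1 hl with e' | hl'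
      · exact absurd (e.trans e'.symm) hjl
      · rw [e, Function.update_self, Function.update_of_ne (ne l hl')]
        exact h3.mono_right (g1 l hl').2.2
      · rw [e', Function.update_self, Function.update_of_ne (ne j hj')]
        exact (h3.mono_right (g1 j hj').2.2).symm
      · rw [Function.update_of_ne (ne j hj'), Function.update_of_ne (ne l hl')]
        exact g2 j hj' l hl' hjl

theorem mainF [Fintype V] (G : SimpleGraph V) [DecidableRel G.Adj] (k : ℕ) (n : Fin k → ℕ)
    (h5 : (univ.filter fun i => 5 ≤ n i).card ≤ 2) (h3 : ∀ i, 3 ≤ n i)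
    (hs : ∑ i, n i = Fintype.card V) (hdeg : ∑ i, (n i + 1) / 2 ≤ G.minDegree) :
    ∃ (v : Fin k → V) (c : ∀ i, G.Walk (v i) (v i)),
      (∀ i, (c i).IsCycle ∧ (c i).length = n i) ∧
      ∀ i j, i ≠ j → Disjoint (c i).support.toFinset (c j).support.toFinset := by
  have e1 : (univ.val.map n).sum = (univ : Finset V).card := hs
  have e2 : aS (univ.val.map n) = ∑ i, (n i + 1) / 2 := by
    unfold aS
    rw [Multiset.map_map]
    rfl
  have e3 := (aS_bS (univ.val.map n)).1
  have h := ezF (G := G) _ univ (univ.val.map n) rfl ⟨fun x hx => ?_, ?_⟩ e1 fun v hv => ?_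
  · obtain ⟨F, g1, g2⟩ := Til.family n univ univ h
    choose v c k1 k2 k3 using fun i => (g1 i (mem_univ i)).1
    refine ⟨v, c, fun i => ⟨k1 i, (k2 i).trans (g1 i (mem_univ i)).2.1⟩, fun i j hij => ?_⟩
    rw [k3, k3]
    exact g2 i (mem_univ i) j (mem_univ j) hij
  · obtain ⟨i, -, rfl⟩ := Multiset.mem_map.1 hx
    exact h3 i
  · rw [Multiset.filter_map, Multiset.card_map]
    exact h5
  · have g1 := dG_add_dH_in (G := G) hv
    have g2 : G.degree v ≤ dG G v univ := by
      rw [← G.card_neighborFinset_eq_degree]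
      exact le_dG fun b hb => ⟨mem_univ b, (G.mem_neighborFinset v b).1 hb⟩
    have g3 := G.minDegree_le_degree v
    omega

end Pool.Agent.Lib.MP_af3016_co
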