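import Pool.Agent.Lib.MP_af3016_co.F.Peel

/-! The triangle crossing with both sides happy. -/

set_option autoImplicit false
set_option linter.unusedSectionVars false

namespace Pool.Agent.Lib.MP_af3016_co

open Finset SimpleGraph

variable {V : Type} [DecidableEq V] {G : SimpleGraph V}

/-- the situation when no triangle has one vertex in `R` and two in `P` -/
structure C0 (G : SimpleGraph V) (R P : Finset V) (α β α' β' : ℕ) : Prop where
  hd : Disjoint R P
  cR : R.card = α + β + 1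
  cP : P.card = α' + β' + 2
  hP : Hap G P β'
  deg : ∀ v, v ∈ R ∨ v ∈ P → dH G v R + dH G v P ≤ β + β'
  ind : ∀ a ∈ R, ∀ z ∈ P, ∀ z' ∈ P, G.Adj a z → G.Adj a z' → ¬G.Adj z z'
  le : β ≤ α
  le' : β' ≤ α'
  two : 2 ≤ α

section

variable {R P : Finset V} {α β α' β' : ℕ}

theorem c0_three {x y w : V} (h1 : ∀ a ∈ R, G.Adj x a → ¬G.Adj y a)
    (h2 : ∀ a ∈ R, G.Adj x a → ¬G.Adj w a) (h3 : ∀ a ∈ R, G.Adj y a → ¬G.Adj w a) :
    dG G x R + dG G y R + dG G w R ≤ R.card := by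
  obtain ⟨X, x1, x2⟩ := exists_nbhd (G := G) x R
  obtain ⟨Y, y1, y2⟩ := exists_nbhd (G := G) y R
  obtain ⟨Z, z1, z2⟩ := exists_nbhd (G := G) w R
  have d1 : Disjoint X Y := Finset.disjoint_left.2 fun a ha hb =>
    h1 a ((x2 a).1 ha).1 ((x2 a).1 ha).2 ((y2 a).1 hb).2
  have d2 : Disjoint (X ∪ Y) Z := Finset.disjoint_left.2 fun a ha hb => by
    rcases mem_union.1 ha with ha | ha
    · exact h2 a ((x2 a).1 ha).1 ((x2 a).1 ha).2 ((z2 a).1 hb).2
    · exact h3 a ((y2 a).1 ha).1 ((y2 a).1 ha).2 ((z2 a).1 hb).2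
  rw [← x1, ← y1, ← z1, ← card_union_of_disjoint d1, ← card_union_of_disjoint d2]
  refine card_le_card fun a ha => ?_
  rcases mem_union.1 ha with ha | ha
  · rcases mem_union.1 ha with ha | ha
    exacts [((x2 a).1 ha).1, ((y2 a).1 ha).1]
  · exact ((z2 a).1 ha).1

theorem C0.c (h : C0 G R P α β α' β') {u : V} (hu : u ∈ P) :
    α + 1 + dH G u P ≤ dG G u R + β' := by
  have h1 := dG_add_dH_out (G := G) (Finset.disjoint_right.1 h.hd hu)
  have h2 := h.deg u (.inr hu)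
  have := h.cR
  omega

theorem C0.z (h : C0 G R P α β α' β') {a : V} (ha : a ∈ R) : α' + 2 ≤ dG G a P + β := by
  have h1 := dG_add_dH_out (G := G) (Finset.disjoint_left.1 h.hd ha)
  have h2 := h.deg a (.inl ha)
  have := h.cP
  omega

theorem C0.zh (h : C0 G R P α β α' β') {a z : V} (ha : a ∈ R) (hz : z ∈ P) (e : G.Adj a z) :
    dG G a P ≤ dH G z P + 1 := by
  obtain ⟨N, h1, h2⟩ := exists_non (G := G) z P
  refine (dG_le (R := insert z N) fun b hb hab => ?_).trans (h1 ▸ card_insert_le z N)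
  by_cases k : b = z
  · exact mem_insert.2 (.inl k)
  · exact mem_insert_of_mem ((h2 b).2 ⟨hb, k, h.ind a ha z hz b hb e hab⟩)

theorem C0.d (h : C0 G R P α β α' β') {y : V} (hy : y ∈ P) : α' + 2 ≤ dG G y P := by
  have h1 := dG_add_dH_in (G := G) hy
  have h2 := h.hP y hy
  have := h.cP
  omega

theorem C0.clq (h : C0 G R P α β α' β') {Q : Finset V} (hQ : Q ⊆ P) (hc : Clq G Q) :
    ∑ y ∈ Q, dG G y R ≤ α + β + 1 := by
  rw [sum_dG_comm, ← h.cR, ← mul_one R.card, ← smul_eq_mul]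
  refine sum_le_card_nsmul _ _ _ fun a ha => ?_
  obtain ⟨N, h1, h2⟩ := exists_nbhd (G := G) a Q
  rw [← h1]
  refine card_le_one.2 fun x hx y hy => by_contra fun e => ?_
  obtain ⟨x1, x2⟩ := (h2 x).1 hx
  obtain ⟨y1, y2⟩ := (h2 y).1 hy
  exact h.ind a ha x (hQ x1) y (hQ y1) x2 y2 (hc x x1 y y1 e)

theorem C0.lt (h : C0 G R P α β α' β') : α < β' := by
  classical
  obtain ⟨K, hK, hm⟩ := exists_max_image (P.powerset.filter (Clq G)) card
    ⟨∅, by simp [Clq]⟩
  simp only [mem_filter, mem_powerset, and_imp] at hK hm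
  obtain ⟨k1, k2⟩ := hK
  have cP := h.cP
  have q2 : 2 ≤ K.card := by
    obtain ⟨y, hy⟩ : P.Nonempty := card_pos.1 (by omega)
    obtain ⟨z, hz, e⟩ := exists_adj (G := G) (a := y) (S := P) (by have := h.d hy; omega)
    refine (card_pair e.ne).symm.le.trans (hm _ (by simp [insert_subset_iff, hy, hz]) ?_)
    intro a ha b hb hab
    simp only [mem_insert, mem_singleton] at ha hb
    rcases ha with rfl | rfl <;> rcases hb with rfl | rfl
    exacts [absurd rfl hab, e, e.symm, absurd rfl hab]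
  obtain ⟨q, hq⟩ : ∃ q, K.card = q + 2 := ⟨K.card - 2, by omega⟩
  have s1 := h.clq k1 k2
  have s2 : ∑ y ∈ K, dG G y (P \ K) ≤ (P \ K).card * (q + 1) := by
    rw [sum_dG_comm, ← smul_eq_mul]
    refine sum_le_card_nsmul _ _ _ fun x hx => ?_
    rw [mem_sdiff] at hx
    have e1 := dG_add_dH_out (G := G) hx.2
    by_contra e2
    have e3 := dH_eq_zero.1 (show dH G x K = 0 by omega)
    have e4 := hm (insert x K) (insert_subset hx.1 k1) fun a ha b hb hab => by
      rcases mem_insert.1 ha with ha | ha <;> rcases mem_insert.1 hb with hb | hb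
      exacts [absurd (ha.trans hb.symm) hab, ha ▸ e3 b hb (ha ▸ hab.symm),
        hb ▸ (e3 a ha (hb ▸ hab)).symm, k2 a ha b hb hab]
    rw [card_insert_of_notMem hx.2] at e4
    omega
  have s3 : K.card * (α + α' + 1) ≤ ∑ y ∈ K, (dG G y R + dG G y (P \ K) + q) := by
    rw [← smul_eq_mul]
    refine card_nsmul_le_sum _ _ _ fun y hy => ?_
    have e1 := h.c (k1 hy)
    have e2 := dG_add_dH_in (G := G) (k1 hy)
    have e3 := dG_sdiff (G := G) (a := y) k1
    have e4 := dG_add_dH_in (G := G) hy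
    omega
  rw [sum_add_distrib, sum_add_distrib, sum_const, smul_eq_mul, hq] at s3
  have s4 := card_sdiff_add_card_eq_card k1
  have l1 := h.le
  have l2 := h.le'
  by_contra e
  obtain ⟨g, rfl⟩ : ∃ g, α = β' + g := ⟨α - β', by omega⟩
  obtain ⟨o, rfl⟩ : ∃ o, α' = β' + o := ⟨α' - β', by omega⟩
  generalize (P \ K).card = m at s2 s4
  have s5 : m + q = 2 * β' + o := by omega
  have s6 : (m + q) * (q + 1) = (2 * β' + o) * (q + 1) := by rw [s5]
  nlinarith [Nat.zero_le (q * g)]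

theorem C0.z3 (h : C0 G R P α β α' β') {a : V} (ha : a ∈ R) : α' + 3 ≤ dG G a P + β' := by
  have := h.z ha
  have := h.lt
  have := h.le
  omega

theorem C0.ext (h : C0 G R P α β α' β') {a z : V} (ha : a ∈ R) (hz : z ∈ P) :
    ∃ z' ∈ P, ∃ y ∈ P, z ≠ z' ∧ G.Adj a z' ∧ G.Adj z y ∧ G.Adj z' y := by
  obtain ⟨z', h1, h2, h3⟩ := exists_adj_notMem (G := G) (a := a) (S := P) (R := {z}) (by
    have := h.z3 ha
    have := h.le'
    rw [card_singleton]
    omega)
  obtain ⟨y, h4, h5, h6⟩ := exists_common (G := G) (a := z) (b := z') (S := P) (by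
    have := h.d hz
    have := h.d h1
    have := h.le'
    have := h.cP
    omega)
  exact ⟨z', h1, y, h4, fun e => h3 (mem_singleton.2 e.symm), h2, h5, h6⟩

theorem C0.find (h : C0 G R P α β α' β') : ∃ a ∈ R, ∃ z ∈ P, ∃ y ∈ P, ∃ z' ∈ P, z ≠ z' ∧
    G.Adj a z ∧ G.Adj a z' ∧ G.Adj z y ∧ G.Adj z' y ∧ ∀ v ∈ P, dH G v P + 1 = β' →
      ¬G.Adj v z ∨ ¬G.Adj v y ∨ ¬G.Adj v z' := by
  have t1 : ∀ v ∈ P, dH G v P + 1 = β' → α ≤ dG G v R := fun v hv e => by
    have := h.c hv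
    omega
  have t2 : ∀ v ∈ P, dH G v P + 1 = β' → ∃ a ∈ R, G.Adj v a := fun v hv e =>
    exists_adj (by have := t1 v hv e; have := h.two; omega)
  have t3 : ∀ x ∈ P, ∀ y ∈ P, G.Adj x y → ∀ a ∈ R, G.Adj x a → ¬G.Adj y a :=
    fun x hx y hy e a ha e1 e2 => h.ind a ha x hx y hy e1.symm e2.symm e
  have t4 : ∀ x ∈ P, dH G x P + 1 = β' → ∀ y ∈ P, dH G y P + 1 = β' → ∀ w ∈ P,
      dH G w P + 1 = β' → G.Adj x y → G.Adj x w → ∃ a ∈ R, G.Adj y a ∧ G.Adj w a := by
    intro x hx tx y hy ty w hw tw e1 e2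
    by_contra k
    push Not at k
    have := c0_three (t3 x hx y hy e1) (t3 x hx w hw e2) k
    have := t1 x hx tx
    have := t1 y hy ty
    have := t1 w hw tw
    have := h.cR
    have := h.le
    have := h.two
    omega
  by_cases c1 : ∃ y ∈ P, dH G y P + 1 = β' ∧ ∃ y' ∈ P, dH G y' P + 1 = β' ∧ G.Adj y y' ∧
      ∃ z' ∈ P, z' ≠ y ∧ G.Adj z' y' ∧ ∃ a ∈ R, G.Adj y a ∧ G.Adj z' a
  · obtain ⟨y, hy, ty, y', hy', ty', e, z', hz, ne, e1, a, ha, e2, e3⟩ := c1
    refine ⟨a, ha, y, hy, y', hy', z', hz, ne.symm, e2.symm, e3.symm, e, e1, fun v hv tv => ?_⟩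
    by_contra k
    push Not at k
    obtain ⟨b, hb, b1, b2⟩ := t4 v hv tv y hy ty y' hy' ty' k.1 k.2.1
    exact t3 y hy y' hy' e b hb b1 b2
  push Not at c1
  by_cases c2 : ∃ t ∈ P, dH G t P + 1 = β'
  · obtain ⟨y, hy, ty⟩ := c2
    obtain ⟨a, ha, e⟩ := t2 y hy ty
    obtain ⟨z', hz, v, hv, ne, e1, e2, e3⟩ := h.ext ha hy
    refine ⟨a, ha, y, hy, v, hv, z', hz, ne, e.symm, e1, e2, e3, fun x hx tx => ?_⟩
    by_contra k
    push Not at k
    exact c1 y hy ty x hx tx k.1.symm z' hz ne.symm k.2.2.symm a ha e e1.symm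
  · push Not at c2
    obtain ⟨a, ha⟩ : R.Nonempty := card_pos.1 (by have := h.cR; omega)
    obtain ⟨z, hz, e⟩ := exists_adj (G := G) (a := a) (S := P) (by
      have := h.z3 ha
      have := h.le'
      omega)
    obtain ⟨z', hz', v, hv, ne, e1, e2, e3⟩ := h.ext ha hz
    exact ⟨a, ha, z, hz, v, hv, z', hz', ne, e, e1, e2, e3, fun x hx tx => absurd tx (c2 x hx)⟩

theorem c0_ins (y a : V) (P : Finset V) : dH G y (insert a P) ≤ dH G y P + 1 := by
  obtain ⟨N, h1, h2⟩ := exists_non (G := G) y P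
  refine (dH_le (R := insert a N) fun b hb g1 g2 => ?_).trans (h1 ▸ card_insert_le a N)
  rcases mem_insert.1 hb with k | k
  · exact mem_insert.2 (.inl k)
  · exact mem_insert_of_mem ((h2 b).2 ⟨k, g1, g2⟩)

theorem C0.peel (h : C0 G R P α β α' β') {c r : ℕ} (hc : 3 ≤ c) (e1 : α' = (c + 1) / 2 + 2 * r)
    (e2 : β' = c / 2 + r) {a : V} (ha : a ∈ R) :
    Til G (insert a P) (c ::ₘ Multiset.replicate (r + 1) 3) := by
  have z3 := h.z3 ha
  have cP := h.cP
  refine Lib.MP_af3016_co.peel hc (r + 1) P (Finset.disjoint_left.1 h.hd ha) (by omega)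
    (h.ind a ha) (by omega) (fun y hy => ?_) fun Q q1 q2 q3 => ?_
  · have := c0_ins (G := G) y a P
    have := h.hP y hy
    omega
  obtain ⟨z, hz, e⟩ := exists_adj (G := G) (a := a) (S := P) (by omega)
  have k1 := h.zh ha hz e
  have k2 := h.hP z hz
  have k3 := h.z ha
  have le := h.le
  have s1 := h.clq q1 q2
  have s2 : Q.card * (α + 2) ≤ ∑ y ∈ Q, 2 * dG G y R := by
    rw [← smul_eq_mul]
    refine card_nsmul_le_sum _ _ _ fun y hy => ?_
    have f1 := c0_ins (G := G) y a P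
    have f2 := q3 y hy
    have f3 := h.c (q1 hy)
    obtain ⟨b, hb, f4⟩ := exists_adj (G := G) (a := y) (S := R) (by omega)
    have f5 := h.zh hb (q1 hy) f4.symm
    have f6 := h.z hb
    omega
  rw [← mul_sum] at s2
  by_contra k
  have := Nat.mul_le_mul_right (α + 2) (show 4 ≤ Q.card by omega)
  omega

end

theorem case0 {W R P : Finset V} {I J : Multiset ℕ} {α β α' β' : ℕ} (sI : Sd G W I α β)
    (sJ : Sd G W J α' β') (hW : ∀ v, v ∈ W ↔ v ∈ R ∨ v ∈ P) (hd : Disjoint R P)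
    (cR : R.card = α + β + 1) (cP : P.card = α' + β' + 2) (hR : Hap G R β) (hP : Hap G P β')
    (deg : ∀ v ∈ W, dH G v W ≤ β + β') : Til G W (3 ::ₘ (I + J)) := by
  have eW : W = R ∪ P := by
    ext v
    rw [hW, mem_union]
  have RW : R ⊆ W := fun v hv => (hW v).2 (.inl hv)
  have PW : P ⊆ W := fun v hv => (hW v).2 (.inr hv)
  have dj := Finset.disjoint_left.1 hd
  have tR : ∀ a ∈ R, Til G (R.erase a) I := fun a ha =>
    sI.orc _ ((erase_subset _ _).trans RW) (by rw [card_erase_of_mem ha]; omega)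
      (hR.mono (erase_subset _ _))
  have fin : ∀ a ∈ R, ∀ Q, Q ⊆ P → ∀ m L, HC G (insert a Q) → (insert a Q).card = m →
      Til G (P \ Q) L → Til G W (m ::ₘ (I + L)) := fun a ha Q hQ m L h1 h2 h3 =>
    Til.three h1 h2 (tR a ha) h3
      (Finset.disjoint_left.2 fun v hv hv' => dj (mem_of_mem_erase hv) (mem_sdiff.1 hv').1)
      (Finset.disjoint_left.2 fun v hv hv' => (mem_insert.1 hv).elim (mem_erase.1 hv').1
        fun k => dj (mem_of_mem_erase hv') (hQ k))
      (Finset.disjoint_left.2 fun v hv hv' => (mem_insert.1 hv).elim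
        (fun k => dj ha (k ▸ (mem_sdiff.1 hv').1)) (mem_sdiff.1 hv').2)
      fun v => by
        rw [hW, mem_insert, mem_erase, mem_sdiff]
        have := @hQ v
        by_cases k : v = a
        · simp [k, ha]
        · tauto
  by_cases hA : ∀ a ∈ R, ∀ z ∈ P, ∀ z' ∈ P, G.Adj a z → G.Adj a z' → ¬G.Adj z z'
  swap
  · push Not at hA
    obtain ⟨a, ha, z, hz, z', hz', e1, e2, e3⟩ := hA
    obtain ⟨h1, h2⟩ := hc_tri e1 e3 e2.symm
    have hQ : ({z, z'} : Finset V) ⊆ P := by simp [insert_subset_iff, hz, hz']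
    refine fin a ha _ hQ 3 J h1 h2 (sJ.orc _ (sdiff_subset.trans PW) ?_ (hP.mono sdiff_subset))
    have := card_sdiff_add_card_eq_card hQ
    rw [card_pair e3.ne] at this
    omega
  have h : C0 G R P α β α' β' := ⟨hd, cR, cP, hP, fun v hv => by
    rw [← dH_union hd, ← eW]
    exact deg v ((hW v).2 hv), hA, sI.le, sJ.le, sI.two⟩
  rcases sJ.alt with ⟨J0, rfl, b2, orc⟩ | ⟨c, r, rfl, c3, -, e1, e2, -⟩
  · obtain ⟨a, ha, z, hz, y, hy, z', hz', ne, e1, e2, e3, e4, dom⟩ := h.find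
    obtain ⟨h1, h2⟩ := hc_quad e1 e3 e4.symm e2.symm (fun e => dj ha (e ▸ hy)) ne
    have hQ : ({z, y, z'} : Finset V) ⊆ P := by simp [insert_subset_iff, hz, hy, hz']
    obtain ⟨b, rfl⟩ : ∃ b, β' = b + 1 := ⟨β' - 1, by omega⟩
    have k := fin a ha _ hQ 4 _ h1 h2 (orc _ (sdiff_subset.trans PW) (by
      have := card_sdiff_add_card_eq_card hQ
      rw [card_eq_three.2 ⟨z, y, z', e3.ne, ne, e4.ne.symm, rfl⟩] at this
      omega) (hP.drop hQ fun v hv _ e => by
        rcases dom v hv (by omega) with k | k | k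
        exacts [⟨z, by simp, k⟩, ⟨y, by simp, k⟩, ⟨z', by simp, k⟩]))
    rwa [Multiset.add_cons, Multiset.cons_swap, ← Multiset.add_cons] at k
  · obtain ⟨a, ha⟩ : R.Nonempty := card_pos.1 (by omega)
    have k := (tR a ha).union (h.peel c3 e1 e2 ha) (Finset.disjoint_left.2 fun v hv hv' =>
      (mem_insert.1 hv').elim (mem_erase.1 hv).1 (dj (mem_of_mem_erase hv)))
    rw [Multiset.replicate_succ, Multiset.cons_swap, Multiset.add_cons] at k
    convert k using 1
    rw [eW, union_insert, ← insert_union, insert_erase ha]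

end Pool.Agent.Lib.MP_af3016_co
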