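import Pool.Agent.Lib.MP_af3016_co.Ham

/-! Basic notions for cycle lists with at most two lengths above four. -/

set_option autoImplicit false
set_option linter.unusedSectionVars false

namespace Pool.Agent.Lib.MP_af3016_co

open Finset SimpleGraph

variable {V : Type} [DecidableEq V] {G : SimpleGraph V}

open Classical in
/-- number of neighbours of `a` in `S` -/
noncomputable def dG (G : SimpleGraph V) (a : V) (S : Finset V) : ℕ :=
  (S.filter fun b => G.Adj a b).card

/-- every vertex of `S` has fewer than `β` non-neighbours in `S` -/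
def Hap (G : SimpleGraph V) (S : Finset V) (β : ℕ) : Prop := ∀ v ∈ S, dH G v S < β

/-- `S` is an independent set -/
def Ind (G : SimpleGraph V) (S : Finset V) : Prop := ∀ a ∈ S, ∀ b ∈ S, ¬G.Adj a b

/-- `S` is the disjoint union of cycles whose lengths form the multiset `L` -/
inductive Til (G : SimpleGraph V) : Finset V → Multiset ℕ → Prop
  | nil : Til G ∅ 0
  | cons {X S : Finset V} {L : Multiset ℕ} :
      HC G X → Disjoint X S → Til G S L → Til G (X ∪ S) (X.card ::ₘ L)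

/-- the sum of the halves, rounded down -/
def bS (L : Multiset ℕ) : ℕ := (L.map fun x => x / 2).sum

/-- the sum of the halves, rounded up -/
def aS (L : Multiset ℕ) : ℕ := (L.map fun x => (x + 1) / 2).sum

/-- all lengths are at least three and at most two of them exceed four -/
def Cls (L : Multiset ℕ) : Prop := (∀ x ∈ L, 3 ≤ x) ∧ (L.filter fun x => 5 ≤ x).card ≤ 2

/-- every happy subset of `W` of size `n` is tiled by `L` -/
def Orc (G : SimpleGraph V) (W : Finset V) (n β : ℕ) (L : Multiset ℕ) : Prop :=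
  ∀ X, X ⊆ W → X.card = n → Hap G X β → Til G X L

/-- what is used about the list of one side of a triangle crossing -/
structure Sd (G : SimpleGraph V) (W : Finset V) (I : Multiset ℕ) (α β : ℕ) : Prop where
  le : β ≤ α
  two : 2 ≤ α
  one : 1 ≤ β
  orc : Orc G W (α + β) β I
  alt : (∃ I0, I = 4 ::ₘ I0 ∧ 2 ≤ β ∧ Orc G W (α + β - 1) (β - 1) (3 ::ₘ I0)) ∨
    ∃ a r, I = a ::ₘ Multiset.replicate r 3 ∧ 3 ≤ a ∧ a ≠ 4 ∧ α = (a + 1) / 2 + 2 * r ∧
      β = a / 2 + r ∧
      (6 ≤ a → a % 2 = 0 → Orc G W (α + β + 1) β ((a - 2) ::ₘ Multiset.replicate (r + 1) 3))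

/-- what is used about the list of one side of a crossing at a cycle of length four -/
structure Sq (G : SimpleGraph V) (W : Finset V) (I : Multiset ℕ) (α β : ℕ) : Prop where
  le : β ≤ α
  two : 2 ≤ α
  one : 1 ≤ β
  orc : Orc G W (α + β) β I
  sum : I.sum = α + β
  three : ∀ x ∈ I, 3 ≤ x
  even : α = β → ∀ x ∈ I, x % 2 = 0

/-- two cliques of the same size joined by a perfect matching -/
structure Pr (G : SimpleGraph V) (R P : Finset V) : Prop where
  cR : Clq G R
  cP : Clq G P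
  card : R.card = P.card
  ex : ∀ g ∈ R, ∃ p ∈ P, G.Adj g p
  one : ∀ p ∈ P, dG G p R ≤ 1

/-- the data of the middle case of a triangle crossing -/
structure Wd (G : SimpleGraph V) (W A B T : Finset V) (α β s α' β' s' : ℕ) : Prop where
  mem : ∀ v, v ∈ W ↔ v ∈ A ∨ v ∈ T ∨ v ∈ B
  dAB : Disjoint A B
  dAT : Disjoint A T
  dBT : Disjoint B T
  cA : A.card + s = α + β + 1
  cB : B.card + s' = α' + β' + 1
  cT : T.card = s + s' + 1
  deg : ∀ v ∈ W, dH G v W ≤ β + β'
  ind : Ind G T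
  tA : ∀ t ∈ T, dG G t A = α + 1
  tB : ∀ t ∈ T, dG G t B = α' + 1
  o1 : ∀ t ∈ T, ∀ x ∈ A, ∀ u ∈ B, G.Adj t x → G.Adj t u → ¬G.Adj x u
  pA : ∀ x ∈ A, (∀ t ∈ T, ¬G.Adj t x) → dH G x A + s + 2 ≤ β
  pB : ∀ u ∈ B, (∀ t ∈ T, ¬G.Adj t u) → dH G u B + s' + 2 ≤ β'

theorem Wd.symm {W A B T : Finset V} {α β s α' β' s' : ℕ} (h : Wd G W A B T α β s α' β' s') :
    Wd G W B A T α' β' s' α β s :=
  ⟨fun v => by rw [h.mem]; tauto, h.dAB.symm, h.dBT, h.dAT, h.cB, h.cA, by rw [h.cT]; omega,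
    fun v hv => by rw [add_comm]; exact h.deg v hv, h.ind, h.tB, h.tA,
    fun t ht u hu x hx g1 g2 g3 => h.o1 t ht x hx u hu g2 g1 g3.symm, h.pB, h.pA⟩

/-- `x` has a neighbour in `T` -/
def Tn (G : SimpleGraph V) (T : Finset V) (x : V) : Prop := ∃ t ∈ T, G.Adj t x

/-- structure of the middle case when no exchange of a triangle works -/
structure Wf (G : SimpleGraph V) (A B T : Finset V) (s s' : ℕ) : Prop where
  muA : ∀ x ∈ A, Tn G T x → s' + 1 ≤ dG G x T
  muB : ∀ u ∈ B, Tn G T u → s + 1 ≤ dG G u T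
  xy : ∀ x ∈ A, ∀ u ∈ B, Tn G T x → Tn G T u → ¬G.Adj x u
  pp : ∀ x ∈ A, ∀ u ∈ B, ¬Tn G T x → ¬Tn G T u → ¬G.Adj x u
  iA : ∀ u ∈ B, Tn G T u → ∀ x ∈ A, ∀ x' ∈ A, G.Adj u x → G.Adj u x' → ¬G.Adj x x'
  iB : ∀ x ∈ A, Tn G T x → ∀ u ∈ B, ∀ u' ∈ B, G.Adj x u → G.Adj x u' → ¬G.Adj u u'

theorem Wf.symm {A B T : Finset V} {s s' : ℕ} (h : Wf G A B T s s') : Wf G B A T s' s :=
  ⟨h.muB, h.muA, fun u hu x hx g1 g2 g => h.xy x hx u hu g2 g1 g.symm,
    fun u hu x hx g1 g2 g => h.pp x hx u hu g2 g1 g.symm, h.iB, h.iA⟩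

/-- a cycle of length four on `x, x'` (first side) and `u, u'` (second side) -/
def Lk (G : SimpleGraph V) (x x' u u' : V) : Prop :=
  x ≠ x' ∧ u ≠ u' ∧ ((G.Adj x u ∧ G.Adj x u' ∧ G.Adj x' u ∧ G.Adj x' u') ∨
    (G.Adj x x' ∧ G.Adj x' u' ∧ G.Adj u' u ∧ G.Adj u x))

theorem Lk.symm {x x' u u' : V} (h : Lk G x x' u u') : Lk G u u' x x' := by
  obtain ⟨h1, h2, h3 | h3⟩ := h
  · exact ⟨h2, h1, Or.inl ⟨h3.1.symm, h3.2.2.1.symm, h3.2.1.symm, h3.2.2.2.symm⟩⟩
  · exact ⟨h2, h1, Or.inr ⟨h3.2.2.1.symm, h3.2.1.symm, h3.1.symm, h3.2.2.2.symm⟩⟩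

/-! ### Degrees -/

theorem le_dG {a : V} {S R : Finset V} (h : ∀ b ∈ R, b ∈ S ∧ G.Adj a b) : R.card ≤ dG G a S := by
  classical
  unfold dG
  apply card_le_card
  intro b hb
  simpa using h b hb

theorem dG_le {a : V} {S R : Finset V} (h : ∀ b ∈ S, G.Adj a b → b ∈ R) : dG G a S ≤ R.card := by
  classical
  unfold dG
  apply card_le_card
  intro b hb
  rw [mem_filter] at hb
  exact h b hb.1 hb.2

/-- the neighbourhood as a finset -/
theorem exists_nbhd (a : V) (S : Finset V) :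
    ∃ N : Finset V, N.card = dG G a S ∧ ∀ b, b ∈ N ↔ b ∈ S ∧ G.Adj a b := by
  classical
  exact ⟨S.filter fun b => G.Adj a b, by unfold dG; congr, fun b => mem_filter⟩

/-- the non-neighbourhood as a finset -/
theorem exists_non (a : V) (S : Finset V) :
    ∃ N : Finset V, N.card = dH G a S ∧ ∀ b, b ∈ N ↔ b ∈ S ∧ b ≠ a ∧ ¬G.Adj a b := by
  classical
  exact ⟨S.filter fun b => b ≠ a ∧ ¬G.Adj a b, by unfold dH; congr, fun b => mem_filter⟩

theorem dG_add_dH_out {a : V} {S : Finset V} (ha : a ∉ S) : dG G a S + dH G a S = S.card := by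
  obtain ⟨N, h1, h2⟩ := exists_nbhd (G := G) a S
  obtain ⟨M, g1, g2⟩ := exists_non (G := G) a S
  rw [← h1, ← g1, ← card_union_of_disjoint]
  · congr 1
    ext b
    rw [mem_union, h2, g2]
    constructor
    · tauto
    · intro hb
      have : b ≠ a := fun e => ha (e ▸ hb)
      tauto
  · rw [Finset.disjoint_left]
    intro b hb hb'
    rw [h2] at hb
    rw [g2] at hb'
    exact hb'.2.2 hb.2

theorem dG_erase_self (a : V) (S : Finset V) : dG G a (S.erase a) = dG G a S := by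
  apply le_antisymm
  · obtain ⟨N, h1, h2⟩ := exists_nbhd (G := G) a S
    rw [← h1]
    exact dG_le fun b hb hab => (h2 b).2 ⟨mem_of_mem_erase hb, hab⟩
  · obtain ⟨N, h1, h2⟩ := exists_nbhd (G := G) a (S.erase a)
    rw [← h1]
    exact dG_le fun b hb hab => (h2 b).2 ⟨mem_erase.2 ⟨hab.ne.symm, hb⟩, hab⟩

theorem dH_erase_self (a : V) (S : Finset V) : dH G a (S.erase a) = dH G a S := by
  apply le_antisymm
  · obtain ⟨N, h1, h2⟩ := exists_non (G := G) a S
    rw [← h1]
    exact dH_le fun b hb g1 g2 => (h2 b).2 ⟨mem_of_mem_erase hb, g1, g2⟩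
  · obtain ⟨N, h1, h2⟩ := exists_non (G := G) a (S.erase a)
    rw [← h1]
    exact dH_le fun b hb g1 g2 => (h2 b).2 ⟨mem_erase.2 ⟨g1, hb⟩, g1, g2⟩

theorem dG_add_dH_in {a : V} {S : Finset V} (ha : a ∈ S) :
    dG G a S + dH G a S + 1 = S.card := by
  have := dG_add_dH_out (G := G) (notMem_erase a S)
  rw [dG_erase_self, dH_erase_self, card_erase_of_mem ha] at this
  have := card_pos.2 ⟨a, ha⟩
  omega

theorem dG_mono {a : V} {S R : Finset V} (h : S ⊆ R) : dG G a S ≤ dG G a R := by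
  obtain ⟨N, h1, h2⟩ := exists_nbhd (G := G) a S
  rw [← h1]
  exact le_dG fun b hb => ⟨h ((h2 b).1 hb).1, ((h2 b).1 hb).2⟩

theorem dH_mono {a : V} {S R : Finset V} (h : S ⊆ R) : dH G a S ≤ dH G a R := by
  obtain ⟨N, h1, h2⟩ := exists_non (G := G) a S
  rw [← h1]
  exact le_dH fun b hb => ⟨h ((h2 b).1 hb).1, ((h2 b).1 hb).2⟩

theorem dG_union {a : V} {S R : Finset V} (h : Disjoint S R) :
    dG G a (S ∪ R) = dG G a S + dG G a R := by
  classical
  unfold dG
  rw [filter_union, card_union_of_disjoint (disjoint_filter_filter h)]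

theorem dH_union {a : V} {S R : Finset V} (h : Disjoint S R) :
    dH G a (S ∪ R) = dH G a S + dH G a R := by
  classical
  unfold dH
  rw [filter_union, card_union_of_disjoint (disjoint_filter_filter h)]

theorem dG_le_card (a : V) (S : Finset V) : dG G a S ≤ S.card := dG_le fun _ hb _ => hb

theorem dH_le_card (a : V) (S : Finset V) : dH G a S ≤ S.card := dH_le fun _ hb _ _ => hb

theorem dG_eq_card {a : V} {S : Finset V} (h : ∀ b ∈ S, G.Adj a b) : dG G a S = S.card :=
  le_antisymm (dG_le_card a S) (le_dG fun b hb => ⟨hb, h b hb⟩)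

theorem dH_eq_card {a : V} {S : Finset V} (h : ∀ b ∈ S, b ≠ a ∧ ¬G.Adj a b) :
    dH G a S = S.card :=
  le_antisymm (dH_le_card a S) (le_dH fun b hb => ⟨hb, h b hb⟩)

theorem dG_eq_zero {a : V} {S : Finset V} : dG G a S = 0 ↔ ∀ b ∈ S, ¬G.Adj a b := by
  obtain ⟨N, h1, h2⟩ := exists_nbhd (G := G) a S
  rw [← h1, card_eq_zero, eq_empty_iff_forall_notMem]
  exact ⟨fun h b hb g => h b ((h2 b).2 ⟨hb, g⟩), fun h b hb => h b ((h2 b).1 hb).1 ((h2 b).1 hb).2⟩

theorem dH_eq_zero {a : V} {S : Finset V} : dH G a S = 0 ↔ ∀ b ∈ S, b ≠ a → G.Adj a b := by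
  obtain ⟨N, h1, h2⟩ := exists_non (G := G) a S
  rw [← h1, card_eq_zero, eq_empty_iff_forall_notMem]
  constructor
  · intro h b hb g
    by_contra g'
    exact h b ((h2 b).2 ⟨hb, g, g'⟩)
  · intro h b hb
    exact ((h2 b).1 hb).2.2 (h b ((h2 b).1 hb).1 ((h2 b).1 hb).2.1)

theorem exists_adj {a : V} {S : Finset V} (h : 0 < dG G a S) : ∃ b ∈ S, G.Adj a b := by
  by_contra g
  push Not at g
  rw [dG_eq_zero.2 g] at h
  omega

/-- a neighbour outside a small set -/
theorem exists_adj_notMem {a : V} {S R : Finset V} (h : R.card < dG G a S) :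
    ∃ b ∈ S, G.Adj a b ∧ b ∉ R := by
  by_contra g
  push Not at g
  exact absurd (dG_le g) (by omega)

/-- a common neighbour -/
theorem exists_common {a b : V} {S : Finset V} (h : S.card < dG G a S + dG G b S) :
    ∃ c ∈ S, G.Adj a c ∧ G.Adj b c := by
  obtain ⟨N, h1, h2⟩ := exists_nbhd (G := G) a S
  obtain ⟨M, g1, g2⟩ := exists_nbhd (G := G) b S
  by_contra g
  push Not at g
  have hd : Disjoint N M := disjoint_left.2 fun c hc hc' =>
    g c ((h2 c).1 hc).1 ((h2 c).1 hc).2 ((g2 c).1 hc').2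
  have : (N ∪ M).card ≤ S.card := card_le_card fun c hc => by
    rcases mem_union.1 hc with hc | hc
    exacts [((h2 c).1 hc).1, ((g2 c).1 hc).1]
  rw [card_union_of_disjoint hd] at this
  omega

/-- removing a set lowers the non-degree by the number of removed non-neighbours -/
theorem dH_sdiff {a : V} {S R : Finset V} (h : R ⊆ S) : dH G a (S \ R) + dH G a R = dH G a S := by
  rw [← dH_union sdiff_disjoint, sdiff_union_of_subset h]

theorem dG_sdiff {a : V} {S R : Finset V} (h : R ⊆ S) : dG G a (S \ R) + dG G a R = dG G a S := by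
  rw [← dG_union sdiff_disjoint, sdiff_union_of_subset h]

theorem dH_pos {a b : V} {S : Finset V} (hb : b ∈ S) (hba : b ≠ a) (h : ¬G.Adj a b) :
    0 < dH G a S :=
  lt_of_lt_of_le (by simp) (le_dH (R := {b}) fun c hc => by
    rw [mem_singleton.1 hc]; exact ⟨hb, hba, h⟩)

/-- double counting of the edges between two sets -/
theorem sum_dG_comm (A B : Finset V) : ∑ a ∈ A, dG G a B = ∑ b ∈ B, dG G b A := by
  classical
  unfold dG
  simp only [card_filter]
  rw [sum_comm]
  exact sum_congr rfl fun b _ => sum_congr rfl fun a _ => by simp only [G.adj_comm]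

theorem Hap.mono {S R : Finset V} {β : ℕ} (h : Hap G S β) (hR : R ⊆ S) : Hap G R β :=
  fun v hv => lt_of_le_of_lt (dH_mono hR) (h v (hR hv))

/-- removing a set that contains a non-neighbour of every tight vertex lowers the level -/
theorem Hap.drop {S Q : Finset V} {β : ℕ} (h : Hap G S (β + 1)) (hQ : Q ⊆ S)
    (hd : ∀ v ∈ S, v ∉ Q → dH G v S = β → ∃ q ∈ Q, ¬G.Adj v q) : Hap G (S \ Q) β := by
  intro v hv
  rw [mem_sdiff] at hv
  have h1 := dH_sdiff (G := G) (a := v) hQ
  have h2 := h v hv.1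
  by_cases h3 : dH G v S = β
  · obtain ⟨q, hq, hn⟩ := hd v hv.1 hv.2 h3
    have := dH_pos hq (fun e => hv.2 (by rw [← e]; exact hq)) hn
    omega
  · omega

/-! ### Paths, cycles and tilings -/

theorem HP.mono {G' : SimpleGraph V} (hG : G ≤ G') {a b : V} {X : Finset V} (h : HP G a b X) :
    HP G' a b X := by
  obtain ⟨p, h1, h2⟩ := h
  exact ⟨p.mapLe hG, h1.mapLe hG, fun t => by rw [Walk.support_mapLe_eq_support, h2]⟩

theorem HP.cons {a b c : V} {X : Finset V} (h : HP G b c X) (hab : G.Adj a b) (ha : a ∉ X) :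
    HP G a c (insert a X) :=
  (HP.single a).join h (fun t ht => by rw [mem_singleton.1 ht]; exact ha) hab (by simp)

theorem HC.three {X : Finset V} (h : HC G X) : 3 ≤ X.card := by
  obtain ⟨a, c, h1, h2, -⟩ := h
  rw [← h2]
  exact h1.three_le_length

/-- a cycle opened at a prescribed vertex -/
theorem HC.open {X : Finset V} (h : HC G X) {t : V} (ht : t ∈ X) :
    ∃ p, HP G t p X ∧ G.Adj p t := by
  obtain ⟨a, c, h1, h2, h3⟩ := h
  have key : ∃ b, HP G b a X ∧ G.Adj a b := by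
    cases c with
    | nil => exact absurd h1 (by simp [Walk.IsCycle.not_of_nil])
    | @cons _ e _ hae q =>
      rw [Walk.cons_isCycle_iff] at h1
      refine ⟨e, ⟨q, h1.1, fun s => ?_⟩, hae⟩
      rw [← h3, List.mem_toFinset, Walk.support_cons, List.mem_cons]
      exact ⟨Or.inr, fun g => g.elim (fun e => e ▸ q.end_mem_support) id⟩
  obtain ⟨b, g1, g2⟩ := key
  by_cases hb : b = t
  · exact ⟨a, hb ▸ g1, hb ▸ g2⟩
  · obtain ⟨c', c, X1, X2, k1, k2, k3, k4, k5, rfl, -⟩ := g1.split (fun s => s = t) hb ⟨t, ht, rfl⟩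
    exact ⟨c', k2.join k1 (fun s hs hs' => k4 s hs' hs) g2 fun s => by rw [k5]; tauto, k3⟩

theorem HC.mono {G' : SimpleGraph V} (hG : G ≤ G') {X : Finset V} (h : HC G X) : HC G' X := by
  obtain ⟨t, ht⟩ : X.Nonempty := card_pos.1 (by have := h.three; omega)
  obtain ⟨p, h1, h2⟩ := h.open ht
  exact (h1.mono hG).cycle (hG h2) h.three

/-- a path only depends on the edges inside its vertex set -/
theorem HP.congr {G' : SimpleGraph V} {a b : V} {X : Finset V} (h : HP G a b X)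
    (hG : ∀ x ∈ X, ∀ y ∈ X, G.Adj x y → G'.Adj x y) : HP G' a b X := by
  obtain ⟨p, h1, h2⟩ := h
  have he : ∀ e ∈ p.edges, e ∈ G'.edgeSet := by
    intro e he
    induction e using Sym2.ind with
    | _ x y =>
      exact hG x ((h2 x).1 (p.fst_mem_support_of_mem_edges he)) y
        ((h2 y).1 (p.snd_mem_support_of_mem_edges he)) (p.adj_of_mem_edges he)
  exact ⟨p.transfer G' he, h1.transfer he, fun t => by rw [Walk.support_transfer, h2]⟩

/-- a path without its first vertex -/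
theorem HP.tail {a b : V} {X : Finset V} (h : HP G a b X) (hab : a ≠ b) :
    ∃ c, G.Adj a c ∧ HP G c b (X.erase a) := by
  obtain ⟨p, h1, h2⟩ := h
  cases p with
  | nil => exact absurd rfl hab
  | @cons _ c _ hac q =>
    rw [Walk.cons_isPath_iff] at h1
    refine ⟨c, hac, q, h1.1, fun t => ?_⟩
    rw [mem_erase, ← h2, Walk.support_cons, List.mem_cons]
    exact ⟨fun g => ⟨fun e => h1.2 (e ▸ g), Or.inr g⟩, fun g => g.2.resolve_left g.1⟩

/-- the ends of a path with at least two vertices differ -/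
theorem HP.ne {a b : V} {X : Finset V} (h : HP G a b X) (h2 : 2 ≤ X.card) : a ≠ b := by
  rintro rfl
  have : X.card ≤ 1 := card_le_one.2 fun x hx y hy => (h.eq_single x hx).trans (h.eq_single y hy).symm
  omega

/-- a cycle without a prescribed vertex -/
theorem HC.del {X : Finset V} (h : HC G X) {t : V} (ht : t ∈ X) :
    ∃ c p, c ≠ p ∧ G.Adj t c ∧ G.Adj t p ∧ HP G c p (X.erase t) := by
  obtain ⟨p, h1, h2⟩ := h.open ht
  obtain ⟨c, g1, g2⟩ := h1.tail h2.ne.symm
  have := h.three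
  exact ⟨c, p, g2.ne (by rw [card_erase_of_mem ht]; omega), g1, h2.symm, g2⟩

/-- a path closed by a common neighbour of its ends -/
theorem HP.close {c p t : V} {S : Finset V} (h : HP G c p S) (hcp : c ≠ p) (ht : t ∉ S)
    (h1 : G.Adj t c) (h2 : G.Adj t p) : HC G (insert t S) := by
  refine (h.cons h1 ht).cycle h2.symm ?_
  rw [card_insert_of_notMem ht]
  have := one_lt_card.2 ⟨c, h.left, p, h.right, hcp⟩
  omega

theorem HC.congr {G' : SimpleGraph V} {X : Finset V} (h : HC G X)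
    (hG : ∀ x ∈ X, ∀ y ∈ X, G.Adj x y → G'.Adj x y) : HC G' X := by
  obtain ⟨t, ht⟩ : X.Nonempty := card_pos.1 (by have := h.three; omega)
  obtain ⟨p, h1, h2⟩ := h.open ht
  exact (h1.congr hG).cycle (hG p h1.right t ht h2) h.three

theorem Clq.hc {X : Finset V} (h : Clq G X) (h3 : 3 ≤ X.card) : HC G X := by
  obtain ⟨a, ha, b, hb, hab⟩ := one_lt_card.1 (show 1 < X.card by omega)
  exact (HP.clique _ X a b rfl h ha hb hab).cycle (h b hb a ha hab.symm) h3

theorem hc_tri {a b c : V} (hab : G.Adj a b) (hbc : G.Adj b c) (hca : G.Adj c a) :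
    HC G {a, b, c} ∧ ({a, b, c} : Finset V).card = 3 := by
  have h3 : ({a, b, c} : Finset V).card = 3 :=
    card_eq_three.2 ⟨a, b, c, hab.ne, hca.ne.symm, hbc.ne, rfl⟩
  refine ⟨HP.cycle (a := a) (b := c) ?_ hca h3.ge, h3⟩
  exact ((HP.single c).cons hbc (by simp [hbc.ne])).cons hab (by simp [hab.ne, hca.ne.symm])

theorem hc_quad {a b c d : V} (hab : G.Adj a b) (hbc : G.Adj b c) (hcd : G.Adj c d)
    (hda : G.Adj d a) (hac : a ≠ c) (hbd : b ≠ d) :
    HC G {a, b, c, d} ∧ ({a, b, c, d} : Finset V).card = 4 := by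
  have h4 : ({a, b, c, d} : Finset V).card = 4 := by
    rw [card_insert_of_notMem (by simp [hab.ne, hac, hda.ne.symm]),
      card_eq_three.2 ⟨b, c, d, hbc.ne, hbd, hcd.ne, rfl⟩]
  refine ⟨HP.cycle (a := a) (b := d) ?_ hda (by omega), h4⟩
  exact (((HP.single d).cons hcd (by simp [hcd.ne])).cons hbc (by simp [hbc.ne, hbd])).cons hab
    (by simp [hab.ne, hac, hda.ne.symm])

theorem Til.add {X S W : Finset V} {L : Multiset ℕ} {m : ℕ} (h : Til G S L) (hX : HC G X)
    (hm : X.card = m) (hd : Disjoint X S) (hW : W = X ∪ S) : Til G W (m ::ₘ L) :=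
  hW ▸ hm ▸ Til.cons hX hd h

theorem Til.union {S R : Finset V} {L M : Multiset ℕ} (h : Til G S L) (g : Til G R M)
    (hd : Disjoint S R) : Til G (S ∪ R) (L + M) := by
  induction h with
  | nil => simpa using g
  | cons h1 h2 _ ih =>
    rw [disjoint_union_left] at hd
    rw [union_assoc, Multiset.cons_add]
    exact Til.cons h1 (disjoint_union_right.2 ⟨h2, hd.1⟩) (ih hd.2)

theorem Til.one {X : Finset V} (h : HC G X) : Til G X {X.card} := by
  simpa using Til.cons h (disjoint_empty_right X) Til.nil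

/-- a cycle together with two tiled sets -/
theorem Til.three {X S R W : Finset V} {L M : Multiset ℕ} {m : ℕ} (hX : HC G X)
    (hm : X.card = m) (h : Til G S L) (g : Til G R M) (h1 : Disjoint S R) (h2 : Disjoint X S)
    (h3 : Disjoint X R) (hW : ∀ v, v ∈ W ↔ v ∈ X ∨ v ∈ S ∨ v ∈ R) : Til G W (m ::ₘ (L + M)) :=
  (h.union g h1).add hX hm (disjoint_union_right.2 ⟨h2, h3⟩) (by
    ext v
    rw [hW, mem_union, mem_union])

theorem Til.card {S : Finset V} {L : Multiset ℕ} (h : Til G S L) : S.card = L.sum := by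
  induction h with
  | nil => simp
  | cons _ h2 _ ih => rw [card_union_of_disjoint h2, ih, Multiset.sum_cons]

/-- any member of the list can be split off -/
theorem Til.split {S : Finset V} {L : Multiset ℕ} (h : Til G S L) :
    ∀ (m : ℕ) (M : Multiset ℕ), L = m ::ₘ M →
      ∃ X R, HC G X ∧ X.card = m ∧ Disjoint X R ∧ S = X ∪ R ∧ Til G R M := by
  induction h with
  | nil => intro m M e; exact absurd e.symm Multiset.cons_ne_zero
  | @cons X S L h1 h2 h3 ih =>
    intro m M e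
    rcases Multiset.cons_eq_cons.1 e with ⟨e1, e2⟩ | ⟨-, K, e1, e2⟩
    · exact ⟨X, S, h1, e1, h2, rfl, e2 ▸ h3⟩
    · obtain ⟨Y, R, g1, g2, g3, rfl, g5⟩ := ih m K e1
      rw [disjoint_union_right] at h2
      refine ⟨Y, X ∪ R, g1, g2, disjoint_union_right.2 ⟨h2.1.symm, g3⟩, ?_,
        e2 ▸ Til.cons h1 h2.2 g5⟩
      rw [union_left_comm]

/-! ### The potential -/

/-- the contribution of one side to the potential -/
noncomputable def Ps (G : SimpleGraph V) (A : Finset V) (β : ℕ) : ℤ :=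
  (eH G A : ℤ) - 2 * β * A.card

/-- `S` minimises the potential of the bipartitions of `W` at the levels `β`, `β'` -/
def IsMin (G : SimpleGraph V) (W : Finset V) (β β' : ℕ) (S : Finset V) : Prop :=
  S ⊆ W ∧ ∀ R, R ⊆ W → Ps G S β + Ps G (W \ S) β' ≤ Ps G R β + Ps G (W \ R) β'

end Pool.Agent.Lib.MP_af3016_co
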