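import Pool.Agent.Lib.MP_af3016_co.F.Tools

/-! Peeling of triangles. -/

set_option autoImplicit false
set_option linter.unusedSectionVars false

namespace Pool.Agent.Lib.MP_af3016_co

open Finset SimpleGraph

variable {V : Type} [DecidableEq V] {G : SimpleGraph V}

/-- a triangle with the largest number of marked vertices -/
theorem peel_tri {P : Finset V} (t : V → Prop) (h0 : ∃ D, D ⊆ P ∧ D.card = 3 ∧ Clq G D)
    (h4 : ∀ Q, Q ⊆ P → Clq G Q → (∀ y ∈ Q, t y) → Q.card ≤ 3) :
    ∃ D, D ⊆ P ∧ D.card = 3 ∧ Clq G D ∧ ∀ y ∈ P, y ∉ D → t y → ∃ q ∈ D, ¬G.Adj y q := by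
  classical
  obtain ⟨D0, a1, a2, a3⟩ := h0
  obtain ⟨D, hD, hmax⟩ := exists_max_image ((powersetCard 3 P).filter fun D => Clq G D)
    (fun D => (D.filter t).card) ⟨D0, mem_filter.2 ⟨mem_powersetCard.2 ⟨a1, a2⟩, a3⟩⟩
  rw [mem_filter, mem_powersetCard] at hD
  obtain ⟨⟨d1, d2⟩, d3⟩ := hD
  refine ⟨D, d1, d2, d3, fun y hy hyD hty => ?_⟩
  by_contra hn
  push Not at hn
  have hq : Clq G (insert y D) := by
    intro a ha b hb hab
    rcases mem_insert.1 ha with rfl | ha'
    · exact hn b ((mem_insert.1 hb).resolve_left hab.symm)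
    · rcases mem_insert.1 hb with rfl | hb'
      · exact (hn a ha').symm
      · exact d3 a ha' b hb' hab
  by_cases hall : ∀ d ∈ D, t d
  · have := h4 (insert y D) (insert_subset hy d1) hq fun z hz => by
      rcases mem_insert.1 hz with rfl | hz
      exacts [hty, hall z hz]
    rw [card_insert_of_notMem hyD] at this
    omega
  · push Not at hall
    obtain ⟨d, hd, htd⟩ := hall
    have hs : insert y (D.erase d) ⊆ insert y D := insert_subset_insert _ (erase_subset _ _)
    have h1 := hmax (insert y (D.erase d)) (mem_filter.2 ⟨mem_powersetCard.2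
      ⟨hs.trans (insert_subset hy d1), by
        rw [card_insert_of_notMem fun h => hyD (mem_of_mem_erase h), card_erase_of_mem hd, d2]⟩,
      fun a ha b hb => hq a (hs ha) b (hs hb)⟩)
    have h2 : insert y (D.filter t) ⊆ (insert y (D.erase d)).filter t := by
      intro z hz
      rcases mem_insert.1 hz with rfl | hz
      · exact mem_filter.2 ⟨mem_insert_self _ _, hty⟩
      · rw [mem_filter] at hz
        exact mem_filter.2 ⟨mem_insert_of_mem (mem_erase.2 ⟨fun e => htd (e ▸ hz.2), hz.1⟩), hz.2⟩
    have h3 := card_le_card h2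
    rw [card_insert_of_notMem fun h => hyD (mem_filter.1 h).1] at h3
    omega

/-- peeling of triangles -/
theorem peel {c : ℕ} (hc : 3 ≤ c) {u : V} (k : ℕ) : ∀ P : Finset V, u ∉ P →
    P.card + 1 = c + 3 * k →
    (∀ z ∈ P, ∀ z' ∈ P, G.Adj u z → G.Adj u z' → ¬G.Adj z z') → k + 2 ≤ dG G u P →
    (∀ y ∈ P, dH G y (insert u P) < c / 2 + k) →
    (∀ Q, Q ⊆ P → Clq G Q → (∀ y ∈ Q, c / 2 ≤ dH G y (insert u P)) → Q.card ≤ 3) →
    Til G (insert u P) (c ::ₘ Multiset.replicate k 3) := by
  induction k with
  | zero =>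
    intro P hu hcard _ hdeg hH _
    have h := Til.one (lemQ hu (by omega) fun y hy => by rw [hcard]; exact hH y hy)
    rw [card_insert_of_notMem hu, hcard] at h
    exact h
  | succ k ih =>
    intro P hu hcard hind hdeg hH hK
    have d1 : ∀ y ∈ P, (c + 1) / 2 + 2 * k + 1 ≤ dG G y P := fun y hy => by
      have := dG_add_dH_in (G := G) hy
      have := dH_mono (G := G) (a := y) (subset_insert u P)
      have := hH y hy
      omega
    have d2 : ∀ y ∈ P, ¬G.Adj u y → (c + 1) / 2 + 2 * k + 2 ≤ dG G y P := fun y hy hn => by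
      have := dG_add_dH_in (G := G) hy
      have := dH_insert_non (G := G) hu (fun e : u = y => hu (e ▸ hy)) fun g => hn g.symm
      have := hH y hy
      omega
    obtain ⟨y, hy⟩ : P.Nonempty := card_pos.1 (by omega)
    obtain ⟨y', hy', hyy⟩ := exists_adj (G := G) (a := y) (S := P) (by have := d1 y hy; omega)
    obtain ⟨w, hw, w1, w2⟩ := exists_common (G := G) (a := y) (b := y') (S := P) (by
      have := d1 y hy
      have := d1 y' hy'
      by_cases g : G.Adj u y
      · have := d2 y' hy' fun g' => hind y hy y' hy' g g' hyy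
        omega
      · have := d2 y hy g
        omega)
    obtain ⟨D, hD, hD3, hDq, hDt⟩ := peel_tri (G := G) (P := P)
      (fun y => dH G y (insert u P) = c / 2 + k)
      ⟨{y, y', w}, by simp [insert_subset_iff, hy, hy', hw], (hc_tri hyy w2 w1.symm).2, by
        intro a ha b hb hab
        simp only [mem_insert, mem_singleton] at ha hb
        rcases ha with rfl | rfl | rfl <;> rcases hb with rfl | rfl | rfl
        exacts [absurd rfl hab, hyy, w1, hyy.symm, absurd rfl hab, w2, w1.symm, w2.symm,
          absurd rfl hab]⟩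
      fun Q h1 h2 h3 => hK Q h1 h2 fun y hy => by have := h3 y hy; omega
    have huD : u ∉ D := fun h => hu (hD h)
    have hsub : insert u (P \ D) ⊆ insert u P := insert_subset_insert _ sdiff_subset
    have hT := ih (P \ D) (fun h => hu (mem_sdiff.1 h).1)
      (by have := card_sdiff_add_card_eq_card hD; omega)
      (fun z hz z' hz' => hind z (mem_sdiff.1 hz).1 z' (mem_sdiff.1 hz').1)
      (by
        have h1 := dG_sdiff (G := G) (a := u) hD
        obtain ⟨N, n1, n2⟩ := exists_nbhd (G := G) u D
        have h2 : N.card ≤ 1 := card_le_one.2 fun a ha b hb => by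
          by_contra hab
          obtain ⟨a1, a2⟩ := (n2 a).1 ha
          obtain ⟨b1, b2⟩ := (n2 b).1 hb
          exact hind a (hD a1) b (hD b1) a2 b2 (hDq a a1 b b1 hab)
        omega)
      (fun z hz => by
        rw [mem_sdiff] at hz
        have h1 := dH_sdiff (G := G) (a := z) (hD.trans (subset_insert u P))
        rw [insert_sdiff_of_notMem _ huD] at h1
        have h2 := hH z hz.1
        by_cases h3 : dH G z (insert u P) = c / 2 + k
        · obtain ⟨q, hq, hn⟩ := hDt z hz.1 hz.2 h3
          have := dH_pos hq (fun e : q = z => hz.2 (e ▸ hq)) hn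
          omega
        · omega)
      fun Q h1 h2 h3 => hK Q (h1.trans sdiff_subset) h2 fun y hy => (h3 y hy).trans (dH_mono hsub)
    rw [Multiset.replicate_succ, Multiset.cons_swap]
    refine hT.add (hDq.hc hD3.ge) hD3 ?_ ?_
    · exact disjoint_insert_right.2 ⟨huD, disjoint_sdiff⟩
    · rw [union_insert, union_sdiff_of_subset hD]

end Pool.Agent.Lib.MP_af3016_co
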