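import Pool.Agent.Lib.MP_af3016_co.F.Defs

/-! Degree conditions for spanning paths and cycles. -/

set_option autoImplicit false
set_option linter.unusedSectionVars false

namespace Pool.Agent.Lib.MP_af3016_co

open Finset SimpleGraph

variable {V : Type} [DecidableEq V] {G : SimpleGraph V}

theorem tools_erase (s c : V) (S : Finset V) :
    dG G s S ≤ dG G s (S.erase c) + 1 ∧ (¬G.Adj s c → dG G s S ≤ dG G s (S.erase c)) := by
  obtain ⟨N, h1, h2⟩ := exists_nbhd (G := G) s (S.erase c)
  rw [← h1]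
  refine ⟨(dG_le (R := insert c N) fun b hb g => ?_).trans (card_insert_le _ _),
    fun h => dG_le fun b hb g => (h2 b).2 ⟨mem_erase.2 ⟨fun e => h (e ▸ g), hb⟩, g⟩⟩
  by_cases e : b = c
  · exact mem_insert.2 (.inl e)
  · exact mem_insert_of_mem ((h2 b).2 ⟨mem_erase.2 ⟨e, hb⟩, g⟩)

/-- two consecutive vertices of a path that are adjacent to two given centres -/
theorem tools_cross (s t b : V) (k : ℕ) : ∀ (a : V) (X : Finset V), X.card = k → HP G a b X →
    X.card ≤ dG G s (X.erase a) + dG G t (X.erase b) →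
    ∃ c' c X1 X2, HP G a c' X1 ∧ HP G c b X2 ∧ (∀ u ∈ X1, u ∉ X2) ∧
      (∀ u, u ∈ X ↔ u ∈ X1 ∨ u ∈ X2) ∧ G.Adj t c' ∧ G.Adj s c := by
  induction k with
  | zero =>
    intro a X hk h
    exact absurd (card_pos.2 ⟨a, h.left⟩) (by omega)
  | succ k ih =>
    intro a X hk h hd
    have e1 := card_erase_of_mem h.left
    by_cases hab : a = b
    · subst hab
      have h1 : X.card ≤ 1 := card_le_one.2 fun x hx y hy =>
        (h.eq_single x hx).trans (h.eq_single y hy).symm
      have h2 := dG_le_card (G := G) s (X.erase a)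
      have h3 := dG_le_card (G := G) t (X.erase a)
      omega
    obtain ⟨e, hae, g⟩ := h.tail hab
    have hX : ∀ u, u ∈ X ↔ u = a ∨ u ∈ X.erase a := fun u => by
      rw [← mem_insert, insert_erase h.left]
    by_cases hc : G.Adj t a ∧ G.Adj s e
    · exact ⟨a, e, {a}, X.erase a, HP.single a, g, by simp, by simpa using hX, hc⟩
    have k1 := tools_erase (G := G) s e (X.erase a)
    have k2 := tools_erase (G := G) t a (X.erase b)
    rw [erase_right_comm] at k2
    obtain ⟨c', c, X1, X2, g1, g2, g3, g4, g5⟩ := ih e (X.erase a) (by omega) g (by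
      rcases not_and_or.1 hc with hc | hc
      · have := k2.2 hc
        omega
      · have := k1.2 hc
        omega)
    have ha := not_or.1 ((g4 a).not.1 (notMem_erase a X))
    refine ⟨c', c, insert a X1, X2, g1.cons hae ha.1, g2, fun u hu => ?_, fun u => ?_, g5⟩
    · rcases mem_insert.1 hu with rfl | hu
      exacts [ha.2, g3 u hu]
    · rw [hX, g4, mem_insert, or_assoc]

/-- Ore's lemma for a spanning path -/
theorem ore {a b : V} {X : Finset V} (h : HP G a b X) (h3 : 3 ≤ X.card)
    (hd : X.card ≤ dG G a X + dG G b X) : HC G X := by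
  obtain ⟨c', c, X1, X2, g1, g2, g3, g4, g5, g6⟩ := tools_cross a b b _ a X rfl h
    (by rwa [dG_erase_self, dG_erase_self])
  exact (g1.join g2.symm g3 g5.symm g4).cycle g6.symm h3

/-- removal of one edge whose ends have large degrees -/
theorem tools_edge {x y : V} {X : Finset V} (h : HC (G ⊔ edge x y) X) (hx : x ∈ X) (hxy : x ≠ y)
    (hd : X.card ≤ dG G x X + dG G y X) : HC G X := by
  obtain ⟨c, p, h1, h2, h3, h4⟩ := h.del hx
  have h5 : HP G c p (X.erase x) := h4.congr fun u hu v hv g => by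
    rcases g with g | g
    · exact g
    · rw [edge_adj] at g
      rcases g.1 with e | e
      exacts [absurd e.1 (mem_erase.1 hu).1, absurd e.2 (mem_erase.1 hv).1]
  have key : ∀ u, (G ⊔ edge x y).Adj x u → u ≠ y → G.Adj x u := fun u g hu => by
    rcases g with g | g
    · exact g
    · rw [edge_adj] at g
      rcases g.1 with e | e
      exacts [absurd e.2 hu, absurd e.1 hxy]
  have e := insert_erase hx
  by_cases hc : c = y
  · subst hc
    exact ore (e ▸ h5.symm.cons (key p h3 h1.symm) (notMem_erase x X)) h.three hd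
  by_cases hp : p = y
  · subst hp
    exact ore (e ▸ h5.cons (key c h2 h1) (notMem_erase x X)) h.three hd
  exact e ▸ h5.close h1 (notMem_erase x X) (key c h2 hc) (key p h3 hp)

theorem tools_dG {G' : SimpleGraph V} (hG : G ≤ G') (a : V) (S : Finset V) :
    dG G a S ≤ dG G' a S := by
  obtain ⟨N, h1, h2⟩ := exists_nbhd (G := G') a S
  rw [← h1]
  exact dG_le fun b hb g => (h2 b).2 ⟨hb, hG g⟩

/-- the closure lemma of Bondy and Chvatal -/
theorem closure {G' : SimpleGraph V} {X : Finset V} (h : HC G' X)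
    (hd : ∀ x ∈ X, ∀ y ∈ X, G'.Adj x y → ¬G.Adj x y → X.card ≤ dG G x X + dG G y X) :
    HC G X := by
  induction hk : eH G X using Nat.strong_induction_on generalizing G with
  | _ k ih =>
    by_cases hall : ∀ x ∈ X, ∀ y ∈ X, G'.Adj x y → G.Adj x y
    · exact h.congr hall
    push Not at hall
    obtain ⟨x, hx, y, hy, h1, h2⟩ := hall
    have hG : G ≤ G ⊔ edge x y := le_sup_left
    refine tools_edge (ih _ ?_ (fun u hu v hv g1 g2 => ?_) rfl) hx h1.ne (hd x hx y hy h1 h2)
    · rw [← hk]
      refine sum_lt_sum (fun a ha => ?_) ⟨x, hx, ?_⟩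
      · have k1 := dG_add_dH_in (G := G) ha
        have k2 := dG_add_dH_in (G := G ⊔ edge x y) ha
        have k3 := tools_dG hG a X
        omega
      · obtain ⟨N, k1, k2⟩ := exists_nbhd (G := G) x X
        have k3 : (insert y N).card ≤ dG (G ⊔ edge x y) x X := le_dG fun b hb => by
          rcases mem_insert.1 hb with rfl | hb
          · exact ⟨hy, Or.inr ((edge_adj _ _ _ _).2 ⟨.inl ⟨rfl, rfl⟩, h1.ne⟩)⟩
          · exact ⟨((k2 b).1 hb).1, hG ((k2 b).1 hb).2⟩
        rw [card_insert_of_notMem fun g => h2 ((k2 y).1 g).2] at k3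
        have k4 := dG_add_dH_in (G := G) hx
        have k5 := dG_add_dH_in (G := G ⊔ edge x y) hx
        omega
    · exact (hd u hu v hv g1 fun g => g2 (hG g)).trans
        (add_le_add (tools_dG hG u X) (tools_dG hG v X))

theorem dirac {X : Finset V} (h3 : 3 ≤ X.card) (h : Hap G X (X.card / 2)) : HC G X := by
  refine closure (G' := ⊤) (Clq.hc (fun a _ b _ e => e) h3) fun x hx y hy _ _ => ?_
  have k1 := dG_add_dH_in (G := G) hx
  have k2 := dG_add_dH_in (G := G) hy
  have k3 := h x hx
  have k4 := h y hy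
  omega

/-- one vertex of small degree is allowed -/
theorem lemQ {P : Finset V} {u : V} (hu : u ∉ P) (h2 : 2 ≤ dG G u P)
    (h : ∀ y ∈ P, dH G y (insert u P) < (P.card + 1) / 2) : HC G (insert u P) := by
  obtain ⟨N, k1, k2⟩ := exists_nbhd (G := G) u P
  obtain ⟨c, hc, p, hp, hcp⟩ := one_lt_card.1 (show 1 < N.card by omega)
  rw [k2] at hc hp
  let G' : SimpleGraph V := G ⊔ SimpleGraph.fromRel fun a b => a ∈ P ∧ b ∈ P
  refine closure (G' := G') ((HP.clique _ P c p rfl (fun a ha b hb e => Or.inr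
    ((fromRel_adj _ _ _).2 ⟨e, .inl ⟨ha, hb⟩⟩)) hc.1 hp.1 hcp).close hcp hu (Or.inl hc.2)
      (Or.inl hp.2)) fun x hx y hy g1 g2 => ?_
  have g3 : x ∈ P ∧ y ∈ P := by
    rcases ((fromRel_adj _ _ _).1 (g1.resolve_left g2)).2 with e | e
    exacts [e, e.symm]
  have k3 := dG_add_dH_in (G := G) hx
  have k4 := dG_add_dH_in (G := G) hy
  have k5 := h x g3.1
  have k6 := h y g3.2
  have k7 := card_insert_of_notMem hu
  omega

end Pool.Agent.Lib.MP_af3016_co
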