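import Pool.Agent.Lib.MP_af3016_co.F.Defs

/-! The middle case of a triangle crossing: exchanges of one triangle. -/

set_option autoImplicit false
set_option linter.unusedSectionVars false

namespace Pool.Agent.Lib.MP_af3016_co

open Finset SimpleGraph

variable {V : Type} [DecidableEq V] {G : SimpleGraph V}

variable {W A B T : Finset V} {I J : Multiset ℕ} {α β s α' β' s' : ℕ}

theorem Wd.ha (h : Wd G W A B T α β s α' β' s') (hle : β' ≤ α') {T' : Finset V} (hT : T' ⊆ T)
    (hc : T'.card ≤ s + 1) : ∀ x ∈ A, dH G x (A ∪ T') < β := by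
  intro x hx
  have d1 : Disjoint A T' := h.dAT.mono_right hT
  by_cases k : ∀ t ∈ T, ¬G.Adj t x
  · have k1 := h.pA x hx k
    have k2 := dH_le_card (G := G) x T'
    rw [dH_union d1]
    omega
  push Not at k
  obtain ⟨t, ht, k⟩ := k
  obtain ⟨N, k1, k2⟩ := exists_nbhd (G := G) t B
  have k3 : N.card ≤ dH G x B := le_dH fun b hb => ⟨((k2 b).1 hb).1,
    fun e => Finset.disjoint_left.1 h.dAB hx (e ▸ ((k2 b).1 hb).1),
    h.o1 t ht x hx b ((k2 b).1 hb).1 k ((k2 b).1 hb).2⟩
  have k4 : dH G x (A ∪ T' ∪ B) ≤ dH G x W := dH_mono fun v hv => by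
    rw [mem_union, mem_union] at hv
    rw [h.mem]
    rcases hv with (hv | hv) | hv
    exacts [.inl hv, .inr (.inl (hT hv)), .inr (.inr hv)]
  rw [dH_union (disjoint_union_left.2 ⟨h.dAB, (h.dBT.mono_right hT).symm⟩)] at k4
  have k5 := h.deg x ((h.mem x).2 (.inl hx))
  have k6 := h.tB t ht
  omega

theorem Wd.ht (h : Wd G W A B T α β s α' β' s') {T' : Finset V} (hT : T' ⊆ T) :
    ∀ t ∈ T', dH G t (A ∪ T') + s + 1 = β + T'.card := by
  intro t ht
  have k1 := dG_add_dH_out (G := G) (Finset.disjoint_right.1 h.dAT (hT ht))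
  have k2 := dG_add_dH_in (G := G) ht
  have k3 : dG G t T' = 0 := dG_eq_zero.2 fun b hb => h.ind t (hT ht) b (hT hb)
  have k4 := h.tA t (hT ht)
  have k5 := h.cA
  rw [dH_union (h.dAT.mono_right hT)]
  omega

/-- it suffices to tile the first side together with one vertex of the second -/
theorem Wd.finish (h : Wd G W A B T α β s α' β' s') (hle : β ≤ α) (sJ : Sd G W J α' β')
    {T' : Finset V} (hT : T' ⊆ T) (hc : T'.card = s + 1) {u : V} (hu : u ∈ B ∨ (u ∈ T ∧ u ∉ T'))
    (ht : Til G (insert u (A ∪ T')) (3 ::ₘ I)) : Til G W (3 ::ₘ (I + J)) := by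
  have k1 : (T \ T').card = s' := by
    have := h.cT
    rw [card_sdiff_of_subset hT]
    omega
  have k2 : u ∈ B ∪ T \ T' := by rwa [mem_union, mem_sdiff]
  have k3 : Hap G (B ∪ T \ T') β' := fun y hy => by
    rcases mem_union.1 hy with hy | hy
    · exact h.symm.ha hle sdiff_subset (by omega) y hy
    · have := h.symm.ht sdiff_subset y hy
      omega
  have k4 := sJ.orc ((B ∪ T \ T').erase u) (fun v hv => by
    rw [mem_erase, mem_union, mem_sdiff] at hv
    rw [h.mem]
    tauto) (by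
      have := h.cB
      rw [card_erase_of_mem k2, card_union_of_disjoint (h.dBT.mono_right sdiff_subset)]
      omega) (k3.mono (erase_subset _ _))
  have d1 := Finset.disjoint_left.1 h.dAB
  have d2 := Finset.disjoint_left.1 h.dAT
  have d3 := Finset.disjoint_left.1 h.dBT
  have k5 := ht.union k4 (Finset.disjoint_left.2 fun v hv hv' => by
    rw [mem_insert, mem_union] at hv
    rw [mem_erase, mem_union, mem_sdiff] at hv'
    have := @d1 v
    have := @d2 v
    have := @d3 v
    have := @hT v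
    tauto)
  rw [Multiset.cons_add] at k5
  convert k5 using 1
  ext v
  rw [h.mem, mem_union, mem_insert, mem_union, mem_erase, mem_union, mem_sdiff]
  by_cases e : v = u
  · subst e
    tauto
  · have := @hT v
    tauto

/-- an edge of the first side in a triangle that leaves the side has many common neighbours -/
theorem wa_edge (sI : Sd G W I α β) (sJ : Sd G W J α' β') (h : Wd G W A B T α β s α' β' s')
    (hn : ¬Til G W (3 ::ₘ (I + J))) {x y u : V} (hx : x ∈ A) (hy : y ∈ A) (hxy : G.Adj x y)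
    (hu : u ∈ B ∨ u ∈ T) (hux : G.Adj u x) (huy : G.Adj u y) :
    ∃ C ⊆ T, s' + 1 ≤ C.card ∧ ∀ t ∈ C, G.Adj t x ∧ G.Adj t y := by
  classical
  refine ⟨T.filter fun t => G.Adj t x ∧ G.Adj t y, filter_subset _ _, not_lt.1 fun k => hn ?_,
    fun t ht => (mem_filter.1 ht).2⟩
  obtain ⟨T', k1, k2⟩ := exists_subset_card_eq (s := T.filter fun t => ¬(G.Adj t x ∧ G.Adj t y))
    (n := s + 1) (by
      have := card_filter_add_card_filter_not (s := T) fun t => G.Adj t x ∧ G.Adj t y
      have := h.cT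
      omega)
  have hT : T' ⊆ T := k1.trans (filter_subset _ _)
  have k3 : u ∉ T' := fun e => (mem_filter.1 (k1 e)).2 ⟨hux, huy⟩
  have k4 : u ∉ A := fun e => hu.elim (Finset.disjoint_left.1 h.dAB e)
    (Finset.disjoint_left.1 h.dAT e)
  have k5 := h.ha sJ.le hT k2.le
  have k6 : Hap G (A ∪ T') (β + 1) := fun v hv => by
    rcases mem_union.1 hv with hv | hv
    · exact (k5 v hv).trans (Nat.lt_succ_self β)
    · have := h.ht hT v hv
      omega
  have k7 : ({x, y} : Finset V) ⊆ A ∪ T' :=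
    insert_subset (mem_union_left _ hx) (singleton_subset_iff.2 (mem_union_left _ hy))
  have k8 := k6.drop k7 fun v hv _ e => by
    rcases mem_union.1 hv with hv | hv
    · exact absurd e (k5 v hv).ne
    · rcases not_and_or.1 (mem_filter.1 (k1 hv)).2 with g | g
      exacts [⟨x, by simp, g⟩, ⟨y, by simp, g⟩]
  have k9 := sI.orc _ (fun v hv => by
    rw [h.mem]
    rcases mem_union.1 (mem_sdiff.1 hv).1 with hv | hv
    exacts [.inl hv, .inr (.inl (hT hv))]) (by
      have := h.cA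
      rw [card_sdiff_of_subset k7, card_pair hxy.ne, card_union_of_disjoint (h.dAT.mono_right hT)]
      omega) k8
  obtain ⟨g1, g2⟩ := hc_tri hux hxy huy.symm
  refine h.finish sI.le sJ hT k2 (hu.imp_right fun e => ⟨e, k3⟩) (k9.add g1 g2
    (Finset.disjoint_left.2 fun v hv hv' => ?_) ?_)
  · rw [mem_sdiff, mem_union] at hv'
    rcases mem_insert.1 hv with rfl | hv
    exacts [hv'.1.elim k4 k3, hv'.2 hv]
  · rw [insert_union, union_sdiff_of_subset k7]

theorem wa_tn (sI : Sd G W I α β) (sJ : Sd G W J α' β') (h : Wd G W A B T α β s α' β' s')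
    (hn : ¬Til G W (3 ::ₘ (I + J))) {x y u : V} (hx : x ∈ A) (hy : y ∈ A) (hxy : G.Adj x y)
    (hu : u ∈ B) (hux : G.Adj u x) (huy : G.Adj u y) : Tn G T x := by
  obtain ⟨C, k1, k2, k3⟩ := wa_edge sI sJ h hn hx hy hxy (.inl hu) hux huy
  obtain ⟨t, ht⟩ := card_pos.1 (show 0 < C.card by omega)
  exact ⟨t, k1 ht, (k3 t ht).1⟩

theorem wa_mu (sI : Sd G W I α β) (sJ : Sd G W J α' β') (h : Wd G W A B T α β s α' β' s')
    (hn : ¬Til G W (3 ::ₘ (I + J))) : ∀ x ∈ A, Tn G T x → s' + 1 ≤ dG G x T := by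
  rintro x hx ⟨t, ht, k⟩
  obtain ⟨N, k1, k2⟩ := exists_nbhd (G := G) t A
  have k3 := dG_add_dH_in (G := G) ((k2 x).2 ⟨hx, k⟩)
  have k4 : dH G x N ≤ dH G x (A ∪ ∅) :=
    dH_mono fun v hv => mem_union_left _ ((k2 v).1 hv).1
  have k5 := h.ha sJ.le (empty_subset T) (by simp) x hx
  have k6 := h.tA t ht
  have k7 := sI.le
  obtain ⟨y, hy, hxy⟩ := exists_adj (show 0 < dG G x N by omega)
  obtain ⟨C, g1, g2, g3⟩ := wa_edge sI sJ h hn hx ((k2 y).1 hy).1 hxy (.inr ht) k ((k2 y).1 hy).2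
  exact g2.trans (le_dG fun b hb => ⟨g1 hb, (g3 b hb).1.symm⟩)

theorem wfacts (sI : Sd G W I α β) (sJ : Sd G W J α' β') (h : Wd G W A B T α β s α' β' s') :
    Til G W (3 ::ₘ (I + J)) ∨ Wf G A B T s s' := by
  refine or_iff_not_imp_left.2 fun hn => ?_
  have hn' : ¬Til G W (3 ::ₘ (J + I)) := by rwa [add_comm]
  have mA := wa_mu sI sJ h hn
  have mB := wa_mu sJ sI h.symm hn'
  have xy : ∀ x ∈ A, ∀ u ∈ B, Tn G T x → Tn G T u → ¬G.Adj x u := fun x hx u hu g1 g2 => by
    have k1 := mA x hx g1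
    have k2 := mB u hu g2
    have k3 := h.cT
    obtain ⟨t, ht, k4, k5⟩ := exists_common (show T.card < dG G x T + dG G u T by omega)
    exact h.o1 t ht x hx u hu k4.symm k5.symm
  refine ⟨mA, mB, xy, fun x hx u hu g1 g2 g3 => ?_, fun u hu g x hx y hy g1 g2 g3 =>
    xy x hx u hu (wa_tn sI sJ h hn hx hy g3 hu g1 g2) g g1.symm, fun x hx g u hu v hv g1 g2 g3 =>
    xy x hx u hu g (wa_tn sJ sI h.symm hn' hu hv g3 hx g1 g2) g1⟩
  have e : W = A ∪ T ∪ B := by
    ext v
    rw [h.mem, mem_union, mem_union, or_assoc]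
  have k1 : W.card = A.card + T.card + B.card := by
    rw [e, card_union_of_disjoint (disjoint_union_left.2 ⟨h.dAB, h.dBT.symm⟩),
      card_union_of_disjoint h.dAT]
  have w1 := (h.mem x).2 (.inl hx)
  have w2 := (h.mem u).2 (.inr (.inr hu))
  have k2 := dG_add_dH_in (G := G) w1
  have k3 := dG_add_dH_in (G := G) w2
  have k4 := h.deg x w1
  have k5 := h.deg u w2
  have := h.cA
  have := h.cB
  have := h.cT
  have := sI.le
  have := sJ.le
  obtain ⟨z, hz, k6, k7⟩ := exists_common (show W.card < dG G x W + dG G u W by omega)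
  rcases (h.mem z).1 hz with hz | hz | hz
  · exact g1 (wa_tn sI sJ h hn hx hz k6 hu g3.symm k7)
  · exact g1 ⟨z, hz, k6.symm⟩
  · exact g2 (wa_tn sJ sI h.symm hn' hu hz k7 hx g3 k6)

end Pool.Agent.Lib.MP_af3016_co
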