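import Pool.Agent.Lib.MP_af3016_co.F.WA
import Pool.Agent.Lib.MP_af3016_co.F.Peel

/-! The middle case of a triangle crossing: the two moves. -/

set_option autoImplicit false
set_option linter.unusedSectionVars false

namespace Pool.Agent.Lib.MP_af3016_co

open Finset SimpleGraph

variable {V : Type} [DecidableEq V] {G : SimpleGraph V}

variable {W A B T : Finset V} {α β s α' β' s' : ℕ}

theorem wb_deg (h : Wd G W A B T α β s α' β' s') {v : V} (hv : v ∈ A ∨ v ∈ T ∨ v ∈ B) :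
    dH G v A + dH G v T + dH G v B ≤ β + β' := by
  rw [← dH_union h.dAT, ← dH_union (disjoint_union_left.2 ⟨h.dAB, h.dBT.symm⟩)]
  refine (dH_mono fun x hx => (h.mem x).2 ?_).trans (h.deg v ((h.mem v).2 hv))
  simpa only [mem_union, or_assoc] using hx

theorem wb_ins (y u : V) (P : Finset V) : dH G y (insert u P) ≤ dH G y P + 1 := by
  obtain ⟨N, h1, h2⟩ := exists_non (G := G) y P
  refine (dH_le (R := insert u N) fun b hb g1 g2 => ?_).trans (h1 ▸ card_insert_le _ _)
  exact mem_insert.2 ((mem_insert.1 hb).imp_right fun k => (h2 b).2 ⟨k, g1, g2⟩)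

/-- a vertex with few neighbours in `B` has few non-neighbours on the first side -/
theorem wb_tn (h : Wd G W A B T α β s α' β' s') {T' : Finset V} (hT : T' ⊆ T) {y : V} (hy : y ∈ A)
    {r : ℕ} (hx : s' + 1 + dG G y B + r ≤ α') : dH G y (A ∪ T') + r + 2 ≤ β := by
  have h1 := wb_deg h (.inl hy)
  have h2 := dG_add_dH_out (G := G) (Finset.disjoint_left.1 h.dAB hy)
  have h3 := dH_mono (G := G) (a := y) hT
  have h4 := h.cB
  rw [dH_union (h.dAT.mono_right hT)]
  omega

theorem moveA4 (h : Wd G W A B T α β s α' β' s') (f : Wf G A B T s s') (hle : β ≤ α)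
    (hle' : β' ≤ α') (h2 : 2 ≤ β) {I0 : Multiset ℕ}
    (orc : Orc G W (α + β - 1) (β - 1) (3 ::ₘ I0)) {T' : Finset V} (hT : T' ⊆ T)
    (hc : T'.card = s + 1) {u : V} (hu : u ∈ B) (huT : ∀ t ∈ T', G.Adj u t)
    (hz : 2 ≤ s + 1 + dG G u A) (hx : ∀ x ∈ A, Tn G T x → s' + 1 + dG G x B ≤ α') :
    Til G (insert u (A ∪ T')) (3 ::ₘ 4 ::ₘ I0) := by
  have cA := h.cA
  have nA : ∀ z ∈ A, z ∉ T := fun z hz => Finset.disjoint_left.1 h.dAT hz
  obtain ⟨t, ht, z, hz1, hzt, huz, hz2, hz3⟩ : ∃ t ∈ T', ∃ z ∈ A ∪ T', t ≠ z ∧ G.Adj u z ∧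
      (∀ y ∈ T, ¬G.Adj y z) ∧ α + 1 ≤ dG G z A := by
    rcases Nat.eq_zero_or_pos s with rfl | hs
    · obtain ⟨t, ht⟩ : T'.Nonempty := card_pos.1 (by omega)
      obtain ⟨z, z1, z2⟩ := exists_adj (G := G) (a := u) (S := A) (by omega)
      have z3 : ∀ y ∈ T, ¬G.Adj y z := fun y hy k =>
        f.xy z z1 u hu ⟨y, hy, k⟩ ⟨t, hT ht, (huT t ht).symm⟩ z2.symm
      have := h.pA z z1 z3
      have := dG_add_dH_in (G := G) z1
      exact ⟨t, ht, z, mem_union_left _ z1, fun e => nA z z1 (e ▸ hT ht), z2, z3, by omega⟩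
    · obtain ⟨t, ht, z, z1, z2⟩ := one_lt_card.1 (show 1 < T'.card by omega)
      exact ⟨t, ht, z, mem_union_right _ z1, z2, huT z z1, fun y hy => h.ind y hy z (hT z1),
        (h.tA z (hT z1)).ge⟩
  obtain ⟨x, x1, x2, x3⟩ := exists_common (G := G) (a := t) (b := z) (S := A)
    (by have := h.tA t (hT ht); omega)
  have uP : u ∉ A ∪ T' := fun k => (mem_union.1 k).elim (Finset.disjoint_right.1 h.dAB hu)
    fun k => Finset.disjoint_left.1 h.dBT hu (hT k)
  obtain ⟨q1, q2⟩ := hc_quad (huT t ht) x2 x3.symm huz.symm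
    (fun e => uP (e ▸ mem_union_left _ x1)) hzt
  have hQ : ({t, x, z} : Finset V) ⊆ A ∪ T' := by
    simp only [insert_subset_iff, singleton_subset_iff]
    exact ⟨mem_union_right _ ht, mem_union_left _ x1, hz1⟩
  have c3 : ({t, x, z} : Finset V).card = 3 := card_eq_three.2 ⟨t, x, z, x2.ne, hzt, x3.ne.symm, rfl⟩
  rw [Multiset.cons_swap]
  refine (orc ((A ∪ T') \ {t, x, z}) (fun v hv => (h.mem v).2 ?_) ?_ fun y hy => ?_).add q1 q2 ?_ ?_
  · exact (mem_union.1 (mem_sdiff.1 hv).1).imp_right fun k => .inl (hT k)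
  · rw [card_sdiff_of_subset hQ, card_union_of_disjoint (h.dAT.mono_right hT), c3]
    omega
  · obtain ⟨y1, y2⟩ := mem_sdiff.1 hy
    have k1 := dH_sdiff (G := G) (a := y) hQ
    simp only [mem_insert, mem_singleton, not_or] at y2
    rcases mem_union.1 y1 with y1 | y1
    · by_cases k : Tn G T y
      · have := wb_tn h hT y1 (r := 0) (hx y y1 k)
        omega
      · have := h.ha hle' hT hc.le y y1
        have := dH_pos (G := G) (a := y) (mem_insert_self t {x, z}) (Ne.symm y2.1)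
          fun e => k ⟨t, hT ht, e.symm⟩
        omega
    · have := h.ht hT y y1
      have : ({t, z} : Finset V).card ≤ dH G y {t, x, z} := le_dH fun b hb => by
        rcases mem_insert.1 hb with rfl | hb
        · exact ⟨by simp, Ne.symm y2.1, h.ind y (hT y1) b (hT ht)⟩
        · rw [mem_singleton.1 hb]
          exact ⟨by simp, Ne.symm y2.2.2, hz2 y (hT y1)⟩
      rw [card_pair hzt] at this
      omega
  · rw [disjoint_insert_left]
    exact ⟨fun k => uP (mem_sdiff.1 k).1, disjoint_sdiff⟩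
  · rw [insert_union, union_sdiff_of_subset hQ]

theorem moveA3 (h : Wd G W A B T α β s α' β' s') (f : Wf G A B T s s') (hle' : β' ≤ α') {a r : ℕ}
    (h3 : 3 ≤ a) (eα : α = (a + 1) / 2 + 2 * r) (eβ : β = a / 2 + r) {T' : Finset V} (hT : T' ⊆ T)
    (hc : T'.card = s + 1) {u : V} (hu : u ∈ B) (huT : ∀ t ∈ T', G.Adj u t)
    (hz : r + 3 ≤ s + 1 + dG G u A) (hx : ∀ x ∈ A, Tn G T x → s' + 1 + dG G x B + r ≤ α') :
    Til G (insert u (A ∪ T')) (3 ::ₘ a ::ₘ Multiset.replicate r 3) := by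
  have cA := h.cA
  have cB := h.cB
  have cT := h.cT
  have dP := h.dAT.mono_right hT
  obtain ⟨t, ht⟩ : T'.Nonempty := card_pos.1 (by omega)
  have uT : Tn G T u := ⟨t, hT ht, (huT t ht).symm⟩
  have uP : u ∉ A ∪ T' := fun k => (mem_union.1 k).elim (Finset.disjoint_right.1 h.dAB hu)
    fun k => Finset.disjoint_left.1 h.dBT hu (hT k)
  have hr : r + 1 ≤ α' := by
    obtain ⟨x, x1, x2⟩ := exists_adj (G := G) (a := t) (S := A) (by have := h.tA t (hT ht); omega)
    have := hx x x1 ⟨t, hT ht, x2⟩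
    omega
  rw [Multiset.cons_swap, ← Multiset.replicate_succ]
  refine peel h3 (r + 1) _ uP (by rw [card_union_of_disjoint dP]; omega)
    (fun z hz z' hz' g g' k => ?_) (by rw [dG_union dP, dG_eq_card huT]; omega) (fun y hy => ?_)
    fun Q hQ cQ hl => ?_
  · rcases mem_union.1 hz with hz | hz <;> rcases mem_union.1 hz' with hz' | hz'
    · exact f.iA u hu uT z hz z' hz' g g' k
    · exact h.o1 z' (hT hz') z hz u hu k.symm g'.symm g.symm
    · exact h.o1 z (hT hz) z' hz' u hu k g.symm g'.symm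
    · exact h.ind z (hT hz) z' (hT hz') k
  · rcases mem_union.1 hy with hy | hy
    · have := h.ha hle' hT hc.le y hy
      have := wb_ins (G := G) y u (A ∪ T')
      omega
    · have := h.ht hT y hy
      rw [dH_insert_adj _ (huT y hy).symm]
      omega
  by_contra h4
  have q1 : ∀ y ∈ Q, y ∈ A → ¬Tn G T y := fun y hy yA k => by
    have := wb_tn h hT yA (hx y yA k)
    have := wb_ins (G := G) y u (A ∪ T')
    have := hl y hy
    omega
  have q2 : ∀ y ∈ Q, y ∈ A := fun y hy => (mem_union.1 (hQ hy)).resolve_right fun k => by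
    obtain ⟨z, z1, z2⟩ := exists_mem_ne (show 1 < Q.card by omega) y
    have g := cQ y hy z z1 z2.symm
    exact (mem_union.1 (hQ z1)).elim (fun e => q1 z z1 e ⟨y, hT k, g⟩)
      fun e => h.ind y (hT k) z (hT e) g
  have q3 : ∀ p ∈ Q, ∀ v ∈ B, G.Adj p v → Tn G T v := fun p hp v hv g => by
    by_contra k
    exact f.pp p (q2 p hp) v hv (q1 p hp (q2 p hp)) k g
  have q4 : ∀ p ∈ Q, B.card + 1 ≤ 4 * dG G p B := fun p hp => by
    have pA := q2 p hp
    have k1 := hl p hp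
    have k2 := wb_ins (G := G) p u (A ∪ T')
    have k3 := dH_le_card (G := G) p T'
    have k4 := wb_deg h (.inl pA)
    have k5 := dG_add_dH_out (G := G) (Finset.disjoint_left.1 h.dAB pA)
    have k6 : dH G p T = T.card := dH_eq_card fun b hb =>
      ⟨fun e => Finset.disjoint_left.1 h.dAT pA (e ▸ hb), fun e => q1 p hp pA ⟨b, hb, e.symm⟩⟩
    rw [dH_union dP] at k2
    obtain ⟨v, v1, v2⟩ := exists_adj (G := G) (a := p) (S := B) (by omega)
    have k7 := wb_deg h (.inr (.inr v1))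
    have k8 := dG_add_dH_out (G := G) (Finset.disjoint_right.1 h.dAB v1)
    obtain ⟨N, n1, n2⟩ := exists_nbhd (G := G) v A
    have k9 : (N.erase p).card ≤ dH G p A := le_dH fun b hb => by
      obtain ⟨b1, b2⟩ := mem_erase.1 hb
      obtain ⟨b2, b3⟩ := (n2 b).1 b2
      exact ⟨b2, b1, f.iA v v1 (q3 p hp v v1 v2) p pA b b2 v2.symm b3⟩
    rw [card_erase_of_mem ((n2 p).2 ⟨pA, v2.symm⟩)] at k9
    omega
  have q5 : ∀ v ∈ B, dG G v Q ≤ 1 := fun v hv => by
    obtain ⟨N, n1, n2⟩ := exists_nbhd (G := G) v Q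
    rw [← n1]
    refine card_le_one.2 fun p hp p' hp' => by_contra fun k => ?_
    obtain ⟨p1, p2⟩ := (n2 p).1 hp
    obtain ⟨p3, p4⟩ := (n2 p').1 hp'
    exact f.iA v hv (q3 p p1 v hv p2.symm) p (q2 p p1) p' (q2 p' p3) p2 p4 (cQ p p1 p' p3 k)
  have s1 := card_nsmul_le_sum Q _ _ q4
  have s2 := sum_le_card_nsmul B _ _ q5
  rw [← mul_sum, sum_dG_comm, smul_eq_mul] at s1
  rw [smul_eq_mul, mul_one] at s2
  have := Nat.mul_le_mul_right (B.card + 1) (show 4 ≤ Q.card by omega)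
  omega

end Pool.Agent.Lib.MP_af3016_co
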